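import Mathlib

/-!
# EXV / ValExt: extension of a discrete valuation to a finite extension

PROOF.  If `u x ∈ {0, 1}` for all `x`: the trivial valuation of `L`, `e = 1`. Otherwise `A = u.valuationSubring` is a discrete valuation ring
(values in `ℤ`), `B = integralClosure A L` is a Dedekind domain with fraction field `L` (separable, char 0), `Q` a maximal ideal of `B`
with the uniformizer `ϖ` of `A` (not a unit of `B`), `u1 = Q.valuation L`. `u ϖ = exp (-g)`, `u1 ϖ = exp (-e)`, `g, e ≥ 1`;
`x = ϖ ^ m * unit`: `u1 x ^ g = u x ^ e`. `u' = u1 ^ g`.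
-/

set_option autoImplicit false

namespace Pool.Agent.EXV

open MonoidWithZeroHom

private lemma ve_exp (a : WithZero (Multiplicative ℤ)) (h0 : a ≠ 0) (h1 : a < 1) :
    ∃ g : ℕ, 1 ≤ g ∧ a = WithZero.exp (-(g : ℤ)) := by
  have h2 : a = WithZero.exp (WithZero.log a) := (WithZero.exp_log h0).symm
  have h3 : WithZero.log a < 0 := by
    rw [h2, ← WithZero.exp_zero, WithZero.exp_lt_exp] at h1
    exact h1
  refine ⟨(-WithZero.log a).toNat, by omega, ?_⟩
  rw [Int.toNat_of_nonneg (by omega), neg_neg]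
  exact h2

theorem val_ext {K L : Type} [Field K] [Field L] [Algebra K L] [FiniteDimensional K L] [CharZero K]
    (u : Valuation K (WithZero (Multiplicative ℤ))) :
    ∃ (u' : Valuation L (WithZero (Multiplicative ℤ))) (e : ℕ), 1 ≤ e ∧
      ∀ x : K, u' (algebraMap K L x) = u x ^ e := by
  classical
  by_cases hu : u.IsNontrivial
  swap
  · -- the trivial valuation
    refine ⟨1, 1, le_rfl, fun x => ?_⟩
    rw [pow_one]
    by_cases hx : x = 0
    · rw [hx, map_zero, map_zero, map_zero]
    · have h1 : u x = 1 := by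
        by_contra h
        exact hu ⟨⟨x, (u.ne_zero_iff).2 hx, h⟩⟩
      rw [h1]
      exact Valuation.one_apply_of_ne_zero ((map_ne_zero _).2 hx)
  have hcyc : IsCyclic (valueGroup (.ofClass u) : Subgroup (WithZero (Multiplicative ℤ))ˣ) := by
    have h1 : IsCyclic (WithZero (Multiplicative ℤ))ˣ :=
      isCyclic_of_surjective (WithZero.unitsWithZeroEquiv (α := Multiplicative ℤ)).symm
        (WithZero.unitsWithZeroEquiv (α := Multiplicative ℤ)).symm.surjective
    infer_instance
  obtain ⟨⟨π, hπA⟩, hπ⟩ := Valuation.exists_isUniformizer_of_isCyclic_of_nontrivial u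
  have hπ0 : π ≠ 0 := hπ.ne_zero
  have hπ1 : u π < 1 := hπ.val_lt_one
  have hπu : u π ≠ 0 := (u.ne_zero_iff).2 hπ0
  -- every element is a power of `π` times a unit
  have hpow : ∀ x : K, x ≠ 0 → ∃ m : ℤ, u x = u π ^ m := by
    intro x hx
    have hx0 : u x ≠ 0 := (u.ne_zero_iff).2 hx
    have h1 : Units.mk0 (u x) hx0 ∈ (valueGroup (.ofClass u)) := by
      apply mem_valueGroup
      exact ⟨x, rfl⟩
    rw [hπ.zpowers_eq_valueGroup, Subgroup.mem_zpowers_iff] at h1
    obtain ⟨m, hm⟩ := h1
    refine ⟨m, ?_⟩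
    have h2 := congrArg Units.val hm
    rw [Units.val_zpow_eq_zpow_val] at h2
    exact h2.symm
  obtain ⟨g, hg1, hg⟩ := ve_exp (u π) hπu hπ1
  set A := u.valuationSubring with hA
  have hDVR : IsDiscreteValuationRing A := inferInstance
  have hDed : IsDedekindDomain A := inferInstance
  have hFrac : IsFractionRing A K := inferInstance
  have hB : IsDedekindDomain (integralClosure A L) := integralClosure.isDedekindDomain A K L
  have hBL : IsFractionRing (integralClosure A L) L :=
    integralClosure.isFractionRing_of_finite_extension K L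
  set B := integralClosure A L with hBdef
  have hint : ∀ x : K, u x ≤ 1 → algebraMap K L x ∈ B := by
    intro x hx
    rw [hBdef, mem_integralClosure_iff]
    exact isIntegral_algebraMap (R := A) (A := L) (x := ⟨x, hx⟩)
  -- `π` is not a unit of `B`
  have hunit : ¬ IsUnit (⟨algebraMap K L π, hint π hπ1.le⟩ : B) := by
    intro h
    have h1 : IsUnit (algebraMap A B ⟨π, hπA⟩) := h
    have h2 : IsUnit (⟨π, hπA⟩ : A) := isUnit_of_map_unit (algebraMap A B) _ h1
    exact hπ.not_isUnit h2
  obtain ⟨Q, hQ, hπQ⟩ := exists_max_ideal_of_mem_nonunits (mem_nonunits_iff.2 hunit)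
  have hπL : algebraMap K L π ≠ 0 := (map_ne_zero _).2 hπ0
  have hQ0 : Q ≠ ⊥ := by
    rintro rfl
    exact hπL (congrArg Subtype.val ((Submodule.mem_bot _).1 hπQ))
  let v : IsDedekindDomain.HeightOneSpectrum B := ⟨Q, hQ.isPrime, hQ0⟩
  obtain ⟨w, hw⟩ : ∃ w : Valuation L (WithZero (Multiplicative ℤ)), w = v.valuation L := ⟨_, rfl⟩
  have hw1 : w (algebraMap K L π) < 1 := by
    rw [hw]
    exact (v.valuation_lt_one_iff_mem (K := L) ⟨_, hint π hπ1.le⟩).2 hπQ
  have hwle : ∀ x : K, u x ≤ 1 → w (algebraMap K L x) ≤ 1 := by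
    intro x hx
    rw [hw]
    exact v.valuation_le_one (K := L) ⟨_, hint x hx⟩
  have hwone : ∀ x : K, u x = 1 → w (algebraMap K L x) = 1 := by
    intro x hx
    have hx0 : x ≠ 0 := by
      rintro rfl
      rw [map_zero] at hx
      exact zero_ne_one hx
    refine le_antisymm (hwle x hx.le) ?_
    have h1 := hwle x⁻¹ (by rw [map_inv₀, hx, inv_one])
    rw [map_inv₀, map_inv₀] at h1
    have h2 : w (algebraMap K L x) ≠ 0 := (w.ne_zero_iff).2 ((map_ne_zero _).2 hx0)
    exact (inv_le_one₀ (zero_lt_iff.2 h2)).1 h1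
  obtain ⟨e, he1, he⟩ := ve_exp (w (algebraMap K L π)) ((w.ne_zero_iff).2 hπL) hw1
  have hg0 : g ≠ 0 := by omega
  refine ⟨w.map (powMonoidWithZeroHom hg0) (fun a b hab => pow_left_mono g hab), e, he1,
    fun x => ?_⟩
  change w (algebraMap K L x) ^ g = u x ^ e
  by_cases hx : x = 0
  · rw [hx, map_zero, map_zero, map_zero, zero_pow hg0, zero_pow (by omega)]
  · obtain ⟨m, hm⟩ := hpow x hx
    have h1 : u (x * π ^ (-m)) = 1 := by
      rw [map_mul, map_zpow₀, hm, ← zpow_add₀ hπu, add_neg_cancel, zpow_zero]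
    have h2 := hwone _ h1
    have h3 : w (algebraMap K L x) = w (algebraMap K L π) ^ m := by
      rw [map_mul, map_mul, map_zpow₀, map_zpow₀] at h2
      have h4 : w (algebraMap K L π) ≠ 0 := (w.ne_zero_iff).2 hπL
      rw [zpow_neg] at h2
      exact (mul_inv_eq_one₀ (zpow_ne_zero _ h4)).1 h2
    rw [h3, hm, he, hg, ← zpow_natCast, ← zpow_natCast, ← zpow_mul, ← zpow_mul,
      ← WithZero.exp_zsmul, ← WithZero.exp_zsmul]
    congr 1
    simp only [smul_eq_mul]
    ring

end Pool.Agent.EXV
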