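import Pool.Agent.EXV.Defs
import Pool.Agent.EXV.ValExt

/-!
# EXV / Isog: the substitution `x_j = d_j x''_j`, `y_j = y''_j ^ d_j`
-/

set_option autoImplicit false

namespace Pool.Agent.EXV

open MvPolynomial

/-- roots in a finite extension -/
private theorem isog_roots {K : Type} [Field K] {n : ℕ} (y : Fin n → K) (d : Fin n → ℕ)
    (hd : ∀ j, 1 ≤ d j) :
    ∃ (L : Type) (_ : Field L) (_ : Algebra K L) (_ : FiniteDimensional K L) (η : Fin n → L),
      ∀ j, η j ^ d j = algebraMap K L (y j) := by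
  have h1 : ∀ j, ∃ z : AlgebraicClosure K, z ^ d j = algebraMap K (AlgebraicClosure K) (y j) :=
    fun j => IsAlgClosed.exists_pow_nat_eq _ (hd j)
  choose z hz using h1
  have h2 : FiniteDimensional K (IntermediateField.adjoin K (Set.range z)) :=
    IntermediateField.finiteDimensional_adjoin fun x _ =>
      (Algebra.IsAlgebraic.isAlgebraic x).isIntegral
  refine ⟨IntermediateField.adjoin K (Set.range z), inferInstance, inferInstance, h2,
    fun j => ⟨z j, IntermediateField.subset_adjoin K _ ⟨j, rfl⟩⟩, fun j => ?_⟩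
  apply Subtype.ext
  exact hz j

/-- the transcendence degree of an intermediate ring -/
private theorem isog_trdeg {A B L : Type} [CommRing A] [IsDomain A] [CommRing B] [IsDomain B]
    [Field L] [Algebra ℂ A] [Algebra ℂ B] [Algebra ℂ L] [Algebra A L] [Algebra B L]
    [IsScalarTower ℂ A L] [IsScalarTower ℂ B L] (hA : Function.Injective (algebraMap A L))
    (hB : Function.Injective (algebraMap B L)) (g : A →+* B)
    (hg : ∀ a, algebraMap B L (g a) = algebraMap A L a) (halg : Algebra.IsAlgebraic A L) :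
    Algebra.trdeg ℂ B = Algebra.trdeg ℂ A := by
  have h1 : FaithfulSMul A L := (faithfulSMul_iff_algebraMap_injective A L).2 hA
  have h2 : FaithfulSMul B L := (faithfulSMul_iff_algebraMap_injective B L).2 hB
  have h3 : FaithfulSMul ℂ A :=
    (faithfulSMul_iff_algebraMap_injective ℂ A).2 (algebraMap ℂ A).injective
  have h4 : FaithfulSMul ℂ B :=
    (faithfulSMul_iff_algebraMap_injective ℂ B).2 (algebraMap ℂ B).injective
  let _ : Algebra A B := g.toAlgebra
  have : IsScalarTower A B L := IsScalarTower.of_algebraMap_eq fun a => (hg a).symm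
  have hgi : Function.Injective (algebraMap A B) := fun a b h => by
    apply hA
    rw [← hg a, ← hg b]
    exact congrArg (algebraMap B L) h
  have : Algebra.IsAlgebraic B L := Algebra.IsAlgebraic.extendScalars hgi
  have h5 := trdeg_add_eq ℂ A (A := L)
  have h6 := trdeg_add_eq ℂ B (A := L)
  rw [trdeg_eq_zero (R := A), add_zero] at h5
  rw [trdeg_eq_zero (R := B), add_zero] at h6
  rw [h5, h6]

/-- multiplication of the coordinates by constants -/
private noncomputable def sca {n : ℕ} (c : Fin n → ℂ) :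
    MvPolynomial (Fin n) ℂ →ₐ[ℂ] MvPolynomial (Fin n) ℂ := aeval (fun j => C (c j) * X j)

private theorem sca_sca {n : ℕ} (c c' : Fin n → ℂ) (h : ∀ j, c j * c' j = 1)
    (f : MvPolynomial (Fin n) ℂ) : sca c (sca c' f) = f := by
  have h1 : (sca c).comp (sca c') = AlgHom.id ℂ _ := by
    apply MvPolynomial.algHom_ext
    intro j
    simp only [sca, AlgHom.comp_apply, aeval_X, map_mul, AlgHom.id_apply]
    rw [← algebraMap_eq, AlgHom.commutes, algebraMap_eq, ← mul_assoc, ← C_mul, mul_comm (c' j),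
      h j, C_1, one_mul]
  exact DFunLike.congr_fun h1 f

/-- the valuation of the function field -/
private theorem isog_val {R K Γ : Type} [CommRing R] (P : Ideal R) [P.IsPrime] [Field K]
    [Algebra (R ⧸ P) K] [IsFractionRing (R ⧸ P) K] [LinearOrderedCommGroupWithZero Γ]
    (w : Valuation R Γ) (hw : ∀ f, w f = 0 ↔ f ∈ P) :
    ∃ u : Valuation K Γ, ∀ f, u (algebraMap (R ⧸ P) K (Ideal.Quotient.mk P f)) = w f := by
  have hJ : P ≤ w.supp := fun f hf => (Valuation.mem_supp_iff w f).2 ((hw f).2 hf)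
  have hS : nonZeroDivisors (R ⧸ P) ≤ (w.onQuot hJ).supp.primeCompl := by
    intro s hs
    obtain ⟨f, rfl⟩ := Ideal.Quotient.mk_surjective s
    have h1 : f ∉ P := fun h =>
      nonZeroDivisors.ne_zero hs (Ideal.Quotient.eq_zero_iff_mem.2 h)
    intro h2
    have h3 : w.onQuot hJ (Ideal.Quotient.mk P f) = 0 := (Valuation.mem_supp_iff _ _).1 h2
    exact h1 ((hw f).1 h3)
  refine ⟨(w.onQuot hJ).extendToLocalization hS K, fun f => ?_⟩
  rw [Valuation.extendToLocalization_apply_map_apply]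
  rfl

private theorem isog_aux {n : ℕ} (P : Ideal (MvPolynomial (Fin n ⊕ Fin n) ℂ))
    (F : MvPolynomial (Fin n) ℂ)
    (w : Valuation (MvPolynomial (Fin n ⊕ Fin n) ℂ) (WithZero (Multiplicative ℤ)))
    (v : Fin n → ℤ) (hD : Dat P F w v) (d : Fin n → ℕ) (hd : ∀ j, 1 ≤ d j)
    {K L : Type} [Field K] [Field L] [Algebra ℂ K] [Algebra ℂ L] [Algebra K L]
    [Algebra (MvPolynomial (Fin n ⊕ Fin n) ℂ ⧸ P) K] [IsScalarTower ℂ K L]
    [IsScalarTower ℂ (MvPolynomial (Fin n ⊕ Fin n) ℂ ⧸ P) K]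
    [IsFractionRing (MvPolynomial (Fin n ⊕ Fin n) ℂ ⧸ P) K] [FiniteDimensional K L]
    (q : MvPolynomial (Fin n ⊕ Fin n) ℂ →ₐ[ℂ] K)
    (hq : ∀ f, q f = algebraMap (MvPolynomial (Fin n ⊕ Fin n) ℂ ⧸ P) K (Ideal.Quotient.mk P f))
    (η : Fin n → L) (hη : ∀ j, η j ^ d j = algebraMap K L (q (X (Sum.inr j))))
    (u : Valuation K (WithZero (Multiplicative ℤ))) (hu : ∀ f, u (q f) = w f)
    (u' : Valuation L (WithZero (Multiplicative ℤ))) (e : ℕ)
    (hu' : ∀ x : K, u' (algebraMap K L x) = u x ^ e) :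
    ∃ (P' : Ideal (MvPolynomial (Fin n ⊕ Fin n) ℂ))
      (w' : Valuation (MvPolynomial (Fin n ⊕ Fin n) ℂ) (WithZero (Multiplicative ℤ)))
      (v' : Fin n → ℤ), (∀ j, (d j : ℤ) * v' j = e * v j) ∧
      Dat P' (aeval (fun j => C (d j : ℂ) * X j : Fin n → MvPolynomial (Fin n) ℂ) F) w' v' ∧
      (Dense P' → Dense P) := by
  have hPp := hD.hP
  have hd0 : ∀ j, (d j : ℂ) ≠ 0 := fun j => by
    have := hd j
    exact_mod_cast (show d j ≠ 0 by omega)
  have hq0 : ∀ f, q f = 0 ↔ f ∈ P := by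
    intro f
    rw [hq, IsFractionRing.to_map_eq_zero_iff, Ideal.Quotient.eq_zero_iff_mem]
  let Φ : MvPolynomial (Fin n ⊕ Fin n) ℂ →ₐ[ℂ] L :=
    aeval (Sum.elim (fun j => algebraMap ℂ L (d j : ℂ)⁻¹ * algebraMap K L (q (X (Sum.inl j)))) η)
  let φ : MvPolynomial (Fin n ⊕ Fin n) ℂ →ₐ[ℂ] MvPolynomial (Fin n ⊕ Fin n) ℂ :=
    aeval (Sum.elim (fun j => C (d j : ℂ) * X (Sum.inl j)) (fun j => X (Sum.inr j) ^ d j))
  have hΦφ : ∀ f, Φ (φ f) = algebraMap K L (q f) := by
    have h1 : Φ.comp φ = (IsScalarTower.toAlgHom ℂ K L).comp q := by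
      apply MvPolynomial.algHom_ext
      rintro (j | j)
      · simp only [Φ, φ, AlgHom.comp_apply, aeval_X, Sum.elim_inl, map_mul, aeval_C,
          IsScalarTower.coe_toAlgHom']
        rw [← mul_assoc, ← map_mul, mul_inv_cancel₀ (hd0 j), map_one, one_mul]
      · simp only [Φ, φ, AlgHom.comp_apply, aeval_X, Sum.elim_inr, map_pow,
          IsScalarTower.coe_toAlgHom']
        exact hη j
    exact fun f => DFunLike.congr_fun h1 f
  set σ := sca (fun j => (d j : ℂ)) with hσ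
  set τ := sca (fun j => (d j : ℂ)⁻¹) with hτ
  have hστ : ∀ f, σ (τ f) = f := sca_sca _ _ fun j => mul_inv_cancel₀ (hd0 j)
  have hτσ : ∀ f, τ (σ f) = f := sca_sca _ _ fun j => inv_mul_cancel₀ (hd0 j)
  have hΦr : ∀ f : MvPolynomial (Fin n) ℂ, Φ (rename Sum.inl f) =
      algebraMap K L (q (rename Sum.inl (τ f))) := by
    have h1 : Φ.comp (rename Sum.inl) = ((IsScalarTower.toAlgHom ℂ K L).comp q).comp
        ((rename Sum.inl).comp τ) := by
      apply MvPolynomial.algHom_ext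
      intro j
      simp only [Φ, hτ, sca, AlgHom.comp_apply, aeval_X, Sum.elim_inl, map_mul, rename_X,
        rename_C, IsScalarTower.coe_toAlgHom']
      rw [← algebraMap_eq, AlgHom.commutes, ← IsScalarTower.algebraMap_apply]
    exact fun f => DFunLike.congr_fun h1 f
  have hdvd : ∀ f, F ∣ τ f ↔ σ F ∣ f := by
    intro f
    constructor
    · intro h
      have h1 := map_dvd σ h
      rwa [hστ] at h1
    · intro h
      have h1 := map_dvd τ h
      rwa [hτσ] at h1
  let P' : Ideal (MvPolynomial (Fin n ⊕ Fin n) ℂ) := RingHom.ker Φ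
  have hP' : ∀ f, f ∈ P' ↔ Φ f = 0 := fun f => RingHom.mem_ker
  have hPr : P'.IsPrime := RingHom.ker_isPrime Φ
  let w' : Valuation (MvPolynomial (Fin n ⊕ Fin n) ℂ) (WithZero (Multiplicative ℤ)) :=
    u'.comap (Φ : MvPolynomial (Fin n ⊕ Fin n) ℂ →+* L)
  have hw' : ∀ f, w' f = u' (Φ f) := fun f => rfl
  have hη0 : ∀ j, η j ≠ 0 := by
    intro j h
    have h1 := hη j
    rw [h, zero_pow (by have := hd j; omega)] at h1
    have h2 : q (X (Sum.inr j)) = 0 := by
      apply (algebraMap K L).injective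
      rw [map_zero, ← h1]
    exact hD.hY j ((hq0 _).1 h2)
  have hΦX : ∀ j, Φ (X (Sum.inr j)) = η j := fun j => by simp [Φ]
  have hηv : ∀ j, ∃ m : ℤ, u' (η j) = WithZero.exp (-m) ∧ (d j : ℤ) * m = e * v j := by
    intro j
    have h1 : u' (η j) ≠ 0 := (Valuation.ne_zero_iff _).2 (hη0 j)
    refine ⟨-WithZero.log (u' (η j)), by rw [neg_neg, WithZero.exp_log h1], ?_⟩
    have h2 : u' (η j) ^ d j = w (X (Sum.inr j)) ^ e := by
      rw [← map_pow, hη, hu', hu]
    have h3 := congrArg WithZero.log h2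
    rw [WithZero.log_pow, WithZero.log_pow, hD.hwv j, WithZero.log_exp] at h3
    simp only [nsmul_eq_mul] at h3
    linear_combination -h3
  choose v' hv'1 hv'2 using hηv
  refine ⟨P', w', v', hv'2, ?_, ?_⟩
  · refine { hP := hPr, hY := ?_, hdim := ?_, hF0 := ?_, hF := ?_, hw := ?_, hwx := ?_, hwv := ?_ }
    · intro j h
      rw [hP', hΦX] at h
      exact hη0 j h
    · let _ : Algebra (MvPolynomial (Fin n ⊕ Fin n) ℂ ⧸ P') L :=
        (RingHom.kerLift (Φ : MvPolynomial (Fin n ⊕ Fin n) ℂ →+* L)).toAlgebra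
      let _ : Algebra (MvPolynomial (Fin n ⊕ Fin n) ℂ ⧸ P) L :=
        ((algebraMap K L).comp (algebraMap (MvPolynomial (Fin n ⊕ Fin n) ℂ ⧸ P) K)).toAlgebra
      have hmk : ∀ f, algebraMap (MvPolynomial (Fin n ⊕ Fin n) ℂ ⧸ P') L
          (Ideal.Quotient.mk P' f) = Φ f := fun f => rfl
      have hmk2 : ∀ a, algebraMap (MvPolynomial (Fin n ⊕ Fin n) ℂ ⧸ P) L a =
          algebraMap K L (algebraMap _ K a) := fun f => rfl
      have t1 : IsScalarTower ℂ (MvPolynomial (Fin n ⊕ Fin n) ℂ ⧸ P') L := by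
        refine IsScalarTower.of_algebraMap_eq (R := ℂ)
          (S := MvPolynomial (Fin n ⊕ Fin n) ℂ ⧸ P') (A := L) fun c => ?_
        change _ = algebraMap (MvPolynomial (Fin n ⊕ Fin n) ℂ ⧸ P') L
          (Ideal.Quotient.mk P' (algebraMap ℂ _ c))
        rw [hmk, AlgHom.commutes]
      have t2 : IsScalarTower (MvPolynomial (Fin n ⊕ Fin n) ℂ ⧸ P) K L :=
        IsScalarTower.of_algebraMap_eq fun c => rfl
      have t3 : IsScalarTower ℂ (MvPolynomial (Fin n ⊕ Fin n) ℂ ⧸ P) L := by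
        refine IsScalarTower.of_algebraMap_eq (R := ℂ)
          (S := MvPolynomial (Fin n ⊕ Fin n) ℂ ⧸ P) (A := L) fun c => ?_
        rw [hmk2, ← IsScalarTower.algebraMap_apply ℂ (MvPolynomial (Fin n ⊕ Fin n) ℂ ⧸ P) K,
          ← IsScalarTower.algebraMap_apply ℂ K L]
      have halg : Algebra.IsAlgebraic (MvPolynomial (Fin n ⊕ Fin n) ℂ ⧸ P) L :=
        (IsFractionRing.comap_isAlgebraic_iff (K := K)).2 inferInstance
      have hle : ∀ a ∈ P, (Ideal.Quotient.mk P').comp (φ : _ →+* _) a = 0 := by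
        intro a ha
        rw [RingHom.comp_apply, Ideal.Quotient.eq_zero_iff_mem, hP']
        change Φ (φ a) = 0
        rw [hΦφ, (hq0 a).2 ha, map_zero]
      rw [isog_trdeg (A := MvPolynomial (Fin n ⊕ Fin n) ℂ ⧸ P)
        (B := MvPolynomial (Fin n ⊕ Fin n) ℂ ⧸ P') (L := L) ?_ ?_
        (Ideal.Quotient.lift P ((Ideal.Quotient.mk P').comp (φ : _ →+* _)) hle) ?_ halg, hD.hdim]
      · exact (algebraMap K L).injective.comp (IsFractionRing.injective _ K)
      · exact RingHom.kerLift_injective _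
      · intro a
        obtain ⟨f, rfl⟩ := Ideal.Quotient.mk_surjective a
        rw [Ideal.Quotient.lift_mk, hmk2, ← hq, ← hΦφ]
        rfl
    · intro h
      have h1 := hτσ F
      rw [show σ F = 0 from h, map_zero] at h1
      exact hD.hF0 h1.symm
    · intro f
      rw [hP', hΦr, map_eq_zero_iff _ (algebraMap K L).injective, hq0, hD.hF, hdvd]
      exact Iff.rfl
    · intro f
      rw [hw', Valuation.zero_iff, hP']
    · intro f hf
      rw [hw', hΦr, hu', hu, hD.hwx _ (fun h => hf ((hdvd f).1 h)), one_pow]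
    · intro j
      rw [hw', hΦX, hv'1]
  · intro hDen h hh
    have h1 : φ h ∉ P' := by
      rw [hP', hΦφ, map_eq_zero_iff _ (algebraMap K L).injective, hq0]
      exact hh
    obtain ⟨z, hz1, hz2⟩ := hDen _ h1
    have hev : ∀ f, eval (Sum.elim z fun j => Complex.exp (z j)) (φ f) =
        eval (Sum.elim (fun j => (d j : ℂ) * z j) fun j => Complex.exp ((d j : ℂ) * z j)) f := by
      have h2 : (aeval (R := ℂ) (Sum.elim z fun j => Complex.exp (z j))).comp φ =
          aeval (Sum.elim (fun j => (d j : ℂ) * z j) fun j => Complex.exp ((d j : ℂ) * z j)) := by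
        apply MvPolynomial.algHom_ext
        rintro (j | j)
        · simp [φ]
        · simp only [φ, AlgHom.comp_apply, aeval_X, Sum.elim_inr, map_pow]
          rw [← Complex.exp_nat_mul]
      exact fun f => DFunLike.congr_fun h2 f
    refine ⟨fun j => (d j : ℂ) * z j, fun f hf => ?_, ?_⟩
    · rw [← hev]
      apply hz1
      rw [hP', hΦφ, (hq0 f).2 hf, map_zero]
    · rw [← hev]
      exact hz2

theorem isog {n : ℕ} (P : Ideal (MvPolynomial (Fin n ⊕ Fin n) ℂ)) (F : MvPolynomial (Fin n) ℂ)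
    (w : Valuation (MvPolynomial (Fin n ⊕ Fin n) ℂ) (WithZero (Multiplicative ℤ)))
    (v : Fin n → ℤ) (hD : Dat P F w v) (d : Fin n → ℕ) (hd : ∀ j, 1 ≤ d j) :
    ∃ (P' : Ideal (MvPolynomial (Fin n ⊕ Fin n) ℂ))
      (w' : Valuation (MvPolynomial (Fin n ⊕ Fin n) ℂ) (WithZero (Multiplicative ℤ)))
      (v' : Fin n → ℤ) (e : ℕ), 1 ≤ e ∧ (∀ j, (d j : ℤ) * v' j = e * v j) ∧
      Dat P' (aeval (fun j => C (d j : ℂ) * X j : Fin n → MvPolynomial (Fin n) ℂ) F) w' v' ∧
      (Dense P' → Dense P) := by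
  have hPp := hD.hP
  let A := MvPolynomial (Fin n ⊕ Fin n) ℂ ⧸ P
  let K := FractionRing A
  let q : MvPolynomial (Fin n ⊕ Fin n) ℂ →ₐ[ℂ] K :=
    (IsScalarTower.toAlgHom ℂ A K).comp (Ideal.Quotient.mkₐ ℂ P)
  obtain ⟨u, hu⟩ := isog_val (K := K) P w hD.hw
  obtain ⟨L, _, _, _, η, hη⟩ := isog_roots (fun j => q (X (Sum.inr j))) d hd
  have : CharZero K := charZero_of_injective_algebraMap (algebraMap ℂ K).injective
  obtain ⟨u', e, he, hu'⟩ := val_ext (L := L) u
  let _ : Algebra ℂ L := ((algebraMap K L).comp (algebraMap ℂ K)).toAlgebra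
  have : IsScalarTower ℂ K L := IsScalarTower.of_algebraMap_eq fun _ => rfl
  obtain ⟨P', w', v', h1, h2, h3⟩ := isog_aux P F w v hD d hd q (fun f => rfl) η hη u hu u' e hu'
  exact ⟨P', w', v', e, he, h1, h2, h3⟩

end Pool.Agent.EXV
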