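import Mathlib

/-!
# EXV / NormV: normal form of the order vector under matrices acting on the first `N` coordinates

PROOF.  Smith normal form of the submodule of `ℤ^N` spanned by `(v_0, .., v_(N-1))`: a basis `b` of `ℤ^N` with this vector a multiple of `b 0`;
extended by the identity on the coordinates `j ≥ N`. (`U'` is the inverse.)
-/

set_option autoImplicit false

namespace Pool.Agent.EXV

open Matrix

private theorem norm_aux {m : ℕ} (w : Fin (m + 1) → ℤ) (hw : w ≠ 0) :
    ∃ (g : ℕ) (U U' : Matrix (Fin (m + 1)) (Fin (m + 1)) ℤ), 1 ≤ g ∧ U * U' = 1 ∧ U' * U = 1 ∧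
      ∀ i : Fin (m + 1), ∑ j, U i j * w j = if i = 0 then (g : ℤ) else 0 := by
  classical
  obtain ⟨k, S⟩ := Submodule.smithNormalForm (Pi.basisFun ℤ (Fin (m + 1)))
    (Submodule.span ℤ {w})
  have hk : k = 1 := by
    have h1 : Module.finrank ℤ (Submodule.span ℤ {w}) = 1 := by
      rw [← (LinearEquiv.toSpanNonzeroSingleton ℤ _ w hw).finrank_eq, Module.finrank_self]
    have h2 := Module.finrank_eq_card_basis S.bN
    rw [Fintype.card_fin] at h2
    omega
  subst hk
  have haN : w ∈ Submodule.span ℤ {w} := Submodule.mem_span_singleton_self w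
  obtain ⟨c, hc⟩ : ∃ c : ℤ, w = c • ((S.bN 0 : Submodule.span ℤ {w}) : Fin (m + 1) → ℤ) := by
    refine ⟨S.bN.repr ⟨w, haN⟩ 0, ?_⟩
    have h := congrArg Subtype.val (S.bN.sum_repr ⟨w, haN⟩)
    rw [Fin.sum_univ_one] at h
    exact h.symm
  rw [S.snf 0, smul_smul] at hc
  set b := S.bM.reindex (Equiv.swap (S.f 0) 0) with hb
  have hb0 : b 0 = S.bM (S.f 0) := by
    rw [hb, Module.Basis.reindex_apply, Equiv.symm_swap, Equiv.swap_apply_right]
  rw [← hb0] at hc
  set c' : ℤ := c * S.a 0 with hc'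
  have hc0 : c' ≠ 0 := by
    intro h0
    rw [h0, zero_smul] at hc
    exact hw hc
  set B : Matrix (Fin (m + 1)) (Fin (m + 1)) ℤ := b.toMatrix (Pi.basisFun ℤ (Fin (m + 1))) with hB
  set B' : Matrix (Fin (m + 1)) (Fin (m + 1)) ℤ := (Pi.basisFun ℤ (Fin (m + 1))).toMatrix b
    with hB'
  have h1 : B * B' = 1 := Module.Basis.toMatrix_mul_toMatrix_flip _ _
  have h2 : B' * B = 1 := mul_eq_one_comm.1 h1
  have h3 : B *ᵥ w = c' • Pi.single 0 1 := by
    have h4 : w = B' *ᵥ (c' • Pi.single 0 1) := by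
      rw [mulVec_smul]
      conv_lhs => rw [hc]
      congr 1
      funext i
      rw [mulVec_single_one]
      rw [hB', Matrix.col_apply, Module.Basis.toMatrix_apply]
      simp
    rw [h4, mulVec_mulVec, h1, one_mulVec]
  have h5 : c'.sign * c'.sign = 1 := by
    rcases lt_trichotomy c' 0 with h | h | h
    · rw [Int.sign_eq_neg_one_of_neg h]; norm_num
    · exact absurd h hc0
    · rw [Int.sign_eq_one_of_pos h]; norm_num
  refine ⟨c'.natAbs, c'.sign • B, c'.sign • B', ?_, ?_, ?_, ?_⟩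
  · exact Int.natAbs_pos.2 hc0
  · rw [smul_mul_smul_comm, h1, h5, one_smul]
  · rw [smul_mul_smul_comm, h2, h5, one_smul]
  · intro i
    have h6 := congrFun h3 i
    have h7 : ∑ j, (c'.sign • B) i j * w j = c'.sign * (B *ᵥ w) i := by
      simp only [Matrix.smul_apply, smul_eq_mul, mulVec, dotProduct, Finset.mul_sum, mul_assoc]
    rw [h7, h6, Pi.smul_apply, smul_eq_mul]
    by_cases hi : i = 0
    · subst hi
      rw [Pi.single_eq_same, mul_one, if_pos rfl, Int.sign_mul_self_eq_natAbs]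
    · rw [Pi.single_eq_of_ne hi, mul_zero, mul_zero, if_neg hi]

theorem norm_v {n N : ℕ} (hN : N ≤ n) (hN0 : 0 < N) (v : Fin n → ℤ)
    (hv : ∃ l : Fin N, v (Fin.castLE hN l) ≠ 0) :
    ∃ (g : ℕ) (U U' : Matrix (Fin n) (Fin n) ℤ), 1 ≤ g ∧ U * U' = 1 ∧ U' * U = 1 ∧
      (∀ i j : Fin n, (i : ℕ) < N → N ≤ (j : ℕ) → U i j = 0 ∧ U' i j = 0) ∧
      ∀ i : Fin n, ∑ j, U i j * v j =
        if (i : ℕ) = 0 then (g : ℤ) else if (i : ℕ) < N then 0 else v i := by
  classical
  obtain ⟨k, rfl⟩ := Nat.exists_eq_add_of_le hN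
  obtain ⟨m, rfl⟩ : ∃ m, N = m + 1 := ⟨N - 1, by omega⟩
  obtain ⟨l, hl⟩ := hv
  obtain ⟨g, U, U', hg, h1, h2, h3⟩ := norm_aux (fun l => v (Fin.castAdd k l)) (fun h => hl
    (congrFun h l))
  set e := (finSumFinEquiv : Fin (m + 1) ⊕ Fin k ≃ Fin (m + 1 + k)).symm with he
  have hel : ∀ i : Fin (m + 1), e (Fin.castAdd k i) = Sum.inl i := fun i => by simp [he]
  have her : ∀ i : Fin k, e (Fin.natAdd (m + 1) i) = Sum.inr i := fun i => by simp [he]
  refine ⟨g, (fromBlocks U 0 0 1).submatrix e e, (fromBlocks U' 0 0 1).submatrix e e, hg,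
    ?_, ?_, ?_, ?_⟩
  · rw [submatrix_mul_equiv, fromBlocks_multiply]
    simp [h1]
  · rw [submatrix_mul_equiv, fromBlocks_multiply]
    simp [h2]
  · intro i j hi hj
    revert hi hj
    refine Fin.addCases (fun i => ?_) (fun i => ?_) i
    · refine Fin.addCases (fun j => ?_) (fun j => ?_) j
      · intro _ hj
        exfalso
        have := j.2
        rw [Fin.val_castAdd] at hj
        omega
      · intro _ _
        rw [submatrix_apply, submatrix_apply, hel, her]
        exact ⟨rfl, rfl⟩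
    · intro hi _
      exfalso
      rw [Fin.val_natAdd] at hi
      omega
  · intro i
    rw [Fin.sum_univ_add]
    refine Fin.addCases (fun i => ?_) (fun i => ?_) i
    · have h4 : ∀ j, (fromBlocks U 0 0 (1 : Matrix (Fin k) (Fin k) ℤ)).submatrix e e
          (Fin.castAdd k i) (Fin.castAdd k j) = U i j := by
        intro j
        rw [submatrix_apply, hel, hel]
        rfl
      have h5 : ∀ j, (fromBlocks U 0 0 (1 : Matrix (Fin k) (Fin k) ℤ)).submatrix e e
          (Fin.castAdd k i) (Fin.natAdd (m + 1) j) = 0 := by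
        intro j
        rw [submatrix_apply, hel, her]
        rfl
      simp_rw [h4, h5, zero_mul]
      rw [Finset.sum_const_zero, add_zero, h3 i, Fin.val_castAdd, if_pos i.2 (c := (i : ℕ) < m + 1)]
      by_cases hi : i = 0
      · subst hi
        simp
      · have : (i : ℕ) ≠ 0 := fun h => hi (Fin.ext h)
        rw [if_neg hi, if_neg this]
    · have h4 : ∀ j, (fromBlocks U 0 0 (1 : Matrix (Fin k) (Fin k) ℤ)).submatrix e e
          (Fin.natAdd (m + 1) i) (Fin.castAdd k j) = 0 := by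
        intro j
        rw [submatrix_apply, her, hel]
        rfl
      have h5 : ∀ j, (fromBlocks U 0 0 (1 : Matrix (Fin k) (Fin k) ℤ)).submatrix e e
          (Fin.natAdd (m + 1) i) (Fin.natAdd (m + 1) j) = (1 : Matrix (Fin k) (Fin k) ℤ) i j := by
        intro j
        rw [submatrix_apply, her, her]
        rfl
      simp_rw [h4, h5, zero_mul]
      rw [Finset.sum_const_zero, zero_add, Finset.sum_eq_single i]
      · rw [one_apply_eq, one_mul, Fin.val_natAdd, if_neg (by omega), if_neg (by omega)]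
      · intro j _ hj
        rw [one_apply_ne (Ne.symm hj), zero_mul]
      · intro h
        exact absurd (Finset.mem_univ i) h

end Pool.Agent.EXV
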