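import Pool.Agent.EXV.MainAd
import Pool.Agent.EXV.Isog
import Pool.Agent.EXV.NormV
import Pool.Agent.EXZ.FinZ

/-!
# EXV / FinV: Theorem V

PROOF.  `G` is homogeneous (`EXP.homog_of_mul`, `L = G * (G ^ (a0 - 1) * R)`). `adapted` (EXZ/Lat): `B, B'`, `N`; `change_vars` (EXZ/ChV); `norm_v` and `change_vars`;
`isog` with `d_l = g` for `l < N`, `1` otherwise: new `v` is `e (1, 0, .., 0, v_N, ..)`; shear `B_s x = x - ∑_(j ≥ N) v_j x_0 e_j` and `change_vars`: `v = e e_0`.
`F, G, R` are substituted by linear automorphisms throughout (private lemmas `sub`, .. of EXZ/FinZ: copy); `G` stays in the first `N` variables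
(`G'` is changed by a linear automorphism of `ℚ^N`: an integer period `u ≠ 0` of the new `G'` would give the integer period `(det or g) * M u` of the old
one, for the isogeny: `G''(x) = G'(g x)`: `G''(x + u) = G'(g x + g u)`). `mainAd`.
-/

set_option autoImplicit false

namespace Pool.Agent.EXV

open MvPolynomial

/-- the linear substitution `x ↦ M x` -/
private noncomputable def sub {n : ℕ} (M : Matrix (Fin n) (Fin n) ℂ) :
    MvPolynomial (Fin n) ℂ →ₐ[ℂ] MvPolynomial (Fin n) ℂ :=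
  aeval (fun i => ∑ j, M i j • (X j : MvPolynomial (Fin n) ℂ))

private theorem sub_X {n : ℕ} (M : Matrix (Fin n) (Fin n) ℂ) (i : Fin n) :
    sub M (X i) = ∑ j, M i j • (X j : MvPolynomial (Fin n) ℂ) := by
  unfold sub
  rw [aeval_X]

private theorem sub_sub {n : ℕ} (A B : Matrix (Fin n) (Fin n) ℂ) (h : B * A = 1)
    (p : MvPolynomial (Fin n) ℂ) : sub A (sub B p) = p := by
  have h1 : (sub A).comp (sub B) = AlgHom.id ℂ _ := by
    refine MvPolynomial.algHom_ext fun i => ?_
    rw [AlgHom.comp_apply, sub_X, map_sum, AlgHom.id_apply]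
    simp only [map_smul, sub_X, Finset.smul_sum, smul_smul]
    rw [Finset.sum_comm]
    simp only [← Finset.sum_smul]
    have h2 : ∀ l, (∑ j, B i j * A j l) = if i = l then 1 else 0 := by
      intro l
      have h3 := congrFun (congrFun h i) l
      rw [Matrix.mul_apply, Matrix.one_apply] at h3
      exact h3
    simp only [h2]
    simp
  exact congrArg (fun f : MvPolynomial (Fin n) ℂ →ₐ[ℂ] MvPolynomial (Fin n) ℂ => f p) h1

private theorem sub_eval {n : ℕ} (M : Matrix (Fin n) (Fin n) ℂ) (p : MvPolynomial (Fin n) ℂ)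
    (y : Fin n → ℂ) : eval y (sub M p) = eval (M.mulVec y) p := by
  have h : (eval y).comp (sub M).toRingHom = eval (M.mulVec y) := by
    refine MvPolynomial.ringHom_ext ?_ ?_
    · intro r
      simp only [RingHom.comp_apply, AlgHom.toRingHom_eq_coe, RingHom.coe_coe, algHom_C, eval_C]
      rw [algebraMap_eq, eval_C]
    · intro i
      simp only [RingHom.comp_apply, AlgHom.toRingHom_eq_coe, RingHom.coe_coe, sub_X, eval_X,
        map_sum, smul_eval]
      rfl
  exact congrArg (fun f : MvPolynomial (Fin n) ℂ →+* ℂ => f p) h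

private theorem sub_hom {n r : ℕ} (M : Matrix (Fin n) (Fin n) ℂ) {p : MvPolynomial (Fin n) ℂ}
    (hp : p.IsHomogeneous r) : (sub M p).IsHomogeneous r := by
  have h := hp.aeval (fun i => ∑ j, M i j • (X j : MvPolynomial (Fin n) ℂ)) (n := 1)
    fun i => IsHomogeneous.sum _ _ _ fun j _ => by
      rw [smul_eq_C_mul]
      exact IsHomogeneous.C_mul (isHomogeneous_X _ _) _
  rwa [one_mul] at h

private theorem sub_deg {n : ℕ} (M : Matrix (Fin n) (Fin n) ℂ) (p : MvPolynomial (Fin n) ℂ) :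
    (sub M p).totalDegree ≤ p.totalDegree := by
  conv_lhs => rw [← sum_homogeneousComponent p, map_sum]
  refine totalDegree_finsetSum_le fun i hi => ?_
  refine (sub_hom M (homogeneousComponent_isHomogeneous i p)).totalDegree_le.trans ?_
  rw [Finset.mem_range] at hi
  omega

private theorem sub_comp {n : ℕ} (M : Matrix (Fin n) (Fin n) ℂ) (p : MvPolynomial (Fin n) ℂ)
    (d : ℕ) : sub M (homogeneousComponent d p) = homogeneousComponent d (sub M p) := by
  classical
  conv_rhs => rw [← sum_homogeneousComponent p, map_sum, map_sum]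
  have h1 : ∀ i, homogeneousComponent d (sub M (homogeneousComponent i p))
      = if d = i then sub M (homogeneousComponent i p) else 0 := fun i =>
    homogeneousComponent_of_mem (sub_hom M (homogeneousComponent_isHomogeneous i p))
  simp only [h1]
  rw [Finset.sum_ite_eq]
  split_ifs with h2
  · rfl
  · rw [Finset.mem_range, not_lt] at h2
    rw [homogeneousComponent_eq_zero _ _ (by omega), map_zero]

private theorem hcomp_ne {n : ℕ} (p : MvPolynomial (Fin n) ℂ) (hp : p ≠ 0) :
    homogeneousComponent p.totalDegree p ≠ 0 := by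
  have hne : p.support.Nonempty := support_nonempty.2 hp
  obtain ⟨s, hs, hsd⟩ := Finset.exists_mem_eq_sup p.support hne (fun s => s.sum fun _ e => e)
  intro h
  have h1 := congrArg (coeff s) h
  rw [coeff_homogeneousComponent, coeff_zero] at h1
  have h2 : s.degree = p.totalDegree := by
    rw [totalDegree, hsd]
    rfl
  rw [if_pos h2] at h1
  exact (mem_support_iff.1 hs) h1

/-- `G` depends on the first `N` coordinates only -/
private def Dep {n : ℕ} (N : ℕ) (G : MvPolynomial (Fin n) ℂ) : Prop :=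
  ∀ x y : Fin n → ℂ, (∀ l : Fin n, (l : ℕ) < N → x l = y l) → eval x G = eval y G

/-- no integer period which is not zero on the first `N` coordinates -/
private def Per {n : ℕ} (N : ℕ) (G : MvPolynomial (Fin n) ℂ) : Prop :=
  ∀ u : Fin n → ℤ, (∃ l : Fin n, (l : ℕ) < N ∧ u l ≠ 0) →
    ∃ x : Fin n → ℂ, eval (fun j => x j + u j) G ≠ eval x G

/-- the invariant part of the data -/
private structure Gd {n : ℕ} (N : ℕ) (F G : MvPolynomial (Fin n) ℂ) : Prop where
  irr : Irreducible G
  dvd : G ∣ homogeneousComponent F.totalDegree F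
  dep : Dep N G
  per : Per N G

private theorem irr_sub {n : ℕ} (M M' : Matrix (Fin n) (Fin n) ℂ) (h : M * M' = 1)
    (h' : M' * M = 1) {G : MvPolynomial (Fin n) ℂ} (hG : Irreducible G) :
    Irreducible (sub M G) := by
  let E : MvPolynomial (Fin n) ℂ ≃* MvPolynomial (Fin n) ℂ :=
    { toFun := sub M
      invFun := sub M'
      left_inv := sub_sub M' M h
      right_inv := sub_sub M M' h'
      map_mul' := map_mul _ }
  exact (MulEquiv.irreducible_iff E).mpr hG

private theorem dvd_sub {n : ℕ} (M M' : Matrix (Fin n) (Fin n) ℂ) (h : M * M' = 1)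
    {F G : MvPolynomial (Fin n) ℂ} (hd : G ∣ homogeneousComponent F.totalDegree F) :
    sub M G ∣ homogeneousComponent (sub M F).totalDegree (sub M F) := by
  have hdeg : (sub M F).totalDegree = F.totalDegree := by
    refine le_antisymm (sub_deg M F) ?_
    have := sub_deg M' (sub M F)
    rwa [sub_sub M' M h] at this
  rw [hdeg, ← sub_comp]
  exact map_dvd _ hd

/-- the step for a matrix which respects the first `N` coordinates; `u ↦ W u` on integer vectors -/
private theorem gd_sub {n N : ℕ} (M M' : Matrix (Fin n) (Fin n) ℂ) (h : M * M' = 1)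
    (h' : M' * M = 1) (hM : ∀ i j : Fin n, (i : ℕ) < N → N ≤ (j : ℕ) → M i j = 0)
    (hW : ∀ u : Fin n → ℤ, (∃ l : Fin n, (l : ℕ) < N ∧ u l ≠ 0) → ∃ u' : Fin n → ℤ,
      (∃ l : Fin n, (l : ℕ) < N ∧ u' l ≠ 0) ∧ M.mulVec (fun j => (u j : ℂ)) = fun j => (u' j : ℂ))
    {F G : MvPolynomial (Fin n) ℂ} (hg : Gd N F G) : Gd N (sub M F) (sub M G) := by
  refine ⟨irr_sub M M' h h' hg.irr, dvd_sub M M' h hg.dvd, ?_, ?_⟩
  · intro x y hxy
    rw [sub_eval, sub_eval]
    refine hg.dep _ _ fun l hl => ?_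
    show ∑ j, M l j * x j = ∑ j, M l j * y j
    refine Finset.sum_congr rfl fun j _ => ?_
    rcases lt_or_ge (j : ℕ) N with hj | hj
    · rw [hxy j hj]
    · rw [hM l j hl hj, zero_mul, zero_mul]
  · intro u hu
    obtain ⟨u', hu', hMu⟩ := hW u hu
    obtain ⟨x, hx⟩ := hg.per u' hu'
    refine ⟨M'.mulVec x, ?_⟩
    rw [sub_eval, sub_eval]
    have e1 : M.mulVec (M'.mulVec x) = x := by
      rw [Matrix.mulVec_mulVec, h, Matrix.one_mulVec]
    have e2 : M.mulVec (fun j => M'.mulVec x j + (u j : ℂ)) = fun j => x j + (u' j : ℂ) := by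
      have e3 : (fun j => M'.mulVec x j + (u j : ℂ)) = M'.mulVec x + fun j => (u j : ℂ) := rfl
      rw [e3, Matrix.mulVec_add, e1, hMu]
      rfl
    rw [e1, e2]
    exact hx

/-- the integer matrix as a complex matrix -/
private def cz {n : ℕ} (B : Matrix (Fin n) (Fin n) ℤ) : Matrix (Fin n) (Fin n) ℂ :=
  fun i j => (B i j : ℂ)

private theorem cz_mul {n : ℕ} (A B : Matrix (Fin n) (Fin n) ℤ) (h : A * B = 1) :
    cz A * cz B = 1 := by
  funext i j
  have h1 := congrFun (congrFun h i) j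
  rw [Matrix.mul_apply, Matrix.one_apply] at h1
  rw [Matrix.mul_apply, Matrix.one_apply]
  have h2 := congrArg (fun z : ℤ => (z : ℂ)) h1
  push_cast at h2
  exact h2

private theorem gd_mat {n N : ℕ} (B B' : Matrix (Fin n) (Fin n) ℤ) (h : B * B' = 1)
    (h' : B' * B = 1) (hM : ∀ i j : Fin n, (i : ℕ) < N → N ≤ (j : ℕ) → B i j = 0 ∧ B' i j = 0)
    {F G : MvPolynomial (Fin n) ℂ} (hg : Gd N F G) : Gd N (sub (cz B') F) (sub (cz B') G) := by
  refine gd_sub (cz B') (cz B) (cz_mul _ _ h') (cz_mul _ _ h) ?_ ?_ hg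
  · intro i j hi hj
    show ((B' i j : ℤ) : ℂ) = 0
    rw [(hM i j hi hj).2, Int.cast_zero]
  · intro u hu
    refine ⟨B'.mulVec u, ?_, ?_⟩
    · by_contra hno
      push Not at hno
      obtain ⟨l, hl, hul⟩ := hu
      apply hul
      have h1 : u = B.mulVec (B'.mulVec u) := by
        rw [Matrix.mulVec_mulVec, h, Matrix.one_mulVec]
      rw [h1]
      show ∑ j, B l j * B'.mulVec u j = 0
      refine Finset.sum_eq_zero fun j _ => ?_
      rcases lt_or_ge (j : ℕ) N with hj | hj
      · rw [hno j hj, mul_zero]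
      · rw [(hM l j hl hj).1, zero_mul]
    · funext i
      show ∑ j, ((B' i j : ℤ) : ℂ) * (u j : ℂ) = ((∑ j, B' i j * u j : ℤ) : ℂ)
      push_cast
      rfl

private theorem gd_diag {n N : ℕ} (d : Fin n → ℕ) (hd : ∀ j, 1 ≤ d j)
    {F G : MvPolynomial (Fin n) ℂ} (hg : Gd N F G) :
    Gd N (sub (Matrix.diagonal fun j => (d j : ℂ)) F) (sub (Matrix.diagonal fun j => (d j : ℂ)) G) := by
  have hd0 : ∀ j, (d j : ℂ) ≠ 0 := fun j => by
    have := hd j
    exact_mod_cast (show d j ≠ 0 by omega)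
  refine gd_sub _ (Matrix.diagonal fun j => (d j : ℂ)⁻¹) ?_ ?_ ?_ ?_ hg
  · rw [Matrix.diagonal_mul_diagonal]
    simp only [mul_inv_cancel₀ (hd0 _)]
    exact Matrix.diagonal_one
  · rw [Matrix.diagonal_mul_diagonal]
    simp only [inv_mul_cancel₀ (hd0 _)]
    exact Matrix.diagonal_one
  · intro i j hi hj
    refine Matrix.diagonal_apply_ne _ fun h => ?_
    rw [h] at hi
    omega
  · intro u hu
    obtain ⟨l, hl, hul⟩ := hu
    refine ⟨fun j => (d j : ℤ) * u j, ⟨l, hl, mul_ne_zero ?_ hul⟩, ?_⟩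
    · have := hd l
      omega
    · funext i
      rw [Matrix.mulVec_diagonal]
      push_cast
      rfl

private theorem sub_diag {n : ℕ} (d : Fin n → ℕ) (F : MvPolynomial (Fin n) ℂ) :
    aeval (fun j => C (d j : ℂ) * X j : Fin n → MvPolynomial (Fin n) ℂ) F =
      sub (Matrix.diagonal fun j => (d j : ℂ)) F := by
  unfold sub
  congr 2
  funext i
  rw [Finset.sum_eq_single i]
  · rw [Matrix.diagonal_apply_eq, smul_eq_C_mul]
  · intro j _ hj
    rw [Matrix.diagonal_apply_ne _ (Ne.symm hj), zero_smul]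
  · intro h
    exact absurd (Finset.mem_univ i) h

private theorem step {n : ℕ} (B B' : Matrix (Fin n) (Fin n) ℤ) (hBB' : B * B' = 1)
    {P : Ideal (MvPolynomial (Fin n ⊕ Fin n) ℂ)} {F : MvPolynomial (Fin n) ℂ}
    {w : Valuation (MvPolynomial (Fin n ⊕ Fin n) ℂ) (WithZero (Multiplicative ℤ))}
    {v : Fin n → ℤ} (hD : Dat P F w v) :
    ∃ (P' : Ideal (MvPolynomial (Fin n ⊕ Fin n) ℂ))
      (w' : Valuation (MvPolynomial (Fin n ⊕ Fin n) ℂ) (WithZero (Multiplicative ℤ))),
      Dat P' (sub (cz B') F) w' (fun i => ∑ j, B i j * v j) ∧ (Dense P' → Dense P) := by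
  have hB'B : B' * B = 1 := mul_eq_one_comm.mp hBB'
  obtain ⟨P', w', hP', hY', hdim', hF', hw', hwx', hwv', hback⟩ :=
    EXZ.change_vars B B' hBB' P hD.hP hD.hY hD.hdim F hD.hF w hD.hw hD.hwx v hD.hwv
  refine ⟨P', w', ⟨hP', hY', hdim', ?_, hF', hw', hwx', hwv'⟩, fun h => hback h⟩
  intro h0
  apply hD.hF0
  rw [← sub_sub (cz B) (cz B') (cz_mul _ _ hB'B) F, h0, map_zero]

/-- a polynomial in the first `N` coordinates -/
private theorem dep_rename {n N : ℕ} (hN : N ≤ n) {G : MvPolynomial (Fin n) ℂ} (hG : Dep N G) :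
    ∃ G' : MvPolynomial (Fin N) ℂ, G = rename (Fin.castLE hN) G' := by
  classical
  refine ⟨aeval (fun j : Fin n => if h : (j : ℕ) < N then
    (X ⟨j, h⟩ : MvPolynomial (Fin N) ℂ) else 0) G, ?_⟩
  apply MvPolynomial.funext
  intro x
  have h1 : ((eval x).comp ((rename (Fin.castLE hN)).toRingHom.comp
      (aeval (fun j : Fin n => if h : (j : ℕ) < N then
    (X ⟨j, h⟩ : MvPolynomial (Fin N) ℂ) else 0)).toRingHom)) =
      (eval (fun j : Fin n => if (j : ℕ) < N then x j else 0) : MvPolynomial (Fin n) ℂ →+* ℂ) := by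
    refine MvPolynomial.ringHom_ext ?_ ?_
    · intro r
      simp [algebraMap_eq]
    · intro j
      by_cases hj : (j : ℕ) < N
      · simp only [RingHom.comp_apply, AlgHom.toRingHom_eq_coe, RingHom.coe_coe, aeval_X,
          dif_pos hj, rename_X, eval_X, if_pos hj]
        rfl
      · simp only [RingHom.comp_apply, AlgHom.toRingHom_eq_coe, RingHom.coe_coe, aeval_X,
          dif_neg hj, map_zero, eval_X, if_neg hj]
  have h2 := congrArg (fun f : MvPolynomial (Fin n) ℂ →+* ℂ => f G) h1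
  have h3 : eval x G = eval (fun j : Fin n => if (j : ℕ) < N then x j else 0) G := by
    refine hG _ _ fun l hl => ?_
    rw [if_pos hl]
  rw [h3]
  exact h2.symm

theorem mainV {n : ℕ} (P : Ideal (MvPolynomial (Fin n ⊕ Fin n) ℂ)) (F : MvPolynomial (Fin n) ℂ)
    (w : Valuation (MvPolynomial (Fin n ⊕ Fin n) ℂ) (WithZero (Multiplicative ℤ)))
    (v : Fin n → ℤ) (hD : Dat P F w v)
    (G : MvPolynomial (Fin n) ℂ) (hG : Irreducible G)
    (hL : G ∣ homogeneousComponent F.totalDegree F)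
    (hlin : ∀ (e : ℂ) (a : Fin n → ℤ), G ≠ C e * ∑ j, (a j : ℂ) • (X j : MvPolynomial (Fin n) ℂ))
    (hv : ∃ x : Fin n → ℂ, eval (fun j => x j + v j) G ≠ eval x G) :
    Dense P := by
  classical
  have hL0 := hcomp_ne F hD.hF0
  obtain ⟨Q, hQ⟩ := hL
  obtain ⟨r, hGh⟩ := EXP.homog_of_mul _ G Q hL0 (homogeneousComponent_isHomogeneous _ F) hQ
  obtain ⟨N, hN, B, B', G', h2N, hBB', hGG', hper⟩ := EXZ.adapted G r hGh hG hlin
  obtain ⟨m, rfl⟩ : ∃ m, n = m + 1 := ⟨n - 1, by omega⟩
  have hB'B : B' * B = 1 := mul_eq_one_comm.mp hBB'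
  -- adapted coordinates
  obtain ⟨P1, w1, hD1, hb1⟩ := step B B' hBB' hD
  have hG1 : sub (cz B') G = rename (Fin.castLE hN) G' := hGG'
  have hGd1 : Gd N (sub (cz B') F) (sub (cz B') G) := by
    refine ⟨irr_sub _ _ (cz_mul _ _ hB'B) (cz_mul _ _ hBB') hG,
      dvd_sub _ _ (cz_mul _ _ hB'B) ⟨Q, hQ⟩, ?_, ?_⟩
    · intro x y hxy
      rw [hG1, eval_rename, eval_rename]
      congr 1
      congr 1
      funext l
      exact hxy _ l.2
    · intro u hu
      obtain ⟨l, hl, hul⟩ := hu
      obtain ⟨x, hx⟩ := hper (fun i => u (Fin.castLE hN i)) (by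
        intro h0
        apply hul
        have h1 := congrFun h0 ⟨l, hl⟩
        exact h1)
      refine ⟨fun j => if h : (j : ℕ) < N then x ⟨j, h⟩ else 0, ?_⟩
      rw [hG1, eval_rename, eval_rename]
      have e1 : (fun j : Fin (m + 1) => (if h : (j : ℕ) < N then x ⟨j, h⟩ else 0) + (u j : ℂ)) ∘
          Fin.castLE hN = fun i => x i + (u (Fin.castLE hN i) : ℂ) := by
        funext i
        have hi : ((Fin.castLE hN i : Fin (m + 1)) : ℕ) < N := i.2
        simp only [Function.comp_apply, dif_pos hi]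
        rfl
      have e2 : (fun j : Fin (m + 1) => (if h : (j : ℕ) < N then x ⟨j, h⟩ else 0)) ∘
          Fin.castLE hN = x := by
        funext i
        have hi : ((Fin.castLE hN i : Fin (m + 1)) : ℕ) < N := i.2
        simp only [Function.comp_apply, dif_pos hi]
        rfl
      rw [e1, e2]
      exact hx
  -- the order vector is not zero on the first coordinates
  have hv1 : ∃ l : Fin N, (fun i => ∑ j, B i j * v j) (Fin.castLE hN l) ≠ 0 := by
    by_contra hno
    push Not at hno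
    obtain ⟨x, hx⟩ := hv
    apply hx
    have hev : ∀ y : Fin (m + 1) → ℂ, eval y G = eval ((cz B).mulVec y) (sub (cz B') G) := by
      intro y
      rw [← sub_eval, sub_sub (cz B) (cz B') (cz_mul _ _ hB'B)]
    rw [hev, hev]
    refine hGd1.dep _ _ fun l hl => ?_
    have h1 := hno ⟨l, hl⟩
    have h2 : (∑ j, (B l j : ℂ) * (v j : ℂ)) = 0 := by
      have h3 : ∑ j, B l j * v j = 0 := h1
      exact_mod_cast h3
    show ∑ j, (B l j : ℂ) * (x j + v j) = ∑ j, (B l j : ℂ) * x j
    simp only [mul_add, Finset.sum_add_distrib]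
    rw [h2, add_zero]
  -- normal form of the order vector
  obtain ⟨g, U, U', hg, hUU', hU'U, hbl, hUv⟩ := norm_v hN (by omega)
    (fun i => ∑ j, B i j * v j) hv1
  obtain ⟨P2, w2, hD2, hb2⟩ := step U U' hUU' hD1
  have hGd2 := gd_mat U U' hUU' hU'U hbl hGd1
  -- isogeny
  obtain ⟨P3, w3, v3, e, he, hdv, hD3, hb3⟩ := isog P2 _ w2 _ hD2
    (fun j => if (j : ℕ) < N then g else 1) (fun j => by
      show 1 ≤ if (j : ℕ) < N then g else 1
      split_ifs
      · exact hg
      · exact le_rfl)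
  rw [sub_diag] at hD3
  have hGd3 := gd_diag (N := N) (fun j : Fin (m + 1) => if (j : ℕ) < N then g else 1) (fun j => by
      show 1 ≤ if (j : ℕ) < N then g else 1
      split_ifs
      · exact hg
      · exact le_rfl) hGd2
  obtain ⟨v2, hv2⟩ : ∃ v2 : Fin (m + 1) → ℤ,
      v2 = fun i => ∑ j, U i j * ∑ j', B j j' * v j' := ⟨_, rfl⟩
  have hUv' : ∀ i : Fin (m + 1), v2 i = if (i : ℕ) = 0 then (g : ℤ) else
      if (i : ℕ) < N then 0 else ∑ j, B i j * v j := fun i => by rw [hv2]; exact hUv i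
  have hdv' : ∀ j : Fin (m + 1), ((if (j : ℕ) < N then g else 1 : ℕ) : ℤ) * v3 j = e * v2 j :=
    fun j => by rw [hv2]; exact hdv j
  have hg0 : (g : ℤ) ≠ 0 := by omega
  have hv30 : v3 0 = e := by
    have e0 : ((0 : Fin (m + 1)) : ℕ) = 0 := rfl
    have h1 := hdv' 0
    have h3 := hUv' 0
    rw [if_pos e0] at h3
    rw [h3, if_pos (show ((0 : Fin (m + 1)) : ℕ) < N by rw [e0]; omega)] at h1
    have h2 : (g : ℤ) * v3 0 = g * e := by rw [h1]; ring
    exact mul_left_cancel₀ hg0 h2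
  have hv3l : ∀ j : Fin (m + 1), (j : ℕ) ≠ 0 → (j : ℕ) < N → v3 j = 0 := by
    intro j hj0 hj
    have h1 := hdv' j
    have h3 := hUv' j
    rw [if_neg hj0, if_pos hj] at h3
    rw [h3, if_pos hj, mul_zero] at h1
    exact (mul_eq_zero.mp h1).resolve_left hg0
  have hv3r : ∀ j : Fin (m + 1), N ≤ (j : ℕ) → v3 j = e * v2 j := by
    intro j hj
    have h1 := hdv' j
    rw [if_neg (by omega)] at h1
    push_cast at h1
    rw [one_mul] at h1
    exact h1
  -- shear
  obtain ⟨sh, hshd⟩ : ∃ sh : ℤ → Matrix (Fin (m + 1)) (Fin (m + 1)) ℤ, ∀ t i j,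
      sh t i j = (if i = j then 1 else 0) + if N ≤ (i : ℕ) ∧ j = 0 then t * v2 i else 0 :=
    ⟨fun t => Matrix.of fun i j =>
      (if i = j then 1 else 0) + if N ≤ (i : ℕ) ∧ j = 0 then t * v2 i else 0, fun _ _ _ => rfl⟩
  have hsh : ∀ t : ℤ, ∀ x : Fin (m + 1) → ℤ, ∀ i, ∑ j, sh t i j * x j =
      x i + if N ≤ (i : ℕ) then t * v2 i * x 0 else 0 := by
    intro t x i
    simp only [hshd, add_mul, Finset.sum_add_distrib, ite_mul, zero_mul, one_mul]
    congr 1
    · rw [Finset.sum_ite_eq]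
      simp
    · by_cases hi : N ≤ (i : ℕ)
      · simp [hi]
      · simp [hi]
  have h0N : ¬ N ≤ ((0 : Fin (m + 1)) : ℕ) := by
    have e0 : ((0 : Fin (m + 1)) : ℕ) = 0 := rfl
    rw [e0]
    omega
  have hshm : ∀ t : ℤ, sh t * sh (-t) = 1 := by
    intro t
    apply Matrix.ext
    intro i j
    rw [Matrix.mul_apply, hsh t (fun l => sh (-t) l j) i, Matrix.one_apply]
    show sh (-t) i j + (if N ≤ (i : ℕ) then t * v2 i * sh (-t) 0 j else 0) = _
    rw [hshd, hshd]
    simp only [h0N, false_and, if_false, add_zero]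
    by_cases hi : N ≤ (i : ℕ)
    · by_cases hj : j = 0
      · subst hj
        simp only [hi, true_and, if_true]
        ring
      · have hj' : (0 : Fin (m + 1)) ≠ j := fun h => hj h.symm
        simp only [hi, hj, hj', and_false, if_false, if_true, mul_zero, add_zero]
    · simp only [hi, false_and, if_false, add_zero]
  obtain ⟨P4, w4, hD4, hb4⟩ := step (sh (-1)) (sh 1) (by
    have := hshm (-1)
    rwa [neg_neg] at this) hD3
  have hGd4 := gd_mat (sh (-1)) (sh 1) (by
    have := hshm (-1)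
    rwa [neg_neg] at this) (by
    have := hshm 1
    exact this) (by
    intro i j hi hj
    have hij : i ≠ j := fun h => by rw [h] at hi; omega
    have h1 : ∀ t : ℤ, sh t i j = 0 := by
      intro t
      rw [hshd, if_neg hij, if_neg (by omega), add_zero]
    exact ⟨h1 _, h1 _⟩) hGd3
  -- the factor and its multiplicity
  have hv4 : ∀ i, (fun i => ∑ j, sh (-1) i j * v3 j) i =
      v3 i + if N ≤ (i : ℕ) then -1 * v2 i * v3 0 else 0 := fun i => hsh (-1) v3 i
  obtain ⟨F4, hF4⟩ : ∃ F4, F4 = sub (cz (sh 1))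
    (sub (Matrix.diagonal fun j : Fin (m + 1) => ((if (j : ℕ) < N then g else 1 : ℕ) : ℂ))
      (sub (cz U') (sub (cz B') F))) := ⟨_, rfl⟩
  obtain ⟨G4, hG4⟩ : ∃ G4, G4 = sub (cz (sh 1))
    (sub (Matrix.diagonal fun j : Fin (m + 1) => ((if (j : ℕ) < N then g else 1 : ℕ) : ℂ))
      (sub (cz U') (sub (cz B') G))) := ⟨_, rfl⟩
  rw [← hF4, ← hG4] at hGd4
  rw [← hF4] at hD4
  have hL4 := hcomp_ne F4 hD4.hF0
  have hfin : FiniteMultiplicity G4 (homogeneousComponent F4.totalDegree F4) :=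
    FiniteMultiplicity.of_not_isUnit hGd4.irr.not_isUnit hL4
  obtain ⟨R, hR, hGR⟩ := hfin.exists_eq_pow_mul_and_not_dvd
  have ha0 : 1 ≤ multiplicity G4 (homogeneousComponent F4.totalDegree F4) := by
    by_contra hno
    have h1 : multiplicity G4 (homogeneousComponent F4.totalDegree F4) = 0 := by omega
    rw [h1, pow_zero, one_mul] at hR
    apply hGR
    rw [← hR]
    exact hGd4.dvd
  obtain ⟨Q4, hQ4⟩ := hGd4.dvd
  obtain ⟨r4, hGh4⟩ := EXP.homog_of_mul _ G4 Q4 hL4 (homogeneousComponent_isHomogeneous _ F4) hQ4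
  obtain ⟨G5, hG5⟩ := dep_rename hN hGd4.dep
  have hfinal : Dense P4 := by
    refine mainAd h2N P4 F4 w4 _ hD4 ?_ ?_ G4 R r4 _ ha0 hR hGh4 hGd4.irr hGR (Fin.castLE hN)
      (Fin.castLE_injective hN) ⟨⟨0, by omega⟩, rfl⟩ G5 hG5 ?_
    · have h1 := hv4 0
      rw [if_neg h0N, hv30, add_zero] at h1
      show 0 < (fun i => ∑ j, sh (-1) i j * v3 j) 0
      rw [h1]
      exact_mod_cast he
    · intro j
      have h1 := hv4 j.succ
      show (fun i => ∑ j, sh (-1) i j * v3 j) j.succ = 0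
      rw [h1]
      rcases lt_or_ge ((j.succ : Fin (m + 1)) : ℕ) N with hj | hj
      · rw [if_neg (by omega), hv3l _ (by simp) hj, add_zero]
      · rw [if_pos hj, hv3r _ hj, hv30]
        ring
    · intro u hu
      obtain ⟨l, hl⟩ : ∃ l, u l ≠ 0 := by
        by_contra hno
        push Not at hno
        exact hu (funext hno)
      obtain ⟨x, hx⟩ := hGd4.per (fun j => if h : (j : ℕ) < N then u ⟨j, h⟩ else 0)
        ⟨Fin.castLE hN l, l.2, by
          have hl' : ((Fin.castLE hN l : Fin (m + 1)) : ℕ) < N := l.2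
          simp only [dif_pos hl']
          exact hl⟩
      refine ⟨fun i => x (Fin.castLE hN i), ?_⟩
      rw [hG5, eval_rename, eval_rename] at hx
      have e1 : (fun j : Fin (m + 1) => x j + ((if h : (j : ℕ) < N then u ⟨j, h⟩ else 0 : ℤ) : ℂ)) ∘
          Fin.castLE hN = fun i => x (Fin.castLE hN i) + (u i : ℂ) := by
        funext i
        have hi : ((Fin.castLE hN i : Fin (m + 1)) : ℕ) < N := i.2
        simp only [Function.comp_apply, dif_pos hi]
        rfl
      rw [e1] at hx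
      exact hx
  exact hb1 (hb2 (hb3 (hb4 hfinal)))

end Pool.Agent.EXV
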