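import Pool.Agent.EXW.PhasesW

/-!
# EXV / PhasesV: the phases, centre `x`, `c` supported in the coordinates `ι`

PROOF.  `EXW.phasesW` (EXW/PhasesW) for the `N` coordinates `ι`; for the other `j`: `κ_j` = the logarithm of `s j exp (ηi j)` with imaginary part
within `π` of `Im x_j`. As `EXZ.phasesZ` from `EXG.phases`.
-/

set_option autoImplicit false

namespace Pool.Agent.EXV

private theorem pv_log (x s η : ℂ) (hs : s ≠ 0) (hη : ‖η‖ ≤ 1) :
    ∃ κ : ℂ, Complex.exp κ = s * Complex.exp η ∧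
      ‖κ - x‖ ≤ |Real.log ‖s‖ - x.re| + (Real.pi + 1) := by
  have hpi := Real.pi_pos
  obtain ⟨m, hm⟩ : ∃ m : ℤ, |s.arg + 2 * Real.pi * m - x.im| ≤ Real.pi := by
    refine ⟨round ((x.im - s.arg) / (2 * Real.pi)), ?_⟩
    have h1 := abs_sub_round ((x.im - s.arg) / (2 * Real.pi))
    have h2 : s.arg + 2 * Real.pi *
        ((round ((x.im - s.arg) / (2 * Real.pi)) : ℤ) : ℝ) - x.im =
        -((2 * Real.pi) * ((x.im - s.arg) / (2 * Real.pi) -
          ((round ((x.im - s.arg) / (2 * Real.pi)) : ℤ) : ℝ))) := by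
      have h3 : (2 * Real.pi) * ((x.im - s.arg) / (2 * Real.pi)) = x.im - s.arg := by
        field_simp
      rw [mul_sub, h3]
      ring
    rw [h2, abs_neg, abs_mul, abs_of_pos (by positivity : 0 < 2 * Real.pi)]
    nlinarith
  refine ⟨Complex.log s + η + (m : ℂ) * (2 * Real.pi * Complex.I), ?_, ?_⟩
  · rw [Complex.exp_add, Complex.exp_add, Complex.exp_log hs,
      Complex.exp_int_mul_two_pi_mul_I, mul_one]
  · have e : Complex.log s + η + (m : ℂ) * (2 * Real.pi * Complex.I) - x =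
        ((Real.log ‖s‖ - x.re : ℝ) : ℂ) +
          ((s.arg + 2 * Real.pi * m - x.im : ℝ) : ℂ) * Complex.I + η := by
      have h0 : x = (x.re : ℂ) + x.im * Complex.I := (Complex.re_add_im _).symm
      conv_lhs => rw [h0]
      unfold Complex.log
      push_cast
      ring
    rw [e]
    have h1 : ‖((Real.log ‖s‖ - x.re : ℝ) : ℂ)‖ = |Real.log ‖s‖ - x.re| := by
      rw [Complex.norm_real, Real.norm_eq_abs]
    have h2 : ‖((s.arg + 2 * Real.pi * m - x.im : ℝ) : ℂ) * Complex.I‖ ≤ Real.pi := by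
      rw [norm_mul, Complex.norm_I, mul_one, Complex.norm_real, Real.norm_eq_abs]
      exact hm
    refine (norm_add_le _ _).trans ?_
    have h6 := norm_add_le ((Real.log ‖s‖ - x.re : ℝ) : ℂ)
          (((s.arg + 2 * Real.pi * m - x.im : ℝ) : ℂ) * Complex.I)
    linarith

theorem phasesV {n N : ℕ} (hN : 2 ≤ N) (ι : Fin N → Fin n) (hι : Function.Injective ι)
    (c : Fin n → ℝ) (hcι : ∀ v : Fin N → ℤ, v ≠ 0 → ∑ l, c (ι l) * v l ≠ 0)
    (hc0 : ∀ j, j ∉ Set.range ι → c j = 0) (θ ε : ℝ) (hε : 0 < ε) :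
    ∃ K : ℝ, ∀ (x s ηi : Fin n → ℂ), (∀ j, s j ≠ 0) →
      ∑ j, c j * Real.log ‖s j‖ = (∑ j, (c j : ℂ) * x j).re →
      ∑ j, (c j : ℂ) * ηi j = Complex.I * θ → (∀ j, ‖ηi j‖ ≤ 1) →
      ∃ κ : Fin n → ℂ, (∀ j, Complex.exp (κ j) = s j * Complex.exp (ηi j)) ∧
        ‖∑ j, (c j : ℂ) * κ j - ∑ j, (c j : ℂ) * x j‖ ≤ ε ∧
        ∀ j, ‖κ j - x j‖ ≤ |Real.log ‖s j‖ - (x j).re| + K := by
  obtain ⟨K, hK⟩ := EXW.phasesW hN (fun l => c (ι l)) hcι θ ε hε
  refine ⟨max K (Real.pi + 1), ?_⟩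
  intro x s ηi hs hlog hη hη1
  have hsumR : ∀ f : Fin n → ℝ, ∑ l, c (ι l) * f (ι l) = ∑ j, c j * f j := by
    intro f
    refine Fintype.sum_of_injective ι hι _ _ (fun j hj => ?_) (fun l => rfl)
    rw [hc0 j hj, zero_mul]
  have hsumC : ∀ f : Fin n → ℂ, ∑ l, (c (ι l) : ℂ) * f (ι l) = ∑ j, (c j : ℂ) * f j := by
    intro f
    refine Fintype.sum_of_injective ι hι _ _ (fun j hj => ?_) (fun l => rfl)
    rw [hc0 j hj, Complex.ofReal_zero, zero_mul]
  obtain ⟨κ₀, h1, h2, h3⟩ := hK (fun l => x (ι l)) (fun l => s (ι l)) (fun l => ηi (ι l))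
    (fun l => hs _) (by rw [hsumR fun j => Real.log ‖s j‖, hsumC x]; exact hlog)
    (by rw [hsumC ηi]; exact hη) (fun l => hη1 _)
  choose κ₁ hκ₁ hκ₂ using fun j => pv_log (x j) (s j) (ηi j) (hs j) (hη1 j)
  have hl : ∀ l, Function.extend ι κ₀ κ₁ (ι l) = κ₀ l := fun l => hι.extend_apply κ₀ κ₁ l
  have hr : ∀ j, j ∉ Set.range ι → Function.extend ι κ₀ κ₁ j = κ₁ j := fun j hj =>
    Function.extend_apply' κ₀ κ₁ j fun ⟨l, h⟩ => hj ⟨l, h⟩
  refine ⟨Function.extend ι κ₀ κ₁, fun j => ?_, ?_, fun j => ?_⟩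
  · by_cases hj : j ∈ Set.range ι
    · obtain ⟨l, rfl⟩ := hj
      rw [hl]
      exact h1 l
    · rw [hr j hj]
      exact hκ₁ j
  · rw [← hsumC (Function.extend ι κ₀ κ₁), ← hsumC x]
    simp only [hl]
    exact h2
  · by_cases hj : j ∈ Set.range ι
    · obtain ⟨l, rfl⟩ := hj
      rw [hl]
      exact (h3 l).trans (add_le_add le_rfl (le_max_left _ _))
    · rw [hr j hj]
      exact (hκ₂ j).trans (add_le_add le_rfl (le_max_right _ _))

end Pool.Agent.EXV
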