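import Pool.Agent.EXV.SelV
import Pool.Agent.EXV.PhasesV
import Pool.Agent.EXG.NiceB2
import Pool.Agent.EXG.PrimA
import Pool.Agent.EXG.PrimB
import Pool.Agent.EXG.CoreA
import Pool.Agent.EXG.Sol

/-!
# EXV / CoreV: assembly of the analytic part with a given branch `r T`, `c` supported in the coordinates `ι`

PROOF.  `EXW.coreW` with the changes of `EXZ.coreZ` against `EXG.core`: `sel_ptV`, `phasesV`, `i = ι l`.
-/

set_option autoImplicit false

namespace Pool.Agent.EXV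

open MvPolynomial Pool.Agent.EXL Pool.Agent.EXI Pool.Agent.EXG Topology Filter

private theorem ind_scale {k : Subfield ℂ} {ι : Type} (y : ι → ℂ) (hy : AlgebraicIndependent k y)
    (t : k) (ht : t ≠ 0) : AlgebraicIndependent k (fun j => (t : ℂ) * y j) := by
  rw [algebraicIndependent_iff]
  intro f hf
  have h1 : aeval y (bind₁ (fun j => C t * X j) f) = 0 := by
    rw [aeval_bind₁]
    have h2 : (fun i => aeval y (C t * X i : MvPolynomial ι k)) = fun j => (t : ℂ) * y j := by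
      funext j
      rw [map_mul, aeval_C, aeval_X]
      rfl
    rw [h2]
    exact hf
  have h2 := algebraicIndependent_iff.1 hy _ h1
  have h3 : bind₁ (fun j => C t⁻¹ * X j) (bind₁ (fun j => C t * X j) f) = f := by
    rw [bind₁_bind₁]
    have h4 : (fun i => bind₁ (fun j => (C t⁻¹ * X j : MvPolynomial ι k)) (C t * X i)) =
        (X : ι → MvPolynomial ι k) := by
      funext j
      rw [map_mul, algHom_C, algebraMap_eq, bind₁_X_right, ← mul_assoc, ← C_mul,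
        mul_inv_cancel₀ ht, C_1, one_mul]
    rw [h4]
    exact AlgHom.congr_fun bind₁_X_left f
  rw [← h3, h2, map_zero]

private theorem ev_sqrt (A B D : ℝ) (hD : 0 < D) :
    ∀ᶠ T : ℕ in atTop, A * Real.log T + B ≤ D * √(T : ℝ) := by
  have h1 : (fun x : ℝ => A * Real.log x + B) =o[atTop] fun x : ℝ => x ^ (1 / 2 : ℝ) := by
    apply Asymptotics.IsLittleO.add
    · exact (isLittleO_log_rpow_atTop (by norm_num)).const_mul_left A
    · apply Asymptotics.isLittleO_const_left.2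
      right
      exact tendsto_norm_atTop_atTop.comp (tendsto_rpow_atTop (by norm_num))
  have h2 := (h1.comp_tendsto (tendsto_natCast_atTop_atTop (R := ℝ))).def hD
  filter_upwards [h2] with T hT
  simp only [Function.comp] at hT
  rw [Real.sqrt_eq_rpow]
  refine (le_abs_self _).trans (hT.trans ?_)
  rw [Real.norm_of_nonneg (Real.rpow_nonneg (Nat.cast_nonneg T) _)]

private theorem aeval_ren {k : Subfield ℂ} {m : ℕ} (x : Fin m → ℂ) (z : ℂ)
    (N : MvPolynomial (Option (Fin m)) k) :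
    aeval (Sum.elim x fun _ : Unit => z)
      (rename (fun o : Option (Fin m) => o.elim (Sum.inr ()) Sum.inl) N) =
      aeval (cons z x) N := by
  rw [aeval_rename]
  congr 2
  funext o
  cases o <;> rfl

private theorem ren_ne {k : Subfield ℂ} {m : ℕ} (N : MvPolynomial (Option (Fin m)) k)
    (hN : N ≠ 0) :
    rename (fun o : Option (Fin m) => o.elim (Sum.inr () : Fin m ⊕ Unit) Sum.inl) N ≠ 0 := by
  intro h
  apply hN
  refine rename_injective _ ?_ (h.trans (map_zero _).symm)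
  intro o o' hoo
  cases o <;> cases o' <;> simp_all

private theorem aeval_F {k : Subfield ℂ} {m : ℕ} {a b x y : Fin (m + 1) → ℂ}
    (hxy : Spec k (Sum.elim a b) (Sum.elim x y)) (F : MvPolynomial (Fin (m + 1)) k)
    (h : aeval a F = 0) : aeval x F = 0 := by
  have h1 := hxy (rename Sum.inl F) (by
    rw [aeval_rename]
    exact h)
  rw [aeval_rename] at h1
  exact h1

private theorem hsfd {k : Subfield ℂ} {n : ℕ} (F : MvPolynomial (Fin n) k) (x : Fin n → ℂ) :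
    ∃ D : (Fin n → ℂ) →L[ℂ] ℂ, HasStrictFDerivAt (fun x : Fin n → ℂ => aeval x F) D x ∧
      ∀ v, D v = ∑ j, aeval x (pderiv j F) * v j := by
  classical
  induction F using MvPolynomial.induction_on with
  | C a =>
    refine ⟨0, ?_, fun v => ?_⟩
    · have h := hasStrictFDerivAt_const (𝕜 := ℂ) (algebraMap k ℂ a) x
      refine h.congr_of_eventuallyEq (Eventually.of_forall fun x => ?_)
      show algebraMap k ℂ a = aeval x (C a)
      rw [aeval_C]
    · simp [pderiv_C]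
  | add p q hp hq =>
    obtain ⟨D1, h1, h1'⟩ := hp
    obtain ⟨D2, h2, h2'⟩ := hq
    refine ⟨D1 + D2, ?_, fun v => ?_⟩
    · refine (h1.add h2).congr_of_eventuallyEq (Eventually.of_forall fun x => ?_)
      show aeval x p + aeval x q = aeval x (p + q)
      rw [map_add]
    · rw [ContinuousLinearMap.add_apply, h1', h2', ← Finset.sum_add_distrib]
      refine Finset.sum_congr rfl fun j _ => ?_
      rw [map_add, map_add, add_mul]
  | mul_X p i hp =>
    obtain ⟨D1, h1, h1'⟩ := hp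
    have h2 : HasStrictFDerivAt (fun x : Fin n → ℂ => x i)
        (ContinuousLinearMap.proj (R := ℂ) (φ := fun _ : Fin n => ℂ) i) x :=
      (ContinuousLinearMap.proj (R := ℂ) (φ := fun _ : Fin n => ℂ) i).hasStrictFDerivAt
    refine ⟨_, (h1.mul h2).congr_of_eventuallyEq (Eventually.of_forall fun x => ?_), fun v => ?_⟩
    · show aeval x p * x i = aeval x (p * X i)
      rw [map_mul, aeval_X]
    · have h3 : ∀ j, aeval x (pderiv j (p * X i)) * v j =
          (if j = i then aeval x p * v i else 0) + x i * (aeval x (pderiv j p) * v j) := by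
        intro j
        rw [Derivation.leibniz, smul_eq_mul, smul_eq_mul, map_add, map_mul, map_mul, aeval_X,
          pderiv_X]
        by_cases hj : j = i
        · subst hj
          simp
          ring
        · rw [Pi.single_eq_of_ne (Ne.symm hj), if_neg hj]
          simp
          ring
      simp only [h3, Finset.sum_add_distrib, Finset.sum_ite_eq', Finset.mem_univ, if_true,
        ← Finset.mul_sum]
      show aeval x p * v i + x i * D1 v = _
      rw [h1']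

private theorem loc_uniq {k : Subfield ℂ} {m : ℕ} (F : MvPolynomial (Fin (m + 1)) k) (a0 : ℂ)
    (x0 : Fin m → ℂ) (hne : aeval (Fin.cons a0 x0 : Fin (m + 1) → ℂ) (pderiv 0 F) ≠ 0) :
    ∀ᶠ p : ℂ × ℂ × (Fin m → ℂ) in 𝓝 (a0, a0, x0),
      aeval (Fin.cons p.1 p.2.2 : Fin (m + 1) → ℂ) F =
        aeval (Fin.cons p.2.1 p.2.2 : Fin (m + 1) → ℂ) F → p.1 = p.2.1 := by
  obtain ⟨D, hD, hDv⟩ := hsfd F (Fin.cons a0 x0 : Fin (m + 1) → ℂ)
  have h1 := hD.isLittleO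
  have hc : Continuous fun p : ℂ × ℂ × (Fin m → ℂ) =>
      ((Fin.cons p.1 p.2.2 : Fin (m + 1) → ℂ), (Fin.cons p.2.1 p.2.2 : Fin (m + 1) → ℂ)) := by
    refine Continuous.prodMk ?_ ?_
    · refine continuous_pi fun j => ?_
      refine Fin.cases ?_ (fun j => ?_) j
      · exact continuous_fst
      · exact (continuous_apply j).comp (continuous_snd.comp continuous_snd)
    · refine continuous_pi fun j => ?_
      refine Fin.cases ?_ (fun j => ?_) j
      · exact continuous_fst.comp continuous_snd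
      · exact (continuous_apply j).comp (continuous_snd.comp continuous_snd)
  have h2 := h1.comp_tendsto (hc.tendsto (a0, a0, x0))
  have hpos : 0 < ‖aeval (Fin.cons a0 x0 : Fin (m + 1) → ℂ) (pderiv 0 F)‖ / 2 := by
    have := norm_pos_iff.2 hne
    positivity
  filter_upwards [h2.def hpos] with p hp heq
  by_contra hne'
  have hsub : (Fin.cons p.1 p.2.2 : Fin (m + 1) → ℂ) - Fin.cons p.2.1 p.2.2 =
      Pi.single 0 (p.1 - p.2.1) := by
    funext j
    refine Fin.cases ?_ (fun j => ?_) j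
    · simp
    · simp [Pi.single_eq_of_ne (Fin.succ_ne_zero j)]
  simp only [Function.comp] at hp
  rw [hsub, heq, sub_self, zero_sub, norm_neg, Pi.norm_single] at hp
  have h3 : D (Pi.single 0 (p.1 - p.2.1)) =
      aeval (Fin.cons a0 x0 : Fin (m + 1) → ℂ) (pderiv 0 F) * (p.1 - p.2.1) := by
    rw [hDv, Finset.sum_eq_single (0 : Fin (m + 1))]
    · simp
    · intro j _ hj
      simp [Pi.single_eq_of_ne hj]
    · intro h
      exact absurd (Finset.mem_univ _) h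
  rw [h3, norm_mul] at hp
  have h4 : 0 < ‖p.1 - p.2.1‖ := norm_pos_iff.2 (sub_ne_zero.2 hne')
  nlinarith [mul_pos hpos h4]

/-- two continuous branches of simple roots which agree at a point -/
private theorem branch_eq {k : Subfield ℂ} {m : ℕ} (F : MvPolynomial (Fin (m + 1)) k)
    {E : Type} [TopologicalSpace E] (Om : Set E) (hpre : IsPreconnected Om) (x0 r : E → ℂ)
    (y : E → Fin m → ℂ) (hx0 : ContinuousOn x0 Om) (hr : ContinuousOn r Om)
    (hy : ContinuousOn y Om)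
    (hF1 : ∀ u ∈ Om, aeval (Fin.cons (x0 u) (y u) : Fin (m + 1) → ℂ) F = 0)
    (hF2 : ∀ u ∈ Om, aeval (Fin.cons (r u) (y u) : Fin (m + 1) → ℂ) F = 0)
    (hne : ∀ u ∈ Om, aeval (Fin.cons (r u) (y u) : Fin (m + 1) → ℂ) (pderiv 0 F) ≠ 0)
    (u0 : E) (hu0 : u0 ∈ Om) (h0 : x0 u0 = r u0) : ∀ u ∈ Om, x0 u = r u := by
  have hloc : ∀ u ∈ Om, ∀ᶠ u' in 𝓝[Om] u, (x0 u' = r u' ↔ x0 u = r u) := by
    intro u hu
    by_cases h : x0 u = r u
    · have h1 : Tendsto (fun u' => (x0 u', r u', y u')) (𝓝[Om] u) (𝓝 (r u, r u, y u)) := by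
        have h2 := ((hx0 u hu).prodMk ((hr u hu).prodMk (hy u hu)))
        have h3 : Tendsto (fun u' => (x0 u', r u', y u')) (𝓝[Om] u) (𝓝 (x0 u, r u, y u)) := h2
        rwa [h] at h3
      filter_upwards [h1.eventually (loc_uniq F (r u) (y u) (hne u hu)), self_mem_nhdsWithin]
        with u' h4 hu'
      have h5 := h4 ((hF1 u' hu').trans (hF2 u' hu').symm)
      exact ⟨fun _ => h, fun _ => h5⟩
    · have h1 : Tendsto (fun u' => x0 u' - r u') (𝓝[Om] u) (𝓝 (x0 u - r u)) :=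
        (hx0 u hu).sub (hr u hu)
      filter_upwards [h1.eventually_ne (sub_ne_zero.2 h)] with u' h2
      exact ⟨fun h3 => absurd (sub_eq_zero.2 h3) h2, fun h3 => absurd h3 h⟩
  intro u hu
  classical
  have hc : ContinuousOn (fun q => decide (x0 q = r q)) Om := by
    intro q hq
    refine (tendsto_const_nhds (x := decide (x0 q = r q))).congr' ?_
    filter_upwards [hloc q hq] with q' hq'
    exact (decide_eq_decide.2 hq').symm
  have h1 := hpre.constant hc hu0 hu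
  exact (decide_eq_decide.1 h1).1 h0


private theorem core_TW {k : Subfield ℂ} {m : ℕ} {a b : Fin (m + 1) → ℂ} {i : Fin (m + 1)}
    (pr : Prim k a b i) (F : MvPolynomial (Fin (m + 1)) k) (haF : aeval a F = 0)
    (P : Fin (m + 1) → Fin (m + 1) → MvPolynomial (Fin m ⊕ Fin 2) k)
    (hPV : ∀ i j, i ≠ j → ∀ x y : Fin (m + 1) → ℂ, Spec k (Sum.elim a b) (Sum.elim x y) →
      aeval (Sum.elim (fun l : Fin m => x l.succ) ![y i, y j]) (P i j) = 0)
    (h : MvPolynomial (Fin (m + 1) ⊕ Fin (m + 1)) k) (N : MvPolynomial (Option (Fin m)) k)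
    (hN : ∀ x y : Fin (m + 1) → ℂ, Spec k (Sum.elim a b) (Sum.elim x y) →
      aeval (Sum.elim x y) h = 0 → aeval (bs i x y) N = 0)
    (c : Fin (m + 1) → ℝ) (hc0 : c 0 ≠ 0) (X : Fin m → ℂ) (R : ℝ) (hR : 0 < R)
    (rT : (Fin m → ℂ) → ℂ) (s : Fin (m + 1) → ℂ) (hs : ∀ j, s j ≠ 0) (x ηT ηi : Fin (m + 1) → ℂ)
    (hx0 : x 0 = rT X) (hx : ∀ j : Fin m, x j.succ = X j)
    (hxy : Spec k (Sum.elim a b) (Sum.elim x fun j => s j * Complex.exp (ηT j)))
    (hηT : ‖ηT‖ ≤ 1 / 4) (hηi : ‖ηi‖ ≤ 1 / 4)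
    (r0 r1 δ' μ ρ : ℝ) (hr1 : 0 < r1) (hr10 : r1 < r0) (hr0 : r0 ≤ 3 / 16) (hδ' : δ' ≤ 3 / 16)
    (hμ : 0 < μ) (hρ : 0 ≤ ρ) (hR1 : 64 * (m + 1) * (ρ + 1) ≤ R)
    (hR2 : 64 * (m + 1) * (ρ + 1) * (∑ j, |c j|) ≤ R * μ)
    (hDl : ∀ (x : Fin m → ℂ) (z : ℂ), (∀ j, ‖x j - X j‖ ≤ R) →
      ‖z - Complex.exp (ηi i)‖ ≤ r0 → aeval (cons (s i * z) x) pr.Dl ≠ 0)
    (hNT : ∀ (x : Fin m → ℂ) (z : ℂ), (∀ j, ‖x j - X j‖ ≤ R) →
      ‖z - Complex.exp (ηi i)‖ ≤ r0 → aeval (cons (s i * z) x) N ≠ 0)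
    (hP : ∀ j, j ≠ i → ∀ (x : Fin m → ℂ) (z ζ : ℂ), (∀ l, ‖x l - X l‖ ≤ R) →
      ‖z - Complex.exp (ηi i)‖ ≤ r0 → ‖ζ - Complex.exp (ηi j)‖ = δ' →
      aeval (Sum.elim x ![s i * z, s j * ζ]) (P i j) ≠ 0)
    (hcirc : ∀ ζ : Fin (m + 1) → ℂ, (∀ j, ‖ζ j‖ ≤ 1) →
      (∀ i' j, i' ≠ j → aeval (Sum.elim X
        ![s i' * Complex.exp (ηi i' + ζ i'), s j * Complex.exp (ηi j + ζ j)]) (P i' j) = 0) →
      ‖Complex.exp (ηi i + ζ i) - Complex.exp (ηi i)‖ = r1 → μ ≤ ‖∑ j, (c j : ℂ) * ζ j‖)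
    (hrc : ContinuousOn rT {x' : Fin m → ℂ | ∀ j, ‖x' j - X j‖ ≤ R})
    (hrF : ∀ x' : Fin m → ℂ, (∀ j, ‖x' j - X j‖ ≤ R) →
      aeval (Fin.cons (rT x') x' : Fin (m + 1) → ℂ) F = 0 ∧
      aeval (Fin.cons (rT x') x' : Fin (m + 1) → ℂ) (pderiv 0 F) ≠ 0)
    (happ : ∀ x' : Fin m → ℂ, (∀ j : Fin m, ‖x' j - X j‖ ≤ ρ + 1) →
      ‖(c 0 : ℂ) * (rT x' - rT X) + ∑ j : Fin m, (c j.succ : ℂ) * (x' j - X j)‖ ≤ μ / 8)
    (hηTi : ‖Complex.exp (ηT i) - Complex.exp (ηi i)‖ < r1)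
    (hηTj : ∀ j, ‖Complex.exp (ηT j) - Complex.exp (ηi j)‖ < δ')
    (hsum : ‖∑ j, (c j : ℂ) * (ηT j - ηi j)‖ ≤ μ / 8)
    (κ : Fin (m + 1) → ℂ) (hκ1 : ∀ j, Complex.exp (κ j) = s j * Complex.exp (ηi j))
    (hκ2 : ‖∑ j, (c j : ℂ) * κ j - ∑ j, (c j : ℂ) * x j‖ ≤ μ / 8) (hκ3 : ∀ j : Fin m, ‖κ j.succ - X j‖ ≤ ρ) :
    ∃ x : Fin (m + 1) → ℂ, Spec k (Sum.elim a b) (Sum.elim x fun j => Complex.exp (x j)) ∧
      aeval (Sum.elim x fun j => Complex.exp (x j)) h ≠ 0 := by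
  have hw : ∀ j, Complex.exp (ηi j) ≠ 0 := fun j => Complex.exp_ne_zero _
  have hwn : ∀ j, 3 / 4 ≤ ‖Complex.exp (ηi j)‖ := by
    intro j
    rw [Complex.norm_exp]
    have h1 : |(ηi j).re| ≤ 1 / 4 :=
      (Complex.abs_re_le_norm _).trans ((norm_le_pi_norm ηi j).trans hηi)
    have h2 := Real.add_one_le_exp (ηi j).re
    have h3 := (abs_le.1 h1).1
    linarith
  obtain ⟨Om, hOm⟩ : ∃ Om : Set (Option (Fin m) → ℂ),
      Om = {u | (∀ j, ‖u (some j) - X j‖ < R) ∧ ‖u none - Complex.exp (ηi i)‖ < r0} := ⟨_, rfl⟩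
  have hyq : ∀ j, s j * Complex.exp (ηT j) / s j = Complex.exp (ηT j) :=
    fun j => mul_div_cancel_left₀ _ (hs j)
  obtain ⟨x0, Λ, hx0d, hΛ, hΛ1, hsp, hΛi, hbx, hby⟩ := sheet_log pr X R r0 δ' hR
    (hr1.trans hr10) s (fun j => Complex.exp (ηi j)) hs hw
    (fun j => by have := hwn j; linarith) (by have := hwn i; linarith)
    (fun u hu1 hu2 => hDl _ _ hu1 hu2) (P i) (fun j hj => hPV i j (Ne.symm hj)) hP x
    (fun j => s j * Complex.exp (ηT j)) hxy hx (by rw [hyq]; exact hηTi.trans hr10)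
    (fun j _ => by rw [hyq]; exact hηTj j) Om hOm
  rw [hyq] at hbx hby
  have hu0 : cons (Complex.exp (ηT i)) X ∈ Om := by
    rw [hOm]
    refine ⟨fun j => ?_, ?_⟩
    · show ‖X j - X j‖ < R
      rw [sub_self, norm_zero]
      exact hR
    · exact hηTi.trans hr10
  have hconv : Convex ℝ Om := by
    have h1 : Om = (⋂ j : Fin m, (fun u : Option (Fin m) → ℂ => u (some j)) ⁻¹'
        Metric.ball (X j) R) ∩ (fun u : Option (Fin m) → ℂ => u none) ⁻¹'
          Metric.ball (Complex.exp (ηi i)) r0 := by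
      rw [hOm]
      ext u
      constructor
      · rintro ⟨h2, h3⟩
        exact ⟨Set.mem_iInter.2 fun j => mem_ball_iff_norm.2 (h2 j), mem_ball_iff_norm.2 h3⟩
      · rintro ⟨h2, h3⟩
        exact ⟨fun j => mem_ball_iff_norm.1 (Set.mem_iInter.1 h2 j), mem_ball_iff_norm.1 h3⟩
    rw [h1]
    refine Convex.inter (convex_iInter fun j => ?_) ?_
    · exact (convex_ball _ _).is_linear_preimage ⟨fun _ _ => rfl, fun _ _ => rfl⟩
    · exact (convex_ball _ _).is_linear_preimage ⟨fun _ _ => rfl, fun _ _ => rfl⟩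
  have hFu : ∀ u ∈ Om, aeval (Fin.cons (x0 u) (fun j => u (some j)) : Fin (m + 1) → ℂ) F = 0 :=
    fun u hu => aeval_F (hsp u hu) F haF
  have hyc : ContinuousOn (fun (u : Option (Fin m) → ℂ) (j : Fin m) => u (some j)) Om :=
    (continuous_pi fun j => continuous_apply (some j)).continuousOn
  have hmaps : ∀ u ∈ Om, (fun j : Fin m => u (some j)) ∈
      {x' : Fin m → ℂ | ∀ j, ‖x' j - X j‖ ≤ R} := by
    intro u hu j
    rw [hOm] at hu
    exact (hu.1 j).le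
  have hloc : ∀ u ∈ Om, x0 u = rT fun j => u (some j) :=
    branch_eq F Om hconv.isPreconnected x0 (fun u => rT fun j => u (some j))
      (fun u j => u (some j)) hx0d.continuousOn (hrc.comp hyc hmaps) hyc hFu
      (fun u hu => (hrF _ (hmaps u hu)).1) (fun u hu => (hrF _ (hmaps u hu)).2) _ hu0
      (hbx.trans hx0)
  have hΛT : ∀ j, Λ j (cons (Complex.exp (ηT i)) X) = ηT j - ηi j := by
    intro j
    have h1 : Complex.exp (Λ j (cons (Complex.exp (ηT i)) X)) = Complex.exp (ηT j - ηi j) := by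
      have h2 := hby j
      rw [mul_assoc] at h2
      have h3 := mul_left_cancel₀ (hs j) h2
      rw [Complex.exp_sub, ← h3, mul_div_cancel_left₀ _ (hw j)]
    have h4 : ‖Λ j (cons (Complex.exp (ηT i)) X)‖ ≤ 1 := hΛ1 j _ hu0
    have h5 : ‖ηT j - ηi j‖ ≤ 1 := by
      refine (norm_sub_le _ _).trans ?_
      have := (norm_le_pi_norm ηT j).trans hηT
      have := (norm_le_pi_norm ηi j).trans hηi
      linarith
    have h6 := abs_le.1 ((Complex.abs_im_le_norm _).trans h4)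
    have h7 := abs_le.1 ((Complex.abs_im_le_norm _).trans h5)
    have h8 := Real.pi_gt_three
    exact Complex.exp_inj_of_neg_pi_lt_of_le_pi (by linarith) (by linarith) (by linarith)
      (by linarith) h1
  obtain ⟨u, hu, hu1, hu2, hu3⟩ := solve c hc0 X (Complex.exp (ηi i)) (∑ j, (c j : ℂ) * x j) R r0
    ρ μ hρ hμ hR1 hR2 Om hOm Λ x0 hΛ hx0d hΛ1 κ hκ3 (by
      intro u hu hun
      have h1 := happ (fun j => u (some j)) hun
      have h2 : (c 0 : ℂ) * x0 u + ∑ j : Fin m, (c j.succ : ℂ) * u (some j) -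
          ∑ j, (c j : ℂ) * x j = (c 0 : ℂ) * ((rT fun j => u (some j)) - rT X) +
          ∑ j : Fin m, (c j.succ : ℂ) * (u (some j) - X j) := by
        rw [Fin.sum_univ_succ (fun j => (c j : ℂ) * x j), hloc u hu, hx0]
        simp only [hx, mul_sub, Finset.sum_sub_distrib]
        ring
      rw [h2]
      exact h1) hκ2 r1 hr1 hr10 (by
      intro u hu hun
      have huO : u ∈ Om := by
        rw [hOm]
        refine ⟨fun j => ?_, ?_⟩
        · rw [hu j, sub_self, norm_zero]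
          exact hR
        · rw [hun]
          exact hr10
      have huX : (fun j : Fin m => u (some j)) = X := funext hu
      refine hcirc (fun j => Λ j u) (fun j => hΛ1 j u huO) ?_ ?_
      · intro i' j hij
        have h1 := hPV i' j hij _ _ (hsp u huO)
        simp only [Fin.cons_succ] at h1
        rw [huX] at h1
        simp only [Complex.exp_add]
        rw [← mul_assoc, ← mul_assoc]
        exact h1
      · rw [Complex.exp_add, hΛi u huO]
        exact hun) (cons (Complex.exp (ηT i)) X) (fun j => rfl) hηTi (by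
      simp only [hΛT]
      exact hsum)
  have hsol : ∀ j, Complex.exp ((Fin.cons (x0 u) (fun j => u (some j)) : Fin (m + 1) → ℂ) j) =
      s j * Complex.exp (ηi j) * Complex.exp (Λ j u) := by
    intro j
    rw [← hκ1, ← Complex.exp_add]
    congr 1
    rcases Fin.eq_zero_or_eq_succ j with rfl | ⟨l, rfl⟩
    · rw [Fin.cons_zero, hu2]
    · rw [Fin.cons_succ, hu1]
  refine ⟨Fin.cons (x0 u) (fun j => u (some j)), ?_, ?_⟩
  · simp only [hsol]
    exact hsp u hu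
  · simp only [hsol]
    intro h0
    have h1 := hN _ _ (hsp u hu) h0
    have hu' := hu
    rw [hOm] at hu'
    refine hNT (fun j => u (some j)) (u none) (fun j => (hu'.1 j).le) hu'.2.le ?_
    have h2 : bs i (Fin.cons (x0 u) (fun j => u (some j)) : Fin (m + 1) → ℂ)
        (fun j => s j * Complex.exp (ηi j) * Complex.exp (Λ j u)) =
        cons (s i * u none) (fun j => u (some j)) := by
      unfold bs
      congr 1
      show s i * Complex.exp (ηi i) * Complex.exp (Λ i u) = s i * u none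
      rw [mul_assoc, hΛi u hu]
    rw [← h2]
    exact h1

theorem coreV (k : Subfield ℂ) (hk : (k : Set ℂ).Countable) {m N : ℕ} (hN : 2 ≤ N)
    (a b : Fin (m + 1) → ℂ) (hb : ∀ j, b j ≠ 0) (F : MvPolynomial (Fin (m + 1)) k)
    (haF : aeval a F = 0)
    (htd : td (k : Set ℂ) (Sum.elim a b) = m + 1)
    (ι : Fin N → Fin (m + 1)) (hι : Function.Injective ι) (h0ι : ∃ l, ι l = 0) (k0 : Fin N)
    (hfib : ∀ x : Fin (m + 1) → ℂ, AlgebraicIndependent k (fun j : Fin m => x j.succ) →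
      aeval x F = 0 → ∃ Q : Ideal (MvPolynomial (Fin (m + 1)) ℂ), Q.IsPrime ∧
      (∀ j : Fin (m + 1), (X j : MvPolynomial (Fin (m + 1)) ℂ) ∉ Q) ∧
      Algebra.trdeg ℂ (MvPolynomial (Fin (m + 1)) ℂ ⧸ Q) = 1 ∧
      (∀ e : ℂ, (X (ι k0) - C e : MvPolynomial (Fin (m + 1)) ℂ) ∉ Q) ∧
      ∀ w : Fin (m + 1) → ℂ, (∀ g ∈ Q, eval w g = 0) → Spec k (Sum.elim a b) (Sum.elim x w))
    (β : Fin m → ℝ) (hβ : AlgebraicIndependent k (fun j : Fin m => Complex.I * (β j : ℂ)))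
    (c : Fin (m + 1) → ℝ) (hcι : ∀ v : Fin N → ℤ, v ≠ 0 → ∑ l, c (ι l) * v l ≠ 0)
    (hc0 : ∀ j, j ∉ Set.range ι → c j = 0)
    (r : ℕ → (Fin m → ℂ) → ℂ)
    (hr1 : ∀ᶠ T : ℕ in atTop, ContinuousOn (r T)
      {x' : Fin m → ℂ | ∀ j, ‖x' j - (T : ℂ) * (Complex.I * (β j : ℂ))‖ ≤ √(T : ℝ)})
    (hr2 : ∀ᶠ T : ℕ in atTop, ∀ x' : Fin m → ℂ,
      (∀ j, ‖x' j - (T : ℂ) * (Complex.I * (β j : ℂ))‖ ≤ √(T : ℝ)) →
      aeval (Fin.cons (r T x') x' : Fin (m + 1) → ℂ) F = 0 ∧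
      aeval (Fin.cons (r T x') x' : Fin (m + 1) → ℂ) (pderiv 0 F) ≠ 0)
    (hr3 : ∀ C δ : ℝ, 0 < δ → ∀ᶠ T : ℕ in atTop, ∀ x' : Fin m → ℂ,
      (∀ j, ‖x' j - (T : ℂ) * (Complex.I * (β j : ℂ))‖ ≤ C * Real.log T) →
      ‖(c 0 : ℂ) * (r T x' - r T fun j => (T : ℂ) * (Complex.I * (β j : ℂ))) +
        ∑ j : Fin m, (c j.succ : ℂ) * (x' j - (T : ℂ) * (Complex.I * (β j : ℂ)))‖ ≤ δ)
    (C0 : ℝ) (hr4 : ∀ᶠ T : ℕ in atTop,
      |(r T fun j => (T : ℂ) * (Complex.I * (β j : ℂ))).re| ≤ C0)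
    (h : MvPolynomial (Fin (m + 1) ⊕ Fin (m + 1)) k) (hh : aeval (Sum.elim a b) h ≠ 0) :
    ∃ x : Fin (m + 1) → ℂ,
      Spec k (Sum.elim a b) (Sum.elim x fun j => Complex.exp (x j)) ∧
      aeval (Sum.elim x fun j => Complex.exp (x j)) h ≠ 0 := by
  classical
  obtain ⟨𝒰, h𝒰⟩ : ∃ 𝒰 : Ultrafilter ℕ, (𝒰 : Filter ℕ) ≤ atTop :=
    ⟨Filter.hyperfilter ℕ, Nat.hyperfilter_le_atTop⟩
  have hc00 : c 0 ≠ 0 := by
    obtain ⟨l, hl⟩ := h0ι
    have h1 := hcι (Pi.single l 1) (by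
      intro h2
      have := congrFun h2 l
      simp at this)
    rw [Finset.sum_eq_single l (fun j _ hj => by
      rw [Pi.single_eq_of_ne hj]
      simp) (fun h2 => absurd (Finset.mem_univ _) h2), hl] at h1
    simpa using h1
  have hsumι : ∀ ζ : Fin (m + 1) → ℂ, ∑ j, (c j : ℂ) * ζ j = ∑ l, (c (ι l) : ℂ) * ζ (ι l) := by
    intro ζ
    rw [← Finset.sum_image (s := Finset.univ) (g := ι) (f := fun j => (c j : ℂ) * ζ j)
      (fun x _ y _ h => hι h)]
    symm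
    apply Finset.sum_subset (Finset.subset_univ _)
    intro j _ hj
    have h1 : j ∉ Set.range ι := by
      rintro ⟨l, rfl⟩
      exact hj (Finset.mem_image_of_mem _ (Finset.mem_univ _))
    rw [hc0 j h1]
    simp
  have e1 : ∀ (T : ℕ) (j : Fin m), (T : ℂ) * (Complex.I * (β j : ℂ)) =
      Complex.I * (T : ℂ) * (β j : ℂ) := fun T j => by ring
  simp only [e1] at hr1 hr2 hr3 hr4
  obtain ⟨x, hxd⟩ : ∃ x : ℕ → Fin (m + 1) → ℂ, x = fun T => Fin.cons
      (r T fun j => Complex.I * (T : ℂ) * (β j : ℂ)) (fun j => Complex.I * (T : ℂ) * (β j : ℂ)) :=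
    ⟨_, rfl⟩
  have hxs : ∀ T (j : Fin m), x T j.succ = Complex.I * (T : ℂ) * (β j : ℂ) := fun T j => by
    rw [hxd]
    exact Fin.cons_succ _ _ _
  have hxz : ∀ T, x T 0 = r T fun j => Complex.I * (T : ℂ) * (β j : ℂ) := fun T => by
    rw [hxd]
    exact Fin.cons_zero _ _
  have hx : ∀ᶠ T : ℕ in atTop, aeval (x T) F = 0 := by
    filter_upwards [hr2] with T hT
    have h1 := (hT (fun j => Complex.I * (T : ℂ) * (β j : ℂ)) (fun j => by
      rw [sub_self, norm_zero]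
      exact Real.sqrt_nonneg _)).1
    rw [hxd]
    exact h1
  have hre0 : ∀ (T : ℕ) (j : Fin m), (Complex.I * (T : ℂ) * (β j : ℂ)).re = 0 := by
    intro T j
    simp
  have hκre : ∀ T, (∑ j, (c j : ℂ) * x T j).re = c 0 * (x T 0).re := by
    intro T
    rw [Fin.sum_univ_succ, Complex.add_re, Complex.re_sum]
    have h1 : ∀ j : Fin m, ((c j.succ : ℂ) * x T j.succ).re = 0 := by
      intro j
      rw [Complex.re_ofReal_mul, hxs, hre0, mul_zero]
    simp only [h1, Finset.sum_const_zero, add_zero, Complex.re_ofReal_mul]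
  obtain ⟨P, hP, hPV⟩ : ∃ P : Fin (m + 1) → Fin (m + 1) → MvPolynomial (Fin m ⊕ Fin 2) k,
      (∀ i j, i ≠ j → P i j ≠ 0) ∧ ∀ i j, i ≠ j → ∀ x y : Fin (m + 1) → ℂ,
        Spec k (Sum.elim a b) (Sum.elim x y) →
        aeval (Sum.elim (fun l : Fin m => x l.succ) ![y i, y j]) (P i j) = 0 := by
    refine ⟨fun i j => if h : i ≠ j then (exists_pair k a b htd i j h).choose else 0,
      fun i j hij => ?_, fun i j hij => ?_⟩
    · simp only [dif_pos hij]
      exact (exists_pair k a b htd i j hij).choose_spec.1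
    · simp only [dif_pos hij]
      exact (exists_pair k a b htd i j hij).choose_spec.2
  have hfibT : ∀ᶠ T : ℕ in (𝒰 : Filter ℕ), ∃ Q : Ideal (MvPolynomial (Fin (m + 1)) ℂ),
      Q.IsPrime ∧ (∀ j : Fin (m + 1), (X j : MvPolynomial (Fin (m + 1)) ℂ) ∉ Q) ∧
      Algebra.trdeg ℂ (MvPolynomial (Fin (m + 1)) ℂ ⧸ Q) = 1 ∧
      (∀ e : ℂ, (X (ι k0) - C e : MvPolynomial (Fin (m + 1)) ℂ) ∉ Q) ∧
      ∀ w : Fin (m + 1) → ℂ, (∀ g ∈ Q, eval w g = 0) →
        Spec k (Sum.elim a b) (Sum.elim (x T) w) := by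
    filter_upwards [hx.filter_mono h𝒰, (eventually_ge_atTop 1).filter_mono h𝒰] with T hT hT1
    refine hfib (x T) ?_ hT
    have h1 := ind_scale _ hβ ((T : ℕ) : k) (by
      rw [Nat.cast_ne_zero]
      omega)
    have h2 : (fun j : Fin m => x T j.succ) =
        fun j : Fin m => (((T : ℕ) : k) : ℂ) * (Complex.I * (β j : ℂ)) := by
      funext j
      rw [hxs T j]
      push_cast
      ring
    rw [h2]
    exact h1
  obtain ⟨b', l0, θ, η, ηi, C, hb', hT, hηi, hηiθ, hηt, hN1, hN2⟩ := sel_ptV k hk a b hb htd P hP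
    hPV ι hι k0 c hcι hc0 (fun T => (∑ j, (c j : ℂ) * x T j).re) β hβ 𝒰 h𝒰 (|c 0| * C0) (by
      filter_upwards [hr4.filter_mono h𝒰] with T hT
      show |(∑ j, (c j : ℂ) * x T j).re| ≤ |c 0| * C0
      rw [hκre, abs_mul, hxz]
      exact mul_le_mul_of_nonneg_left hT (abs_nonneg _)) x (Eventually.of_forall hxs) hfibT
  obtain ⟨i, hi⟩ : ∃ i, i = ι l0 := ⟨_, rfl⟩
  rw [← hi] at hN1 hN2
  -- convergence of the exponentials
  have hηe : ∀ j, Tendsto (fun T => Complex.exp (η T j)) (𝒰 : Filter ℕ)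
      (𝓝 (Complex.exp (ηi j))) := fun j =>
    (Complex.continuous_exp.tendsto _).comp ((continuous_apply j).tendsto ηi |>.comp hηt)
  have hηn : ∀ j, ∀ r : ℝ, 0 < r → ∀ᶠ T : ℕ in (𝒰 : Filter ℕ),
      ‖Complex.exp (η T j) - Complex.exp (ηi j)‖ < r := by
    intro j r hr
    filter_upwards [(hηe j).eventually (Metric.ball_mem_nhds _ hr)] with T hT
    exact mem_ball_iff_norm.1 hT
  have hN1' : ∀ N : MvPolynomial (Option (Fin m)) k, N ≠ 0 → ∃ r : ℝ, 0 < r ∧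
      ∀ᶠ T : ℕ in (𝒰 : Filter ℕ), ∀ (x : Fin m → ℂ) (z : ℂ),
        (∀ j, ‖x j - Complex.I * (T : ℂ) * (β j : ℂ)‖ ≤ √(T : ℝ)) →
        ‖z - Complex.exp (ηi i)‖ ≤ r → aeval (cons (b' T i * z) x) N ≠ 0 := by
    intro N hN
    obtain ⟨r, hr, hrT⟩ := hN1 _ (ren_ne N hN)
    refine ⟨r, hr, ?_⟩
    filter_upwards [hrT] with T hT x z hx hz
    have := hT x z hx hz
    rwa [aeval_ren] at this
  have hind : AlgebraicIndependent k (bs i a b) := by
    by_contra hni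
    obtain ⟨N, hN0, hN⟩ := exists_pair1 k a b i hni
    obtain ⟨r, hr, hrT⟩ := hN1' N hN0
    obtain ⟨T, hT1, hT2, hT3, hT4⟩ := (hrT.and ((hx.filter_mono h𝒰).and (hT.and (hηn i r hr)))).exists
    have h1 : aeval (cons (b' T i * Complex.exp (η T i)) (fun j : Fin m => x T j.succ)) N = 0 :=
      hN (x T) (fun j => b' T j * Complex.exp (η T j)) hT3.1
    have h2 : ∀ j : Fin m, ‖(fun j : Fin m => x T j.succ) j -
        Complex.I * (T : ℂ) * (β j : ℂ)‖ ≤ √(T : ℝ) := by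
      intro j
      have h3 : x T j.succ = Complex.I * (T : ℂ) * (β j : ℂ) := hxs T j
      show ‖x T j.succ - Complex.I * (T : ℂ) * (β j : ℂ)‖ ≤ √(T : ℝ)
      rw [h3, sub_self, norm_zero]
      exact Real.sqrt_nonneg _
    exact hT1 (fun j => x T j.succ) (Complex.exp (η T i)) h2 hT4.le h1
  obtain ⟨pr⟩ := exists_prim k a b hb htd i hind
  obtain ⟨N', hN0', hN'⟩ := exists_norm k a b htd i hind h hh
  obtain ⟨ra, hra, hraT⟩ := hN1' pr.Dl pr.ne
  obtain ⟨rb, hrb, hrbT⟩ := hN1' N' hN0'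
  obtain ⟨δ', rc, hδ', hδ'1, hrc, hrcT⟩ := hN2 (3 / 16) (by norm_num)
  obtain ⟨r0, hr0⟩ : ∃ r0 : ℝ, r0 = min (min ra rb) (min rc (3 / 16)) := ⟨_, rfl⟩
  have hr0pos : 0 < r0 := by
    rw [hr0]
    exact lt_min (lt_min hra hrb) (lt_min hrc (by norm_num))
  have hr0a : r0 ≤ ra := hr0 ▸ (min_le_left _ _).trans (min_le_left _ _)
  have hr0b : r0 ≤ rb := hr0 ▸ (min_le_left _ _).trans (min_le_right _ _)
  have hr0c : r0 ≤ rc := hr0 ▸ (min_le_right _ _).trans (min_le_left _ _)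
  have hr0d : r0 ≤ 3 / 16 := hr0 ▸ (min_le_right _ _).trans (min_le_right _ _)
  obtain ⟨r1, μ', hr1', hr10, hμ', hcirc0⟩ := exists_r1 k β hβ (fun l => c (ι l))
    hcι (fun l l' => P (ι l) (ι l')) (fun l l' hl => hP _ _ (fun h => hl (hι h))) 𝒰 h𝒰
    (fun T l => b' T (ι l)) (fun T l => hb' T (ι l)) l0 (fun l => ηi (ι l)) r0 hr0pos
  have hcirc : ∀ᶠ T : ℕ in (𝒰 : Filter ℕ), ∀ ζ : Fin (m + 1) → ℂ, (∀ j, ‖ζ j‖ ≤ 1) →
      (∀ i' j, i' ≠ j → aeval (Sum.elim (fun l => Complex.I * (T : ℂ) * (β l : ℂ))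
        ![b' T i' * Complex.exp (ηi i' + ζ i'), b' T j * Complex.exp (ηi j + ζ j)]) (P i' j) = 0) →
      ‖Complex.exp (ηi i + ζ i) - Complex.exp (ηi i)‖ = r1 → μ' ≤ ‖∑ j, (c j : ℂ) * ζ j‖ := by
    filter_upwards [hcirc0] with T hT ζ hζ hrel hnorm
    rw [hsumι]
    rw [hi] at hnorm
    exact hT (fun l => ζ (ι l)) (fun l => hζ (ι l))
      (fun l l' hl => hrel _ _ (fun h => hl (hι h))) hnorm
  obtain ⟨K, hK⟩ := phasesV hN ι hι c hcι hc0 θ (μ' / 8) (by positivity)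
  have hsumT : Tendsto (fun T => ∑ j, (c j : ℂ) * (η T j - ηi j)) (𝒰 : Filter ℕ) (𝓝 0) := by
    have h1 : Tendsto (fun T => ∑ j, (c j : ℂ) * (η T j - ηi j)) (𝒰 : Filter ℕ)
        (𝓝 (∑ j, (c j : ℂ) * (ηi j - ηi j))) :=
      tendsto_finsetSum _ fun j _ => (((continuous_apply j).tendsto ηi |>.comp hηt).sub_const
        (ηi j)).const_mul _
    simpa using h1
  have hsum : ∀ᶠ T : ℕ in (𝒰 : Filter ℕ), ‖∑ j, (c j : ℂ) * (η T j - ηi j)‖ ≤ μ' / 8 := by
    filter_upwards [hsumT.eventually (Metric.ball_mem_nhds _ (show 0 < μ' / 8 by positivity))]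
      with T hT
    have h2 : dist (∑ j, (c j : ℂ) * (η T j - ηi j)) 0 < μ' / 8 := hT
    rw [dist_zero_right] at h2
    exact h2.le
  have hall : ∀ᶠ T : ℕ in (𝒰 : Filter ℕ), ∀ j,
      ‖Complex.exp (η T j) - Complex.exp (ηi j)‖ < δ' :=
    Filter.eventually_all.2 fun j => hηn j δ' hδ'
  have hA1 := ev_sqrt (64 * (m + 1) * |C|) (64 * (m + 1) * (|K| + 1)) 1 one_pos
  have hA2 := ev_sqrt (64 * (m + 1) * |C| * (∑ j, |c j|))
    (64 * (m + 1) * (|K| + 1) * (∑ j, |c j|)) μ' hμ'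
  have hlog : ∀ᶠ T : ℕ in atTop, 1 ≤ Real.log T :=
    (Real.tendsto_log_atTop.comp tendsto_natCast_atTop_atTop).eventually_ge_atTop 1
  obtain ⟨T, ⟨⟨⟨hT1, hT2⟩, ⟨hT3, hT4⟩⟩, ⟨⟨hT5, hT6⟩, ⟨hT7, hT8⟩⟩⟩,
      ⟨⟨⟨hT9, hT10⟩, ⟨hT11, hT12⟩⟩, ⟨⟨hT13, hT14⟩, hT15⟩⟩⟩ :=
    ((((hr1.filter_mono h𝒰).and hT).and ((hr2.filter_mono h𝒰).and
      ((hr3 (|C| + |K| + 1) (μ' / 8) (by positivity)).filter_mono h𝒰))).and
      ((hraT.and hrbT).and (hrcT.and hcirc)) |>.and
      ((((hηn i r1 hr1').and hall).and (hsum.and (hA1.filter_mono h𝒰))).and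
        (((hA2.filter_mono h𝒰).and (hlog.filter_mono h𝒰)).and
          ((eventually_ge_atTop 1).filter_mono h𝒰)))).exists
  obtain ⟨hxy, hηT, hηre, hbκ, hblog⟩ := hT2
  have hTpos : (0 : ℝ) < T := by exact_mod_cast hT15
  have hK0 := abs_nonneg K
  have hC0 := abs_nonneg C
  obtain ⟨κ, hκ1, hκ2, hκ3⟩ := hK (x T) (b' T) ηi (hb' T) hbκ hηiθ
    (fun j => ((norm_le_pi_norm ηi j).trans hηi).trans (by norm_num))
  have hm0 : (0 : ℝ) ≤ m := Nat.cast_nonneg m
  refine core_TW pr F haF P hPV h N' hN' c hc00 (fun j => Complex.I * (T : ℂ) * (β j : ℂ))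
    (√(T : ℝ)) (Real.sqrt_pos.2 hTpos) (r T)
    (b' T) (hb' T) (x T) (η T) ηi (hxz T) (hxs T) hxy hηT hηi r0 r1 δ' μ'
    (|C| * Real.log T + |K|) hr1' hr10
    hr0d hδ'1.le hμ' (by positivity) (by linarith) (by nlinarith)
    (fun x z hx hz => hT5 x z hx (hz.trans hr0a)) (fun x z hx hz => hT6 x z hx (hz.trans hr0b))
    (fun j hj x z ζ hx hz hζ => hT7 j hj x z ζ hx (hz.trans hr0c) hζ) hT8 hT1 hT3 ?_ hT9 hT10 hT11 κ
    hκ1 hκ2 ?_
  · intro x' hx'
    refine hT4 x' (fun j => (hx' j).trans ?_)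
    nlinarith
  · intro j
    have h1 := hκ3 j.succ
    rw [hxs T j, hre0, sub_zero] at h1
    refine h1.trans ?_
    have h2 := hblog j.succ
    have h3 : C * Real.log T ≤ |C| * Real.log T :=
      mul_le_mul_of_nonneg_right (le_abs_self C) (by linarith)
    have h4 := le_abs_self K
    linarith

end Pool.Agent.EXV
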