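import Mathlib

/-!
# EXV / Defs (MP_a12702_lc, Theorem V: one order vector, a factor `G` of the leading form of any multiplicity)

`V` in `ℂ^n × (ℂ^*)^n`, `dim V = n`, over the hypersurface `F = 0`; `w` a discrete valuation of `ℂ[x, y] / P` trivial on `ℂ[x] / (F)` with order
vector `v`. Leading form `L = G ^ a0 * R`, `G` irreducible, not a multiple of a linear form with integer coefficients, `G(x + v) ≠ G(x)`. Then the
exponential points are dense in `V`. Common generalization of EXZ (`a0 = 1`) and EXW (`G` without integer periods).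
Plan: adapted coordinates (`G` depends on `x_l`, `l < N`, only, no integer period there; EXZ/Lat, EXZ/ChV), integer matrix on the first `N`
coordinates: `v = (g, 0, .., 0, v_N, ..)` (NormV), isogeny `x_l = g x''_l` for `l < N` (Isog): `v = e (1, 0, .., 0, v_N, ..)`, shear
`x_j - v_j x_0`: `v = e e_0`, and `G` still depends on the first `N` coordinates only. Then the proof of EXW with `c` supported in the first `N`
coordinates as in EXZ (SelV, PhasesV, CoreV, ConclV, MainAd).
-/

set_option autoImplicit false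

namespace Pool.Agent.EXV

open MvPolynomial

/-- the data -/
structure Dat {n : ℕ} (P : Ideal (MvPolynomial (Fin n ⊕ Fin n) ℂ)) (F : MvPolynomial (Fin n) ℂ)
    (w : Valuation (MvPolynomial (Fin n ⊕ Fin n) ℂ) (WithZero (Multiplicative ℤ)))
    (v : Fin n → ℤ) : Prop where
  hP : P.IsPrime
  hY : ∀ j : Fin n, (X (Sum.inr j) : MvPolynomial (Fin n ⊕ Fin n) ℂ) ∉ P
  hdim : Algebra.trdeg ℂ (MvPolynomial (Fin n ⊕ Fin n) ℂ ⧸ P) = n
  hF0 : F ≠ 0
  hF : ∀ f : MvPolynomial (Fin n) ℂ, rename Sum.inl f ∈ P ↔ F ∣ f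
  hw : ∀ f, w f = 0 ↔ f ∈ P
  hwx : ∀ f : MvPolynomial (Fin n) ℂ, ¬ F ∣ f → w (rename Sum.inl f) = 1
  hwv : ∀ j, w (X (Sum.inr j)) = WithZero.exp (-(v j))

/-- the conclusion -/
def Dense {n : ℕ} (P : Ideal (MvPolynomial (Fin n ⊕ Fin n) ℂ)) : Prop :=
  ∀ h : MvPolynomial (Fin n ⊕ Fin n) ℂ, h ∉ P → ∃ z : Fin n → ℂ,
    (∀ f ∈ P, eval (Sum.elim z fun j => Complex.exp (z j)) f = 0) ∧
    eval (Sum.elim z fun j => Complex.exp (z j)) h ≠ 0

end Pool.Agent.EXV
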