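import Pool.Agent.EXW.FibT
import Pool.Agent.EXZ.FibreZ

/-!
# EXV / FibV: an irreducible curve in the fibre, with a nonconstant coordinate `j0`

PROOF.  `EXW.fibre_tuple` (EXW/FibT) with `j1 = j0`: `b j0` is transcendental over `k(a)` (`hj0`), so all `b j` are algebraic over `k(a, b j0)` (`htd`, `hta`); instead of
`EXP.fibre_aux` its version with the additional clause `X j1 - C e ∉ Q` (`fz_aux0` in EXZ/FibreZ.lean, private: copy it).
-/

set_option autoImplicit false
set_option linter.all false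

namespace Pool.Agent.EXV

open MvPolynomial Pool.Agent.EXL Pool.Agent.EXI Pool.Agent.EXK Pool.Agent.EXP

private lemma fv_option (k : Subfield ℂ) {n : ℕ} {x : Fin n → ℂ} (hx : AlgebraicIndependent k x)
    {y : ℂ} (hy : ¬ IsAlgebraic (Algebra.adjoin k (Set.range x)) y) :
    AlgebraicIndependent k (Fin.snoc x y : Fin (n + 1) → ℂ) := by
  have h3 : AlgebraicIndependent k (fun o : Option (Fin n) => o.elim y x) :=
    (hx.option_iff_transcendental y).2 hy
  have h4 := h3.comp finSuccEquivLast (finSuccEquivLast (n := n)).injective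
  have e : (Fin.snoc x y : Fin (n + 1) → ℂ) =
      (fun o : Option (Fin n) => o.elim y x) ∘ finSuccEquivLast := by
    funext i
    refine Fin.lastCases ?_ (fun j => ?_) i
    · simp
    · simp
  rw [e]
  exact h4

/-- an element is algebraic if the transcendence degree does not allow one more -/
private lemma fv_alg (k : Subfield ℂ) {n : ℕ} {x : Fin n → ℂ} (hx : AlgebraicIndependent k x)
    {ι : Type} [Fintype ι] (z : ι → ℂ) (hz : td (k : Set ℂ) z ≤ n) {y : ℂ}
    (h : ∀ D ∈ DerOver (k : Set ℂ), (∀ i, D (z i) = 0) → (∀ i, D (x i) = 0) ∧ D y = 0) :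
    IsAlgebraic (Algebra.adjoin k (Set.range x)) y := by
  by_contra hna
  have h3 := (ind_iff k _).1 (fv_option k hx hna)
  have h5 : td (k : Set ℂ) (Fin.snoc x y : Fin (n + 1) → ℂ) ≤ td (k : Set ℂ) z := by
    refine rk_le_of_dep _ _ _ ?_
    intro D hD hzD i
    obtain ⟨h6, h7⟩ := h D hD hzD
    refine Fin.lastCases ?_ (fun j => ?_) i
    · rw [Fin.snoc_last]
      exact h7
    · rw [Fin.snoc_castSucc]
      exact h6 j
  rw [h3] at h5
  omega

private theorem fv_aux0 {n : ℕ} (Ω : Type) [Field Ω] [Algebra ℂ Ω] [IsAlgClosed Ω] (T : Ω)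
    (hT : Transcendental ℂ T) (ka : Subfield ℂ) (θ : ka →+* ℂ) (b : Fin n → ℂ)
    (hb : ∀ j, b j ≠ 0)
    (j1 : Fin n) (hbt : AlgebraicIndependent ka (fun _ : Fin 1 => b j1))
    (hbk : ∀ j, IsAlgebraic (Algebra.adjoin ka (Set.range fun _ : Fin 1 => b j1)) (b j)) :
    ∃ Q : Ideal (MvPolynomial (Fin n) ℂ), Q.IsPrime ∧
      (∀ j : Fin n, (X j : MvPolynomial (Fin n) ℂ) ∉ Q) ∧
      Algebra.trdeg ℂ (MvPolynomial (Fin n) ℂ ⧸ Q) = 1 ∧
      (∀ e : ℂ, (X j1 - C e : MvPolynomial (Fin n) ℂ) ∉ Q) ∧
      ∀ g : MvPolynomial (Fin n) ka, aeval b g = 0 → map θ g ∈ Q := by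
  classical
  have hTi : AlgebraicIndependent ℂ (fun _ : Fin 1 => T) :=
    (algebraicIndependent_unique_type_iff (ι := Fin 1)).2 hT
  let t : Fin 1 → ℂ := fun _ => b j1
  let ψ : ka →+* Ω := (algebraMap ℂ Ω).comp θ
  have hθ : Function.Injective θ := θ.injective
  obtain ⟨κ, hκc, hκt⟩ := base_of_inj t hbt ψ (fun _ => T) (by
    intro f hf h0
    have h1 : aeval (fun _ : Fin 1 => T) (map θ f) = 0 := by
      rw [aeval_def, eval₂_map]
      exact h0
    have h2 := (algebraicIndependent_iff.1 hTi) _ h1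
    exact hf ((map_injective _ hθ) (by rw [h2, map_zero])))
  let F : IntermediateField (IntermediateField.adjoin ka (Set.range t)) ℂ :=
    IntermediateField.adjoin (IntermediateField.adjoin ka (Set.range t)) (Set.range b)
  have hle := IntermediateField.algebra_adjoin_le_adjoin ka (Set.range t)
  have hfd : FiniteDimensional (IntermediateField.adjoin ka (Set.range t)) F := by
    refine IntermediateField.finiteDimensional_adjoin ?_
    rintro x ⟨j, rfl⟩
    have h2 : IsAlgebraic (IntermediateField.adjoin ka (Set.range t)) (b j) := by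
      obtain ⟨p, hp0, hp⟩ := hbk j
      refine ⟨p.map (Subalgebra.inclusion hle).toRingHom,
        (Polynomial.map_ne_zero_iff (Subalgebra.inclusion_injective hle)).2 hp0, ?_⟩
      rw [Polynomial.aeval_def, Polynomial.eval₂_map]
      exact hp
    exact h2.isIntegral
  let _ : Algebra (IntermediateField.adjoin ka (Set.range t)) Ω := κ.toAlgebra
  have hint : Algebra.IsAlgebraic (IntermediateField.adjoin ka (Set.range t)) F :=
    Algebra.IsAlgebraic.of_finite _ _
  let φ : F →ₐ[IntermediateField.adjoin ka (Set.range t)] Ω := IsAlgClosed.lift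
  let bF : Fin n → F := fun j => ⟨b j, IntermediateField.subset_adjoin _ _ ⟨j, rfl⟩⟩
  let β : Fin n → Ω := fun j => φ (bF j)
  have hβt : β j1 = T := by
    have h1 : bF j1 = algebraMap (IntermediateField.adjoin ka (Set.range t)) F
        ⟨t 0, IntermediateField.subset_adjoin ka _ ⟨0, rfl⟩⟩ := rfl
    change φ (bF j1) = T
    rw [h1, φ.commutes]
    exact hκt 0
  let ιF : ka →+* F := (algebraMap (IntermediateField.adjoin ka (Set.range t)) F).comp
    (algebraMap ka (IntermediateField.adjoin ka (Set.range t)))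
  have hφc : ∀ c : ka, φ (ιF c) = ψ c := by
    intro c
    change φ (algebraMap (IntermediateField.adjoin ka (Set.range t)) F
      (algebraMap ka (IntermediateField.adjoin ka (Set.range t)) c)) = _
    rw [φ.commutes]
    exact hκc c
  -- relations over `ka` are transported by `φ`
  have hrel : ∀ {ι : Type} (z : ι → F) (f : MvPolynomial ι ka),
      aeval (fun i => (z i : ℂ)) f = 0 → aeval (fun i => φ (z i)) (map θ f) = 0 := by
    intro ι z f hf
    have h1 : ((eval₂ ιF z f : F) : ℂ) = aeval (fun i => (z i : ℂ)) f := by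
      have h3 := MvPolynomial.eval₂_comp_left F.subtype ιF z f
      exact h3
    have h2 : eval₂ ιF z f = 0 := Subtype.ext (h1.trans hf)
    have h4 := MvPolynomial.eval₂_comp_left φ.toRingHom ιF z f
    have h5 : φ.toRingHom.comp ιF = ψ := RingHom.ext hφc
    rw [h5, h2, map_zero] at h4
    rw [aeval_def, eval₂_map]
    exact h4.symm
  let Φ : MvPolynomial (Fin n) ℂ →ₐ[ℂ] Ω := aeval β
  let Q : Ideal (MvPolynomial (Fin n) ℂ) := RingHom.ker Φ
  have hQ : Q.IsPrime := RingHom.ker_isPrime Φ
  have hdom : IsDomain (MvPolynomial (Fin n) ℂ ⧸ Q) := (Ideal.Quotient.isDomain_iff_prime Q).2 hQ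
  refine ⟨Q, hQ, ?_, ?_, ?_, ?_⟩
  · intro j hj
    have h1 : Φ (X j) = 0 := hj
    have h2 : β j = 0 := by
      rw [← h1]
      exact (aeval_X _ _).symm
    have h3 : bF j = 0 := (map_eq_zero φ).1 h2
    exact hb j (congrArg Subtype.val h3)
  · -- transcendence degree
    let ι : (MvPolynomial (Fin n) ℂ ⧸ Q) →ₐ[ℂ] Ω := Ideal.kerLiftAlg Φ
    have hι : Function.Injective ι := Ideal.kerLiftAlg_injective Φ
    have hιX : ∀ j, ι (Ideal.Quotient.mk Q (X j)) = β j := by
      intro j
      change Ideal.kerLiftAlg Φ (Ideal.Quotient.mk Q (X j)) = β j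
      rw [Ideal.kerLiftAlg_mk]
      exact aeval_X _ _
    have hA : AlgebraicIndependent ℂ (fun _ : Fin 1 => Ideal.Quotient.mk Q (X j1)) := by
      apply AlgebraicIndependent.of_comp ι
      have : (ι ∘ fun _ : Fin 1 => Ideal.Quotient.mk Q (X j1)) = fun _ : Fin 1 => T := by
        funext _
        rw [Function.comp_apply, hιX, hβt]
      rw [this]
      exact hTi
    have hB : ∀ i : Fin n, IsAlgebraic (Algebra.adjoin ℂ
        (Set.range fun _ : Fin 1 => Ideal.Quotient.mk Q (X j1))) (Ideal.Quotient.mk Q (X i)) := by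
      intro i
      by_contra hna
      have h1 : AlgebraicIndependent ℂ (fun o : Option (Fin 1) =>
          o.elim (Ideal.Quotient.mk Q (X i)) fun _ : Fin 1 => Ideal.Quotient.mk Q (X j1)) :=
        (hA.option_iff_transcendental _).2 hna
      have h2 := h1.map' (f := ι) hι
      have h3 : (ι ∘ fun o : Option (Fin 1) =>
          o.elim (Ideal.Quotient.mk Q (X i)) fun _ : Fin 1 => Ideal.Quotient.mk Q (X j1)) =
          fun o : Option (Fin 1) => φ (o.elim (bF i) fun _ : Fin 1 => bF j1) := by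
        funext o
        cases o with
        | none => exact hιX i
        | some l => exact hιX j1
      rw [h3] at h2
      have h4 : ¬ AlgebraicIndependent ka
          (fun o : Option (Fin 1) => o.elim (b i) (fun _ : Fin 1 => b j1)) := by
        intro h5
        exact ((hbt.option_iff_transcendental (b i)).1 h5) (hbk i)
      apply h4
      rw [algebraicIndependent_iff]
      intro f hf
      have h6 : aeval (fun o : Option (Fin 1) =>
          ((o.elim (bF i) (fun _ : Fin 1 => bF j1) : F) : ℂ)) f = 0 := by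
        rw [← hf]
        congr 2
        funext o
        cases o <;> rfl
      have h7 := hrel _ f h6
      have h8 := (algebraicIndependent_iff.1 h2) _ h7
      exact (map_injective _ hθ) (by rw [h8, map_zero])
    have hC : Algebra.IsAlgebraic (Algebra.adjoin ℂ
        (Set.range fun _ : Fin 1 => Ideal.Quotient.mk Q (X j1))) (MvPolynomial (Fin n) ℂ ⧸ Q) := by
      refine ⟨fun q => ?_⟩
      obtain ⟨f, rfl⟩ := Ideal.Quotient.mk_surjective q
      have h1 : ∀ f : MvPolynomial (Fin n) ℂ, Ideal.Quotient.mk Q f ∈ Subalgebra.algebraicClosure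
          (Algebra.adjoin ℂ (Set.range fun _ : Fin 1 => Ideal.Quotient.mk Q (X j1)))
          (MvPolynomial (Fin n) ℂ ⧸ Q) := by
        intro f
        induction f using MvPolynomial.induction_on with
        | C a =>
          rw [Subalgebra.mem_algebraicClosure]
          exact isAlgebraic_algebraMap (algebraMap ℂ (Algebra.adjoin ℂ
            (Set.range fun _ : Fin 1 => Ideal.Quotient.mk Q (X j1))) a)
        | add f g hf hg =>
          rw [map_add]
          exact add_mem hf hg
        | mul_X f i hf =>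
          rw [map_mul]
          exact mul_mem hf (hB i)
      exact h1 f
    have hD := hA.isTranscendenceBasis_iff_isAlgebraic.2 hC
    have hE := hD.cardinalMk_eq_trdeg
    rw [← hE, Cardinal.mk_fintype, Fintype.card_fin]
    norm_num
  · intro e he
    have h1 : Φ (X j1 - C e) = 0 := he
    rw [map_sub] at h1
    have h2 : Φ (X j1) = T := (aeval_X _ _).trans hβt
    have h3 : Φ (C e) = algebraMap ℂ Ω e := aeval_C _ _
    rw [h2, h3, sub_eq_zero] at h1
    exact hT (by rw [h1]; exact isAlgebraic_algebraMap e)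
  · intro g hg
    have h1 := hrel bF g hg
    exact h1

private theorem fv_omega : ∃ (Ω : Type) (_ : Field Ω) (_ : Algebra ℂ Ω) (_ : IsAlgClosed Ω)
    (T : Ω), Transcendental ℂ T :=
  ⟨AlgebraicClosure (RatFunc ℂ), inferInstance, inferInstance, inferInstance,
    algebraMap (RatFunc ℂ) (AlgebraicClosure (RatFunc ℂ)) RatFunc.X,
    (transcendental_algebraMap_iff (algebraMap (RatFunc ℂ)
      (AlgebraicClosure (RatFunc ℂ))).injective).2 RatFunc.transcendental_X⟩

private theorem fv_le {k ka : Subfield ℂ} (S1 : Subalgebra k ℂ) (S2 : Subalgebra ka ℂ)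
    (h : ∀ y ∈ S1, y ∈ S2) (x : ℂ) (hx : IsAlgebraic S1 x) : IsAlgebraic S2 x := by
  let g : S1 →+* S2 :=
    { toFun := fun y => ⟨y, h y y.2⟩
      map_one' := rfl
      map_mul' := fun _ _ => rfl
      map_zero' := rfl
      map_add' := fun _ _ => rfl }
  have hg : Function.Injective g := by
    intro y z hyz
    exact Subtype.ext (congrArg (fun w : S2 => (w : ℂ)) hyz)
  obtain ⟨q, hq0, hq⟩ := hx
  refine ⟨q.map g, (Polynomial.map_ne_zero_iff hg).2 hq0, ?_⟩
  rw [Polynomial.aeval_def, Polynomial.eval₂_map]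
  have : (algebraMap S2 ℂ).comp g = algebraMap S1 ℂ := RingHom.ext fun _ => rfl
  rw [this]
  exact hq

private theorem fv_adj {k ka : Subfield ℂ} (h : ∀ c ∈ k, c ∈ ka) (Y : Set ℂ)
    (S2 : Subalgebra ka ℂ) (hY : ∀ y ∈ Y, y ∈ S2) (y : ℂ) (hy : y ∈ Algebra.adjoin k Y) :
    y ∈ S2 := by
  induction hy using Algebra.adjoin_induction with
  | mem y hy => exact hY y hy
  | algebraMap r => exact S2.algebraMap_mem ⟨(r : ℂ), h _ r.2⟩
  | add y z _ _ h1 h2 => exact add_mem h1 h2
  | mul y z _ _ h1 h2 => exact mul_mem h1 h2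

/-- the valuation of a polynomial in `y` with coefficients of value `0` or `1` -/
private theorem fvt_hom (k : Subfield ℂ) {m : ℕ} (a x : Fin (m + 1) → ℂ)
    (hxa : ∀ f : MvPolynomial (Fin (m + 1)) k, aeval x f = 0 ↔ aeval a f = 0) :
    ∃ g : (Algebra.adjoin k (Set.range a)) →+* ℂ, Function.Injective g ∧
      ∀ f : MvPolynomial (Fin (m + 1)) k, ∀ h : (aeval a f : ℂ) ∈ Algebra.adjoin k (Set.range a),
        g ⟨aeval a f, h⟩ = aeval x f := by
  classical
  have hex : ∀ y : Algebra.adjoin k (Set.range a), ∃ f : MvPolynomial (Fin (m + 1)) k,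
      aeval a f = (y : ℂ) := by
    intro y
    have h1 : ∀ z ∈ Algebra.adjoin k (Set.range a), ∃ f : MvPolynomial (Fin (m + 1)) k,
        (aeval a f : ℂ) = z := by
      intro z hz
      rw [Algebra.adjoin_range_eq_range_aeval] at hz
      exact hz
    exact h1 y.1 y.2
  choose F hF using hex
  have key : ∀ f g : MvPolynomial (Fin (m + 1)) k, (aeval a f : ℂ) = aeval a g →
      (aeval x f : ℂ) = aeval x g := by
    intro f g h
    have h1 : (aeval a (f - g) : ℂ) = 0 := by rw [map_sub, h, sub_self]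
    have h2 := (hxa _).2 h1
    rw [map_sub] at h2
    exact sub_eq_zero.1 h2
  let G : (Algebra.adjoin k (Set.range a)) →+* ℂ :=
    { toFun := fun y => aeval x (F y)
      map_one' := by
        have : (aeval a (F 1) : ℂ) = aeval a (1 : MvPolynomial (Fin (m + 1)) k) := by
          rw [hF, map_one]; rfl
        rw [key _ _ this, map_one]
      map_mul' := fun y z => by
        have : (aeval a (F (y * z)) : ℂ) = aeval a (F y * F z) := by
          rw [hF, map_mul, hF, hF]; rfl
        rw [key _ _ this, map_mul]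
      map_zero' := by
        have : (aeval a (F 0) : ℂ) = aeval a (0 : MvPolynomial (Fin (m + 1)) k) := by
          rw [hF, map_zero]; rfl
        rw [key _ _ this, map_zero]
      map_add' := fun y z => by
        have : (aeval a (F (y + z)) : ℂ) = aeval a (F y + F z) := by
          rw [hF, map_add, hF, hF]; rfl
        rw [key _ _ this, map_add] }
  refine ⟨G, ?_, ?_⟩
  · rw [injective_iff_map_eq_zero]
    intro y hy
    have h1 : (aeval x (F y) : ℂ) = 0 := hy
    have h2 := (hxa _).1 h1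
    rw [hF] at h2
    exact Subtype.ext h2
  · intro f h
    exact key _ _ (hF _)

open scoped IntermediateField.algebraAdjoinAdjoin in
private theorem fvt_theta (k : Subfield ℂ) {m : ℕ} (a x : Fin (m + 1) → ℂ)
    (hxa : ∀ f : MvPolynomial (Fin (m + 1)) k, aeval x f = 0 ↔ aeval a f = 0)
    (ka : Subfield ℂ) (hka : ka = Subfield.closure ((k : Set ℂ) ∪ Set.range a))
    (hkka : ∀ c ∈ k, c ∈ ka) (haka : ∀ j, a j ∈ ka) :
    ∃ θ : ka →+* ℂ, (∀ c (hc : c ∈ k), θ ⟨c, hkka c hc⟩ = c) ∧ ∀ j, θ ⟨a j, haka j⟩ = x j := by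
  obtain ⟨g, hg, hgv⟩ := fvt_hom k a x hxa
  have hin : ∀ y ∈ ka, y ∈ IntermediateField.adjoin k (Set.range a) := by
    intro y hy
    rw [hka] at hy
    have : Subfield.closure ((k : Set ℂ) ∪ Set.range a) ≤
        (IntermediateField.adjoin k (Set.range a)).toSubfield := by
      rw [Subfield.closure_le]
      rintro z (hz | hz)
      · exact (IntermediateField.adjoin k (Set.range a)).algebraMap_mem ⟨z, hz⟩
      · exact IntermediateField.subset_adjoin _ _ hz
    exact this hy
  let i : ka →+* IntermediateField.adjoin k (Set.range a) :=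
    { toFun := fun y => ⟨y.1, hin y.1 y.2⟩
      map_one' := rfl
      map_mul' := fun _ _ => rfl
      map_zero' := rfl
      map_add' := fun _ _ => rfl }
  let L : IntermediateField.adjoin k (Set.range a) →+* ℂ := IsFractionRing.lift hg
  have hL : ∀ y : Algebra.adjoin k (Set.range a),
      L (algebraMap (Algebra.adjoin k (Set.range a)) (IntermediateField.adjoin k (Set.range a)) y) =
        g y := fun y => IsFractionRing.lift_algebraMap hg y
  refine ⟨L.comp i, ?_, ?_⟩
  · intro c hc
    have h0 : (aeval a (C ⟨c, hc⟩ : MvPolynomial (Fin (m + 1)) k) : ℂ) = c := by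
      rw [aeval_C]; rfl
    have h1 : (aeval a (C ⟨c, hc⟩ : MvPolynomial (Fin (m + 1)) k) : ℂ) ∈
        Algebra.adjoin k (Set.range a) := by
      rw [aeval_C]
      exact (Algebra.adjoin k (Set.range a)).algebraMap_mem ⟨c, hc⟩
    have h2 : i ⟨c, hkka c hc⟩ = algebraMap (Algebra.adjoin k (Set.range a))
        (IntermediateField.adjoin k (Set.range a)) ⟨_, h1⟩ := Subtype.ext h0.symm
    rw [RingHom.comp_apply, h2, hL, hgv, aeval_C]
    rfl
  · intro j
    have h0 : (aeval a (X j : MvPolynomial (Fin (m + 1)) k) : ℂ) = a j := aeval_X _ _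
    have h1 : (aeval a (X j : MvPolynomial (Fin (m + 1)) k) : ℂ) ∈
        Algebra.adjoin k (Set.range a) := by
      rw [h0]
      exact Algebra.subset_adjoin ⟨j, rfl⟩
    have h2 : i ⟨a j, haka j⟩ = algebraMap (Algebra.adjoin k (Set.range a))
        (IntermediateField.adjoin k (Set.range a)) ⟨_, h1⟩ := Subtype.ext h0.symm
    rw [RingHom.comp_apply, h2, hL, hgv, aeval_X]

private theorem fv_sj (k : Subfield ℂ) {m : ℕ} (a b : Fin (m + 1) → ℂ)
    (htd : td (k : Set ℂ) (Sum.elim a b) = m + 1) (hta : td (k : Set ℂ) a = m)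
    (j0 : Fin (m + 1)) (hj0 : ¬ IsAlgebraic (Algebra.adjoin k (Set.range a)) (b j0)) :
    ∃ (s : Fin m → Fin (m + 1)),
      AlgebraicIndependent k (fun i => a (s i)) ∧
      AlgebraicIndependent k (Fin.snoc (fun i => a (s i)) (b j0) : Fin (m + 1) → ℂ) ∧
      (∀ j, IsAlgebraic (Algebra.adjoin k (Set.range fun i => a (s i))) (a j)) ∧
      (∀ j, IsAlgebraic (Algebra.adjoin k
        (Set.range (Fin.snoc (fun i => a (s i)) (b j0) : Fin (m + 1) → ℂ))) (b j)) := by
  obtain ⟨s, hs⟩ := td_basis k a hta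
  have ha : ∀ j, IsAlgebraic (Algebra.adjoin k (Set.range fun i => a (s i))) (a j) := fun j =>
    fv_alg k hs a hta.le fun D _ hz => ⟨fun i => hz (s i), hz j⟩
  have hj1 : ¬ IsAlgebraic (Algebra.adjoin k (Set.range fun i => a (s i))) (b j0) := by
    intro h
    apply hj0
    refine fv_le _ _ (fun y hy => fv_adj (fun c hc => hc) _ _ ?_ y hy) _ h
    rintro y ⟨i, rfl⟩
    exact Algebra.subset_adjoin ⟨s i, rfl⟩
  have ht := fv_option k hs hj1
  refine ⟨s, hs, ht, ha, fun j => ?_⟩
  refine fv_alg k ht (Sum.elim a b) htd.le fun D _ hz => ⟨fun i => ?_, hz (Sum.inr j)⟩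
  refine Fin.lastCases ?_ (fun l => ?_) i
  · rw [Fin.snoc_last]
    exact hz (Sum.inr j0)
  · rw [Fin.snoc_castSucc]
    exact hz (Sum.inl (s l))

theorem fibre_tupleV (k : Subfield ℂ) {m : ℕ} (a b : Fin (m + 1) → ℂ) (hb : ∀ j, b j ≠ 0)
    (htd : td (k : Set ℂ) (Sum.elim a b) = m + 1) (hta : td (k : Set ℂ) a = m)
    (j0 : Fin (m + 1)) (hj0 : ¬ IsAlgebraic (Algebra.adjoin k (Set.range a)) (b j0))
    (x : Fin (m + 1) → ℂ)
    (hxa : ∀ f : MvPolynomial (Fin (m + 1)) k, aeval x f = 0 ↔ aeval a f = 0) :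
    ∃ Q : Ideal (MvPolynomial (Fin (m + 1)) ℂ), Q.IsPrime ∧
      (∀ j : Fin (m + 1), (X j : MvPolynomial (Fin (m + 1)) ℂ) ∉ Q) ∧
      Algebra.trdeg ℂ (MvPolynomial (Fin (m + 1)) ℂ ⧸ Q) = 1 ∧
      (∀ e : ℂ, (X j0 - C e : MvPolynomial (Fin (m + 1)) ℂ) ∉ Q) ∧
      ∀ w : Fin (m + 1) → ℂ, (∀ g ∈ Q, eval w g = 0) →
        Spec k (Sum.elim a b) (Sum.elim x w) := by
  classical
  obtain ⟨s, hs, ht, haa, hba⟩ := fv_sj k a b htd hta j0 hj0
  obtain ⟨ka, hka⟩ : ∃ ka : Subfield ℂ, ka = Subfield.closure ((k : Set ℂ) ∪ Set.range a) :=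
    ⟨_, rfl⟩
  have hkka : ∀ c ∈ k, c ∈ ka := fun c hc => by rw [hka]; exact Subfield.subset_closure (Or.inl hc)
  have haka : ∀ j, a j ∈ ka := fun j => by rw [hka]; exact Subfield.subset_closure (Or.inr ⟨j, rfl⟩)
  obtain ⟨θ, hθk, hθa⟩ := fvt_theta k a x hxa ka hka hkka haka
  -- `b j0` is transcendental over `ka`
  have hbt : AlgebraicIndependent ka (fun _ : Fin 1 => b j0) := by
    refine (algebraicIndependent_unique_type_iff (ι := Fin 1)).2 ?_
    intro halg
    have h1 : td (k : Set ℂ) (Fin.snoc (fun i => a (s i)) (b j0) : Fin (m + 1) → ℂ) ≤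
        td (k : Set ℂ) a := by
      refine rk_le_of_dep _ _ _ ?_
      intro D hD hz i
      have hDka : D ∈ DerOver (ka : Set ℂ) := by
        rw [hka, derOver_closure]
        intro y hy
        rcases hy with hy | ⟨j, rfl⟩
        · exact hD y hy
        · exact hz j
      refine Fin.lastCases ?_ (fun j => ?_) i
      · rw [Fin.snoc_last]
        exact derOver_algebraic ka D hDka _ halg
      · rw [Fin.snoc_castSucc]
        exact hz _
    rw [(ind_iff k _).1 ht, hta] at h1
    omega
  -- the other `b j` are algebraic over `ka (b j0)`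
  have hbk : ∀ j, IsAlgebraic (Algebra.adjoin ka (Set.range fun _ : Fin 1 => b j0)) (b j) := by
    intro j
    refine fv_le _ _ (fun y hy => fv_adj hkka _ _ ?_ y hy) _ (hba j)
    rintro y ⟨i, rfl⟩
    refine Fin.lastCases ?_ (fun j => ?_) i
    · rw [Fin.snoc_last]
      exact Algebra.subset_adjoin ⟨0, rfl⟩
    · rw [Fin.snoc_castSucc]
      exact (Algebra.adjoin ka (Set.range fun _ : Fin 1 => b j0)).algebraMap_mem
        ⟨a (s j), haka _⟩
  obtain ⟨Ω, i1, i2, i3, T, hT⟩ := fv_omega
  obtain ⟨Q, hQ, hQY, hQd, hQe, hQg⟩ := fv_aux0 Ω T hT ka θ b hb j0 hbt hbk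
  refine ⟨Q, hQ, hQY, hQd, hQe, ?_⟩
  intro w hw f hf0
  -- `g = f(a, Y)`
  let incl : k →+* ka := Subfield.inclusion hkka
  obtain ⟨g, hg⟩ : ∃ g : MvPolynomial (Fin (m + 1)) ka, g = eval₂ (C.comp incl)
    (Sum.elim (fun j => C (⟨a j, haka j⟩ : ka)) X) f := ⟨_, rfl⟩
  have h1 : aeval b g = aeval (Sum.elim a b) f := by
    rw [hg, ← coe_eval₂Hom, ← AlgHom.coe_toRingHom, ← RingHom.comp_apply]
    rw [aeval_def]
    have : ((aeval b : MvPolynomial (Fin (m + 1)) ka →ₐ[ka] ℂ).toRingHom).comp
        (eval₂Hom (C.comp incl) (Sum.elim (fun j => C (⟨a j, haka j⟩ : ka)) X)) =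
        eval₂Hom (algebraMap k ℂ) (Sum.elim a b) := by
      apply MvPolynomial.ringHom_ext
      · intro r
        rw [RingHom.comp_apply, eval₂Hom_C, eval₂Hom_C, RingHom.comp_apply]
        exact aeval_C _ _
      · intro i
        rw [RingHom.comp_apply, eval₂Hom_X', eval₂Hom_X']
        cases i with
        | inl j => exact aeval_C _ _
        | inr j => exact aeval_X _ _
    exact congrArg (fun h => h f) this
  have h2 := hQg g (h1.trans hf0)
  have h3 := hw _ h2
  have h4 : eval w (map θ g) = aeval (Sum.elim x w) f := by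
    rw [hg, ← coe_eval₂Hom, ← RingHom.comp_apply, ← RingHom.comp_apply, aeval_def]
    have : ((eval w).comp (map θ)).comp
        (eval₂Hom (C.comp incl) (Sum.elim (fun j => C (⟨a j, haka j⟩ : ka)) X)) =
        eval₂Hom (algebraMap k ℂ) (Sum.elim x w) := by
      apply MvPolynomial.ringHom_ext
      · intro r
        rw [RingHom.comp_apply, eval₂Hom_C, eval₂Hom_C, RingHom.comp_apply, RingHom.comp_apply,
          map_C, eval_C]
        exact hθk r r.2
      · intro i
        rw [RingHom.comp_apply, eval₂Hom_X', eval₂Hom_X']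
        cases i with
        | inl j =>
          rw [Sum.elim_inl, Sum.elim_inl, RingHom.comp_apply, map_C, eval_C]
          exact hθa j
        | inr j =>
          rw [Sum.elim_inr, Sum.elim_inr, RingHom.comp_apply, map_X, eval_X]
    exact congrArg (fun h => h f) this
  rw [← h4]
  exact h3

end Pool.Agent.EXV
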