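import Mathlib

/-!
# EXV / GrowL: three lemmas for GrowV (helper90)
-/

set_option autoImplicit false

namespace Pool.Agent.EXV

open MvPolynomial Filter

private theorem ind_of_left_inv (k : Subfield ℂ) {m : ℕ} (W V : Matrix (Fin m) (Fin m) k)
    (hWV : W * V = 1) (α : Fin m → ℂ) (hα : AlgebraicIndependent k α) :
    AlgebraicIndependent k (fun j => ∑ l, (W j l : ℂ) * α l) := by
  rw [algebraicIndependent_iff] at hα ⊢
  intro p hp
  have h1 : aeval α (aeval (fun j => ∑ l, C (W j l) * X l : Fin m → MvPolynomial (Fin m) k) p) =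
      aeval (fun j => ∑ l, (W j l : ℂ) * α l) p := by
    rw [← AlgHom.comp_apply, comp_aeval]
    congr 2
    funext j
    simp only [map_sum, map_mul, aeval_X, aeval_C]
    rfl
  have h2 := hα _ (h1.trans hp)
  have h3 : aeval (fun j => ∑ l, C (V j l) * X l : Fin m → MvPolynomial (Fin m) k)
      (aeval (fun j => ∑ l, C (W j l) * X l : Fin m → MvPolynomial (Fin m) k) p) = p := by
    rw [← AlgHom.comp_apply, comp_aeval]
    have : (fun j => (aeval (fun j => ∑ l, C (V j l) * X l : Fin m → MvPolynomial (Fin m) k))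
        (∑ l, C (W j l) * X l)) = (X : Fin m → MvPolynomial (Fin m) k) := by
      funext j
      have e1 : ∀ l, (aeval (fun j => ∑ l, C (V j l) * X l : Fin m → MvPolynomial (Fin m) k))
          (C (W j l) * X l) = ∑ i, C (W j l * V l i) * X i := by
        intro l
        rw [map_mul, aeval_X, ← algebraMap_eq, AlgHom.commutes, algebraMap_eq, Finset.mul_sum]
        refine Finset.sum_congr rfl fun i _ => ?_
        rw [C_mul, mul_assoc]
      rw [map_sum, Finset.sum_congr rfl fun l _ => e1 l, Finset.sum_comm]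
      have e2 : ∀ i, ∑ l, C (W j l * V l i) * (X i : MvPolynomial (Fin m) k) =
          C ((1 : Matrix (Fin m) (Fin m) k) j i) * X i := by
        intro i
        rw [← Finset.sum_mul, ← map_sum, ← hWV, Matrix.mul_apply]
      rw [Finset.sum_congr rfl fun i _ => e2 i, Finset.sum_eq_single j]
      · rw [Matrix.one_apply_eq, C_1, one_mul]
      · intro i _ hi
        rw [Matrix.one_apply_ne (Ne.symm hi), C_0, zero_mul]
      · intro h
        exact absurd (Finset.mem_univ _) h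
    rw [this, aeval_X_left_apply]
  rw [← h3, h2, map_zero]

theorem ind_block (k : Subfield ℂ) {m : ℕ} (W : Matrix (Fin m) (Fin m) ℤ) (hW : W.det ≠ 0)
    (α : Fin m → ℂ) (hα : AlgebraicIndependent k α) :
    AlgebraicIndependent k (fun j => ∑ l, (W j l : ℂ) * α l) := by
  set W' : Matrix (Fin m) (Fin m) k := W.map (Int.cast : ℤ → k) with hW'
  have hdet : W'.det ≠ 0 := by
    have h1 : W'.det = ((W.det : ℤ) : k) := by
      have := (RingHom.map_det (Int.castRingHom k) W).symm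
      simpa [hW'] using this
    rw [h1]
    exact_mod_cast hW
  have h := ind_of_left_inv k W' W'⁻¹ (Matrix.mul_nonsing_inv _ (isUnit_iff_ne_zero.2 hdet)) α hα
  have e : (fun j => ∑ l, ((W' j l : k) : ℂ) * α l) = fun j => ∑ l, (W j l : ℂ) * α l := by
    funext j
    refine Finset.sum_congr rfl fun l _ => ?_
    rw [hW', Matrix.map_apply]
    norm_cast
  rwa [e] at h

theorem det_block {m : ℕ} (M : Matrix (Fin (m + 1)) (Fin (m + 1)) ℤ) (hM : M.det ≠ 0)
    (hM0 : ∀ j : Fin m, M j.succ 0 = 0) :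
    (Matrix.of fun j l : Fin m => M j.succ l.succ).det ≠ 0 := by
  intro h
  apply hM
  rw [Matrix.det_succ_column_zero, Fin.sum_univ_succ]
  have h1 : (M.submatrix (Fin.succAbove 0) Fin.succ).det = 0 := by
    rw [← h]
    congr 1
  rw [h1, mul_zero, zero_add]
  refine Finset.sum_eq_zero fun j _ => ?_
  rw [hM0 j, mul_zero, zero_mul]

theorem grow_est (ε : ℝ) (hε : 0 < ε) (g : ℝ) (hg : 1 ≤ g) (t0 : ℂ) (ht0 : t0.re = 0)
    (S : ℝ → ℂ → Prop)
    (h : ∃ᶠ T : ℝ in atTop, ∃ x, S T x ∧ x.re ≤ -T ^ ε * (1 + ‖x‖ / T)) :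
    ∃ᶠ T : ℝ in atTop, ∃ x, S T x ∧
      ((g : ℂ) * x + T * t0).re ≤ -T ^ (ε / 2) * (1 + ‖(g : ℂ) * x + T * t0‖ / T) := by
  have h1 : ∀ᶠ T : ℝ in atTop, 1 + g + ‖t0‖ ≤ T ^ (ε / 2) :=
    (tendsto_rpow_atTop (by positivity : 0 < ε / 2)).eventually_ge_atTop _
  have h2 : ∀ᶠ T : ℝ in atTop, 0 < T := eventually_gt_atTop 0
  refine (h.and_eventually (h1.and h2)).mono ?_
  rintro T ⟨⟨x, hS, hx⟩, hT1, hT0⟩
  refine ⟨x, hS, ?_⟩
  have e1 : ((g : ℂ) * x + T * t0).re = g * x.re := by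
    rw [Complex.add_re, Complex.re_ofReal_mul, Complex.re_ofReal_mul, ht0, mul_zero, add_zero]
  have e2 : ‖(g : ℂ) * x + T * t0‖ / T ≤ g * (‖x‖ / T) + ‖t0‖ := by
    rw [div_le_iff₀ hT0]
    refine (norm_add_le _ _).trans ?_
    rw [norm_mul, norm_mul, Complex.norm_real, Complex.norm_real, Real.norm_eq_abs,
      Real.norm_eq_abs, abs_of_pos (by linarith : 0 < g), abs_of_pos hT0]
    have : (g * (‖x‖ / T) + ‖t0‖) * T = g * ‖x‖ + T * ‖t0‖ := by
      field_simp
    rw [this]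
  have hq : 0 ≤ ‖x‖ / T := by positivity
  have e3 : 1 + ‖(g : ℂ) * x + T * t0‖ / T ≤ (1 + g + ‖t0‖) * (1 + ‖x‖ / T) := by
    have h3 : 0 ≤ (1 + ‖t0‖) * (‖x‖ / T) := by positivity
    nlinarith [norm_nonneg t0]
  have hp : 0 < T ^ (ε / 2) := Real.rpow_pos_of_pos hT0 _
  have e4 : T ^ ε = T ^ (ε / 2) * T ^ (ε / 2) := by
    rw [← Real.rpow_add hT0]
    congr 1
    ring
  have e5 : T ^ (ε / 2) * (1 + ‖(g : ℂ) * x + T * t0‖ / T) ≤ T ^ ε * (1 + ‖x‖ / T) := by
    rw [e4, mul_assoc]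
    refine mul_le_mul_of_nonneg_left ?_ hp.le
    exact e3.trans (mul_le_mul_of_nonneg_right hT1 (by positivity))
  rw [e1]
  have e6 : g * x.re ≤ g * (-T ^ ε * (1 + ‖x‖ / T)) := mul_le_mul_of_nonneg_left hx (by linarith)
  have e7 : g * (-T ^ ε * (1 + ‖x‖ / T)) ≤ -T ^ ε * (1 + ‖x‖ / T) := by
    have h3 : 0 ≤ T ^ ε * (1 + ‖x‖ / T) := by positivity
    nlinarith
  linarith

end Pool.Agent.EXV
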