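import Pool.Agent.EXV.Defs
import Pool.Agent.EXV.ConclV
import Pool.Agent.EXZ.FibreZ
import Pool.Agent.EXZ.GradZ
import Pool.Agent.EXK2.Fin
import Pool.Agent.EXG.Rz
import Pool.Agent.EXG.Rd
import Pool.Agent.EXG.Gz
import Pool.Agent.EXP.Main

/-!
# EXV / MainAd: the theorem, order vector `g e_0`, `G` depends on the coordinates `ι` only, without integer period there

PROOF.  If `Growth F v`: `EXK2.main2`. Otherwise as EXW/ConclT + EXZ/FinC: `exists_generic2`, descent, `exists_pl_of_val`, real zero `β` of `G` (with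
`R := G ^ (a0 - 1) * R`), gradient (EXZ/GradZ) for `G` with `R := 1`, `fibre_curveZ` for `i = 0`, `concl_V`.
-/

set_option autoImplicit false

namespace Pool.Agent.EXV

open MvPolynomial Pool.Agent.EXL Pool.Agent.EXI Pool.Agent.EXK Pool.Agent.EXG Pool.Agent.EXZ

private lemma aeval_eq (k : Subfield ℂ) {ι : Type} (x : ι → ℂ) (f : MvPolynomial ι k) :
    aeval x f = eval x (map (algebraMap k ℂ) f) := by
  rw [eval_map, aeval_def]

private lemma map_hc (k : Subfield ℂ) {ι : Type} (i : ℕ) (f : MvPolynomial ι k) :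
    map (algebraMap k ℂ) (homogeneousComponent i f) =
      homogeneousComponent i (map (algebraMap k ℂ) f) := by
  ext d
  rw [coeff_map, coeff_homogeneousComponent, coeff_homogeneousComponent, coeff_map]
  split_ifs with h
  · rfl
  · exact map_zero _

private lemma tdeg_map (k : Subfield ℂ) {ι : Type} (f : MvPolynomial ι k) :
    (map (algebraMap k ℂ) f).totalDegree = f.totalDegree := by
  rw [totalDegree, totalDegree, support_map_of_injective f (algebraMap k ℂ).injective]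

/-- a vector whose `ι`-part is not zero is not a period -/
private lemma not_period {m N : ℕ} (G : MvPolynomial (Fin (m + 1)) ℂ) (ι : Fin N → Fin (m + 1))
    (hι : Function.Injective ι) (G' : MvPolynomial (Fin N) ℂ) (hG' : G = rename ι G')
    (hper : ∀ v : Fin N → ℤ, v ≠ 0 → ∃ x : Fin N → ℂ, eval (fun l => x l + v l) G' ≠ eval x G')
    (v : Fin (m + 1) → ℤ) (hv : ∃ l, v (ι l) ≠ 0) :
    ∃ x : Fin (m + 1) → ℂ, eval (fun j => x j + v j) G ≠ eval x G := by
  classical
  obtain ⟨l, hl⟩ := hv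
  obtain ⟨x, hx⟩ := hper (fun l => v (ι l)) (by
    intro h
    exact hl (congrFun h l))
  refine ⟨fun j => if h : ∃ l, ι l = j then x h.choose else 0, ?_⟩
  have h1 : ∀ l, (if h : ∃ l', ι l' = ι l then x h.choose else 0) = x l := by
    intro l
    have h : ∃ l', ι l' = ι l := ⟨l, rfl⟩
    rw [dif_pos h]
    exact congrArg x (hι h.choose_spec)
  rw [hG', eval_rename, eval_rename]
  have h2 : ((fun j => (if h : ∃ l, ι l = j then x h.choose else 0) + (v j : ℂ)) ∘ ι) =
      fun l => x l + (v (ι l) : ℂ) := by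
    funext l
    simp only [Function.comp_apply]
    rw [h1]
  have h3 : ((fun j => (if h : ∃ l, ι l = j then x h.choose else 0)) ∘ ι) = x := by
    funext l
    exact h1 l
  rw [h2, h3]
  exact hx

private theorem fg_adjoin (k : Subfield ℂ) {ι : Type} [Fintype ι] (z : ι → ℂ) :
    ∃ S : Finset (IntermediateField.adjoin k (Set.range z)),
      IntermediateField.adjoin k (S : Set (IntermediateField.adjoin k (Set.range z))) = ⊤ := by
  classical
  set K := IntermediateField.adjoin k (Set.range z) with hK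
  have hz : ∀ i, z i ∈ K := fun i => IntermediateField.subset_adjoin k _ ⟨i, rfl⟩
  refine ⟨Finset.univ.image (fun i => (⟨z i, hz i⟩ : K)), ?_⟩
  rw [eq_top_iff]
  intro x _
  set L := IntermediateField.adjoin k
    ((Finset.univ.image (fun i => (⟨z i, hz i⟩ : K)) : Finset K) : Set K) with hL
  have h1 : K ≤ L.map K.val := by
    refine IntermediateField.adjoin_le_iff.2 ?_
    rintro _ ⟨i, rfl⟩
    refine ⟨⟨z i, hz i⟩, ?_, rfl⟩
    apply IntermediateField.subset_adjoin
    simp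
  obtain ⟨y, hy, hyx⟩ := h1 x.2
  have : y = x := Subtype.ext hyx
  rw [← this]
  exact hy

theorem mainAd {m N : ℕ} (hN : 2 ≤ N)
    (P : Ideal (MvPolynomial (Fin (m + 1) ⊕ Fin (m + 1)) ℂ)) (F : MvPolynomial (Fin (m + 1)) ℂ)
    (w : Valuation (MvPolynomial (Fin (m + 1) ⊕ Fin (m + 1)) ℂ) (WithZero (Multiplicative ℤ)))
    (v : Fin (m + 1) → ℤ) (hD : Dat P F w v) (hv0 : 0 < v 0) (hv1 : ∀ j : Fin m, v j.succ = 0)
    (G R : MvPolynomial (Fin (m + 1)) ℂ) (r a0 : ℕ) (ha0 : 1 ≤ a0)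
    (hL : homogeneousComponent F.totalDegree F = G ^ a0 * R)
    (hGh : G.IsHomogeneous r) (hG : Irreducible G) (hGR : ¬ G ∣ R)
    (ι : Fin N → Fin (m + 1)) (hι : Function.Injective ι) (h0ι : ∃ l, ι l = 0)
    (G' : MvPolynomial (Fin N) ℂ) (hG' : G = rename ι G')
    (hper : ∀ v : Fin N → ℤ, v ≠ 0 → ∃ x : Fin N → ℂ, eval (fun l => x l + v l) G' ≠ eval x G') :
    Dense P := by
  classical
  obtain ⟨hP, hY, hdim, hF0, hF, hw, hwx, hwv⟩ := hD
  intro h hh
  have hvn : v ≠ 0 := by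
    rintro rfl
    exact absurd hv0 (by simp)
  have hvA : ∃ l, v (ι l) ≠ 0 := by
    obtain ⟨l, hl⟩ := h0ι
    exact ⟨l, by rw [hl]; exact hv0.ne'⟩
  by_cases hgr : EXK2.Growth F v
  · exact EXK2.main2 P hP hY hdim F hF0 hF w hw hwx v hvn hwv hgr h hh
  have hvper := not_period G ι hι G' hG' hper v hvA
  have hR : R ≠ 0 := by
    rintro rfl
    exact hGR (dvd_zero _)
  have hvN : ¬ NonHypC (homogeneousComponent F.totalDegree F) v :=
    fun h1 => hgr (EXK2.growth_of_nonhyp F v h1)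
  have hLL : homogeneousComponent F.totalDegree F = G * (G ^ (a0 - 1) * R) := by
    obtain ⟨s, rfl⟩ : ∃ s, a0 = s + 1 := ⟨a0 - 1, by omega⟩
    rw [hL, Nat.add_sub_cancel, pow_succ]
    ring
  have hRR : G ^ (a0 - 1) * R ≠ 0 := mul_ne_zero (pow_ne_zero _ hG.ne_zero) hR
  have hconj : G ∣ map (starRingEnd ℂ) G := by
    by_contra hconj
    apply hvN
    rw [hLL]
    exact nonreal_factor G _ r hGh hG hconj hRR v hvper
  obtain ⟨k, hk, p, hC, hp, hx⟩ := exists_generic2 P hP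
    (((h.coeffs : Set ℂ) ∪ (F.coeffs : Set ℂ)) ∪
      (((G.coeffs : Set ℂ) ∪ (R.coeffs : Set ℂ)) ∪ {Complex.I}))
    (((Finset.countable_toSet _).union (Finset.countable_toSet _)).union
      (((Finset.countable_toSet _).union (Finset.countable_toSet _)).union
        (Set.countable_singleton _)))
  have hI : Complex.I ∈ k := hC (Or.inr (Or.inr rfl))
  obtain ⟨h₀, hh₀⟩ := exists_descent k h (fun c hc => hC (Or.inl (Or.inl hc)))
  obtain ⟨F₀, hF₀⟩ := exists_descent k F (fun c hc => hC (Or.inl (Or.inr hc)))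
  obtain ⟨G₀, hG₀⟩ := exists_descent k G (fun c hc => hC (Or.inr (Or.inl (Or.inl hc))))
  obtain ⟨R₀, hR₀⟩ := exists_descent k R (fun c hc => hC (Or.inr (Or.inl (Or.inr hc))))
  have hinj : Function.Injective (map (algebraMap k ℂ) :
      MvPolynomial (Fin (m + 1)) k → MvPolynomial (Fin (m + 1)) ℂ) :=
    map_injective _ (algebraMap k ℂ).injective
  have hpe : Sum.elim (fun j => p (Sum.inl j)) (fun j => p (Sum.inr j)) = p := by
    funext i
    rcases i with i | i <;> rfl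
  have hb : ∀ j, p (Sum.inr j) ≠ 0 := by
    intro j h0
    apply hY j
    have h2 := (hp (X (Sum.inr j))).1 (by rw [aeval_X, h0])
    rwa [map_X] at h2
  have hk0 : F₀ ≠ 0 := by
    rintro rfl
    rw [map_zero] at hF₀
    exact hF0 hF₀.symm
  have hker : ∀ f : MvPolynomial (Fin (m + 1)) k,
      aeval (fun j => p (Sum.inl j)) f = 0 ↔ F₀ ∣ f := by
    intro f
    have h1 : aeval (fun j => p (Sum.inl j)) f = aeval p (rename Sum.inl f) := by
      rw [aeval_rename]
      rfl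
    rw [h1, hp, map_rename, hF, ← hF₀]
    exact ⟨dvd_of_map k F₀ f, fun h2 => map_dvd (map (algebraMap k ℂ)) h2⟩
  have htd := td_of_trdeg P hP k hk p hp hx (m + 1) hdim
  have hta := td_of_ker k (fun j => p (Sum.inl j)) F₀ hk0 hker
  -- the leading form
  have hL₀ : homogeneousComponent F₀.totalDegree F₀ = G₀ ^ a0 * R₀ := by
    apply hinj
    rw [map_mul, map_pow, map_hc, ← tdeg_map, hF₀, hG₀, hR₀, hL]
  have hG₀h : G₀.IsHomogeneous r := by
    rw [← hG₀] at hGh
    exact IsHomogeneous.of_map (algebraMap k ℂ).injective hGh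
  have hirr : Irreducible (map (algebraMap k ℂ) G₀) := by rw [hG₀]; exact hG
  have hG₀0 : G₀ ≠ 0 := by
    rintro rfl
    rw [map_zero] at hirr
    exact hirr.ne_zero rfl
  have hGR₀ : ¬ G₀ ∣ R₀ := by
    intro hd
    apply hGR
    rw [← hG₀, ← hR₀]
    exact map_dvd (map (algebraMap k ℂ)) hd
  have hR₀0 : R₀ ≠ 0 := by
    rintro rfl
    exact hGR₀ (dvd_zero _)
  have hG1 : ¬ G₀ ∣ (1 : MvPolynomial (Fin (m + 1)) k) := by
    intro h1
    exact hirr.not_isUnit ((isUnit_of_dvd_one h1).map (map (algebraMap k ℂ)))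
  have hconj₀ : map (algebraMap k ℂ) G₀ ∣ map (starRingEnd ℂ) (map (algebraMap k ℂ) G₀) := by
    rw [hG₀]
    exact hconj
  have hvN₀ : ¬ NonHypC (map (algebraMap k ℂ) (G₀ * (G₀ ^ (a0 - 1) * R₀))) v := by
    rw [map_mul, map_mul, map_pow, hG₀, hR₀, ← hLL]
    exact hvN
  obtain ⟨β, hβ⟩ := exists_real_zero k hk G₀ (G₀ ^ (a0 - 1) * R₀) r hG₀h hirr
    (mul_ne_zero (pow_ne_zero _ hG₀0) hR₀0) v (by rw [hG₀]; exact hvper) hvN₀
  obtain ⟨c, μ, hμ, hcι, hc0, hd, hind⟩ := gradZ k hI G₀ 1 r hG₀h hirr hG1 ι hι h0ι G'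
    (by rw [hG₀]; exact hG') hper hconj₀ β hβ
  -- independence of `a_1, .., a_m`
  have hdegG : 0 < degreeOf 0 G := by
    by_contra hcon
    have h0 : degreeOf 0 G = 0 := by omega
    obtain ⟨l, hl⟩ := h0ι
    obtain ⟨x, hxv⟩ := not_period G ι hι G' hG' hper (Pi.single 0 1) ⟨l, by rw [hl]; simp⟩
    apply hxv
    rw [eval_eq, eval_eq]
    refine Finset.sum_congr rfl fun μ hμ => ?_
    congr 1
    refine Finset.prod_congr rfl fun j _ => ?_
    by_cases hj : j = 0
    · subst hj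
      have h1 := monomial_le_degreeOf 0 hμ
      have h2 : μ 0 = 0 := by omega
      rw [h2, pow_zero, pow_zero]
    · simp [hj]
  have hdeg : 0 < degreeOf 0 F := EXP.degreeOf_pos_of_top F G _ hF0 hdegG hLL
  have ha : AlgebraicIndependent k (fun j : Fin m => p (Sum.inl j.succ)) := by
    rw [algebraicIndependent_iff]
    intro f hf
    by_contra hf0
    have h1 : aeval (fun j => p (Sum.inl j)) (rename Fin.succ f) = 0 := by
      rw [aeval_rename]
      exact hf
    have h2 := (hker _).1 h1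
    have h3 : F ∣ rename Fin.succ (map (algebraMap k ℂ) f) := by
      rw [← hF₀, ← map_rename]
      exact map_dvd (map (algebraMap k ℂ)) h2
    refine EXP.not_dvd_rename F hdeg (map (algebraMap k ℂ) f) ?_ h3
    intro h4
    apply hf0
    exact map_injective _ (algebraMap k ℂ).injective (by rw [h4, map_zero])
  obtain ⟨l0, hl0⟩ := h0ι
  have hfib : ∀ x : Fin (m + 1) → ℂ, AlgebraicIndependent k (fun j : Fin m => x j.succ) →
      aeval x F₀ = 0 → ∃ Q : Ideal (MvPolynomial (Fin (m + 1)) ℂ), Q.IsPrime ∧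
      (∀ j : Fin (m + 1), (X j : MvPolynomial (Fin (m + 1)) ℂ) ∉ Q) ∧
      Algebra.trdeg ℂ (MvPolynomial (Fin (m + 1)) ℂ ⧸ Q) = 1 ∧
      (∀ e : ℂ, (X (ι l0) - C e : MvPolynomial (Fin (m + 1)) ℂ) ∉ Q) ∧
      ∀ w : Fin (m + 1) → ℂ, (∀ g ∈ Q, eval w g = 0) →
        Spec k (Sum.elim (fun j => p (Sum.inl j)) (fun j => p (Sum.inr j))) (Sum.elim x w) := by
    intro x hx' hxF
    obtain ⟨Q, hQ, hQY, hQd, hQe, hQw⟩ := fibre_curveZ P hP hY hdim F hF0 hF w hw hwx v hwv
      (ι l0) (by rw [hl0]; exact hv0.ne') k hk p hp hx x (by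
        intro f
        rw [hker f]
        exact gen_zero k F₀ hk0 (fun j => p (Sum.inl j)) hker ha x hx' hxF f)
    refine ⟨Q, hQ, hQY, hQd, hQe, ?_⟩
    intro w hw
    rw [hpe]
    intro f hf
    rw [aeval_eq]
    exact hQw w hw _ ((hp f).1 hf)
  -- the place
  obtain ⟨pl, A, B, v', g, θ, hg, hvg, hA, hB, hθ, hrel, hε⟩ := EXK2.exists_pl_of_val k hk P w hw
    (fun f hf => hwx f fun hd => hf ((hF f).2 hd)) v hvn hwv (fun j => p (Sum.inl j))
    (fun j => p (Sum.inr j)) (by rw [hpe]; exact hp)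
  have hv'0 : 0 < v' 0 := by
    have h1 := hvg 0
    rw [h1] at hv0
    by_contra h2
    push Not at h2
    nlinarith
  have hv'1 : ∀ j : Fin m, v' j.succ = 0 := by
    intro j
    have h1 := hvg j.succ
    rw [hv1] at h1
    rcases mul_eq_zero.1 h1.symm with h2 | h2
    · exact absurd h2 hg.ne'
    · exact h2
  have hBm : ∀ j, ∃ B' : pl.O, (B' : IntermediateField.adjoin k
      (Set.range (Sum.elim (fun j => p (Sum.inl j)) fun j => p (Sum.inr j)))) = B j ∧
      (j = 0 → pl.ρ B' = 0) ∧ (j ≠ 0 → pl.ρ B' ≠ 0) := by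
    intro j
    obtain ⟨ε, hε0, hε1⟩ := hε j
    rcases Fin.eq_zero_or_eq_succ j with rfl | ⟨i, rfl⟩
    · obtain ⟨s, hs⟩ : ∃ s : ℕ, v' 0 = s + 1 := ⟨(v' 0 - 1).toNat, by omega⟩
      refine ⟨(⟨pl.t, pl.t_mem⟩ : pl.O) ^ (s + 1) * ε, ?_, fun _ => ?_, fun h1 => absurd rfl h1⟩
      · rw [hε1, hs]
        push_cast
        rfl
      · rw [map_mul, map_pow, pl.ρt, zero_pow (Nat.succ_ne_zero s), zero_mul]
    · refine ⟨ε, ?_, fun h1 => absurd h1 (Fin.succ_ne_zero i), fun _ => hε0⟩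
      rw [hε1, hv'1 i, zpow_zero, one_mul]
  choose B' hB'1 hB'2 hB'3 using hBm
  obtain ⟨a', b', hexp, hsp, hne⟩ := concl_V k hk hN (fun j => p (Sum.inl j))
    (fun j => p (Sum.inr j)) hb F₀ hk0 hker (by rw [hpe]; exact htd) hta ha F₀.totalDegree
    (fun i => homogeneousComponent i F₀) (fun i => homogeneousComponent_isHomogeneous i F₀)
    (sum_homogeneousComponent F₀).symm G₀ R₀ r a0 ha0 hG₀h hL₀ hGR₀ ι hι ⟨l0, hl0⟩ l0 hfib β hβ
    hind c hcι hc0 μ hμ (by
      intro j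
      have h1 := hd j
      rwa [mul_one] at h1)
    (IntermediateField.adjoin k (Set.range (Sum.elim (fun j => p (Sum.inl j))
      fun j => p (Sum.inr j)))) (fg_adjoin k _)
    (td_not_ind k (Sum.elim (fun j => p (Sum.inl j)) fun j => p (Sum.inr j))
      (by rw [hpe]; exact htd)) pl θ B' (fun j => by rw [hθ j]; exact hA j)
    (fun j => by rw [hB'1 j]; exact hB j) (hB'2 0 rfl) (fun j => hB'3 _ (Fin.succ_ne_zero j))
    hrel h₀ (by
      rw [hpe]
      intro h0
      exact hh (hh₀ ▸ (hp h₀).1 h0))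
  rw [hpe] at hsp
  have hb' : b' = fun j => Complex.exp (a' j) := funext hexp
  subst hb'
  refine ⟨a', ?_, ?_⟩
  · exact hx _ fun f hf => hsp f ((hp f).2 hf)
  · rw [← hh₀, ← aeval_eq]
    exact hne

end Pool.Agent.EXV
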