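import Pool.Agent.EXZ.SelZ
import Pool.Agent.EXW.BddW

/-!
# EXV / SelV: the chosen points of the frozen fibres, `c` supported in the coordinates `ι`, bounded level

PROOF.  As `EXZ.sel_ptZ` (copy the proof), `EXW.bddW` instead of `EXG.bdd`, level `κ T` for the fibre over `x T` (cf. `EXW.sel_ptW`).
-/

set_option autoImplicit false

namespace Pool.Agent.EXV

open MvPolynomial Pool.Agent.EXL Pool.Agent.EXI Pool.Agent.EXG Topology Filter
open Pool.Agent.EXZ (Good good_ne good_low bdd_other exists_good pair_good proj_curve lift_pt)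

private lemma mem_of {n : ℕ} (Q : Ideal (MvPolynomial (Fin n) ℂ)) (hQ : Q.IsPrime)
    (f : MvPolynomial (Fin n) ℂ)
    (h : ∀ w : Fin n → ℂ, (∀ g ∈ Q, eval w g = 0) → eval w f = 0) : f ∈ Q := by
  rw [← MvPolynomial.IsPrime.vanishingIdeal_zeroLocus (K := ℂ) Q, mem_vanishingIdeal_iff]
  intro x hx
  rw [mem_zeroLocus_iff] at hx
  have h1 := h x fun g hg => by simpa [aeval_eq_eval] using hx g hg
  simpa [aeval_eq_eval] using h1

private lemma transfer {k : Subfield ℂ} {m N n : ℕ} {σ : Type*}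
    (Q : Ideal (MvPolynomial (Fin n) ℂ)) (hQ : Q.IsPrime) (ι : Fin N → Fin n) (s : σ → Fin N)
    (xs : Fin m → ℂ) (p : MvPolynomial (Fin m ⊕ σ) k)
    (h : ∀ w : Fin n → ℂ, (∀ g ∈ Q, eval w g = 0) →
      aeval (Sum.elim xs fun t => w (ι (s t))) p = 0)
    (w' : Fin N → ℂ) (hw' : ∀ f : MvPolynomial (Fin N) ℂ, rename ι f ∈ Q → eval w' f = 0) :
    aeval (Sum.elim xs fun t => w' (s t)) p = 0 := by
  have h1 : ∀ v : Fin N → ℂ,
      eval v (aeval (Sum.elim (fun l => (C (xs l) : MvPolynomial (Fin N) ℂ))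
        fun t => X (s t)) p) = aeval (Sum.elim xs fun t => v (s t)) p := by
    intro v
    have h2 : ((aeval v : MvPolynomial (Fin N) ℂ →ₐ[ℂ] ℂ).restrictScalars k).comp
        (aeval (Sum.elim (fun l => (C (xs l) : MvPolynomial (Fin N) ℂ)) fun t => X (s t))) =
        (aeval (Sum.elim xs fun t => v (s t)) : MvPolynomial (Fin m ⊕ σ) k →ₐ[k] ℂ) := by
      apply MvPolynomial.algHom_ext
      rintro (l | t) <;> simp
    have h3 := DFunLike.congr_fun h2 p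
    simpa [aeval_eq_eval] using h3
  rw [← h1]
  apply hw'
  apply mem_of Q hQ
  intro w hw
  rw [eval_rename, h1]
  exact h w hw

private def Dd (k : Subfield ℂ) {m N : ℕ} (a b : Fin (m + 1) → ℂ) (ι : Fin N → Fin (m + 1))
    (c : Fin (m + 1) → ℝ) (κ : ℝ) (x : Fin (m + 1) → ℂ)
    (Q : Ideal (MvPolynomial (Fin (m + 1)) ℂ)) (b₂ : Fin N → ℂ) : Prop :=
  Q.IsPrime ∧
  (∀ w : Fin (m + 1) → ℂ, (∀ g ∈ Q, eval w g = 0) →
    Spec k (Sum.elim a b) (Sum.elim x w)) ∧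
  (∀ f : MvPolynomial (Fin N) ℂ, rename ι f ∈ Q → eval b₂ f = 0) ∧
  ∑ l, c (ι l) * Real.log ‖b₂ l‖ = κ ∧
  ∀ s : ℝ, 0 < s → ∃ η : Fin N → ℂ, ‖η‖ = s ∧
    (∀ f : MvPolynomial (Fin N) ℂ, rename ι f ∈ Q →
      eval (fun l => b₂ l * Complex.exp (η l)) f = 0) ∧
    (∑ l, (c (ι l) : ℂ) * η l).re = 0

private lemma exists_Dd (k : Subfield ℂ) {m N : ℕ} (a b : Fin (m + 1) → ℂ)
    (ι : Fin N → Fin (m + 1)) (k0 : Fin N)
    (c : Fin (m + 1) → ℝ) (hcι : ∀ v : Fin N → ℤ, v ≠ 0 → ∑ l, c (ι l) * v l ≠ 0) (κ : ℝ)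
    (x : Fin (m + 1) → ℂ)
    (h : ∃ Q : Ideal (MvPolynomial (Fin (m + 1)) ℂ), Q.IsPrime ∧
      (∀ j : Fin (m + 1), (X j : MvPolynomial (Fin (m + 1)) ℂ) ∉ Q) ∧
      Algebra.trdeg ℂ (MvPolynomial (Fin (m + 1)) ℂ ⧸ Q) = 1 ∧
      (∀ e : ℂ, (X (ι k0) - C e : MvPolynomial (Fin (m + 1)) ℂ) ∉ Q) ∧
      ∀ w : Fin (m + 1) → ℂ, (∀ g ∈ Q, eval w g = 0) →
        Spec k (Sum.elim a b) (Sum.elim x w)) :
    ∃ (Q : Ideal (MvPolynomial (Fin (m + 1)) ℂ)) (b₂ : Fin N → ℂ),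
      (∀ l, b₂ l ≠ 0) ∧ Dd k a b ι c κ x Q b₂ := by
  have hlam : ∀ v : Fin N → ℤ, ∑ l, c (ι l) * v l = 0 → v = 0 := by
    intro v hv
    by_contra hne
    exact hcι v hne hv
  obtain ⟨Q, hQ, hY, hd, hk0, hS⟩ := h
  obtain ⟨Q', hQ', hY', hd', hr⟩ := proj_curve Q hQ hY hd ι k0 hk0
  obtain ⟨b₂, hb₂, hκ, hs⟩ := EXP.level Q' hQ' hY' hd' (fun l => c (ι l)) hlam κ
  refine ⟨Q, b₂, hb₂.2, hQ, hS, fun f hf => hb₂.1 f ((hr f).2 hf), hκ, fun s hs0 => ?_⟩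
  obtain ⟨η, h1, h2, h3⟩ := hs s hs0
  exact ⟨η, h1, fun f hf => h2.1 f ((hr f).2 hf), h3⟩

private def eo {m : ℕ} (o : Option (Fin m)) : Fin m ⊕ Unit :=
  o.elim (Sum.inr ()) Sum.inl

private lemma eo_inj {m : ℕ} : Function.Injective (eo (m := m)) := by
  rintro (_ | i) (_ | j) h
  · rfl
  · simp [eo] at h
  · simp [eo] at h
  · simp only [eo, Option.elim_some, Sum.inl.injEq] at h
    rw [h]

private lemma aeval_eo {k : Subfield ℂ} {m : ℕ} (xs : Fin m → ℂ) (y : ℂ)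
    (N : MvPolynomial (Option (Fin m)) k) :
    aeval (Sum.elim xs fun _ : Unit => y) (rename eo N) = aeval (cons y xs) N := by
  rw [aeval_rename]
  congr 1
  congr 1
  funext o
  cases o <;> rfl

private lemma norm_exp_sub {n : ℕ} (𝒰 : Ultrafilter ℕ) (η : ℕ → Fin n → ℂ) (ηi : Fin n → ℂ)
    (h : Tendsto η (𝒰 : Filter ℕ) (𝓝 ηi)) (l : Fin n) :
    Tendsto (fun T => Complex.exp (η T l)) (𝒰 : Filter ℕ) (𝓝 (Complex.exp (ηi l))) :=
  (Complex.continuous_exp.tendsto _).comp ((tendsto_pi_nhds.1 h) l)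

theorem sel_ptV (k : Subfield ℂ) (hk : (k : Set ℂ).Countable) {m N : ℕ} (a b : Fin (m + 1) → ℂ)
    (hb : ∀ j, b j ≠ 0) (htd : td (k : Set ℂ) (Sum.elim a b) = m + 1)
    (P : Fin (m + 1) → Fin (m + 1) → MvPolynomial (Fin m ⊕ Fin 2) k)
    (hP : ∀ i j, i ≠ j → P i j ≠ 0)
    (hPV : ∀ i j, i ≠ j → ∀ x y : Fin (m + 1) → ℂ, Spec k (Sum.elim a b) (Sum.elim x y) →
      aeval (Sum.elim (fun l : Fin m => x l.succ) ![y i, y j]) (P i j) = 0)
    (ι : Fin N → Fin (m + 1)) (hι : Function.Injective ι) (k0 : Fin N)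
    (c : Fin (m + 1) → ℝ) (hcι : ∀ v : Fin N → ℤ, v ≠ 0 → ∑ l, c (ι l) * v l ≠ 0)
    (hc0 : ∀ j, j ∉ Set.range ι → c j = 0) (κ : ℕ → ℝ)
    (β : Fin m → ℝ) (hβ : AlgebraicIndependent k (fun j => Complex.I * (β j : ℂ)))
    (𝒰 : Ultrafilter ℕ) (h𝒰 : (𝒰 : Filter ℕ) ≤ atTop)
    (C0 : ℝ) (hC0 : ∀ᶠ T : ℕ in (𝒰 : Filter ℕ), |κ T| ≤ C0) (x : ℕ → Fin (m + 1) → ℂ)
    (hx : ∀ᶠ T : ℕ in (𝒰 : Filter ℕ), ∀ j : Fin m,
      x T j.succ = Complex.I * (T : ℂ) * (β j : ℂ))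
    (hfib : ∀ᶠ T : ℕ in (𝒰 : Filter ℕ), ∃ Q : Ideal (MvPolynomial (Fin (m + 1)) ℂ), Q.IsPrime ∧
      (∀ j : Fin (m + 1), (X j : MvPolynomial (Fin (m + 1)) ℂ) ∉ Q) ∧
      Algebra.trdeg ℂ (MvPolynomial (Fin (m + 1)) ℂ ⧸ Q) = 1 ∧
      (∀ e : ℂ, (X (ι k0) - C e : MvPolynomial (Fin (m + 1)) ℂ) ∉ Q) ∧
      ∀ w : Fin (m + 1) → ℂ, (∀ g ∈ Q, eval w g = 0) →
        Spec k (Sum.elim a b) (Sum.elim (x T) w)) :
    ∃ (b' : ℕ → Fin (m + 1) → ℂ) (l : Fin N) (θ : ℝ) (η : ℕ → Fin (m + 1) → ℂ)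
      (ηi : Fin (m + 1) → ℂ) (C : ℝ),
      (∀ T j, b' T j ≠ 0) ∧
      (∀ᶠ T : ℕ in (𝒰 : Filter ℕ),
        Spec k (Sum.elim a b) (Sum.elim (x T) fun j => b' T j * Complex.exp (η T j)) ∧
        ‖η T‖ ≤ 1 / 4 ∧ (∑ j, (c j : ℂ) * η T j).re = 0 ∧
        ∑ j, c j * Real.log ‖b' T j‖ = κ T ∧ ∀ j, |Real.log ‖b' T j‖| ≤ C * Real.log T) ∧
      ‖ηi‖ ≤ 1 / 4 ∧ ∑ j, (c j : ℂ) * ηi j = Complex.I * θ ∧
      Tendsto η (𝒰 : Filter ℕ) (𝓝 ηi) ∧
      (∀ N : MvPolynomial (Fin m ⊕ Unit) k, N ≠ 0 → ∃ r : ℝ, 0 < r ∧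
        ∀ᶠ T : ℕ in (𝒰 : Filter ℕ), ∀ (x : Fin m → ℂ) (z : ℂ),
          (∀ j, ‖x j - Complex.I * (T : ℂ) * (β j : ℂ)‖ ≤ √(T : ℝ)) →
          ‖z - Complex.exp (ηi (ι l))‖ ≤ r → aeval (Sum.elim x fun _ => b' T (ι l) * z) N ≠ 0) ∧
      (∀ δ : ℝ, 0 < δ → ∃ δ' r : ℝ, 0 < δ' ∧ δ' < δ ∧ 0 < r ∧
        ∀ᶠ T : ℕ in (𝒰 : Filter ℕ), ∀ j, j ≠ ι l → ∀ (x : Fin m → ℂ) (z ζ : ℂ),
          (∀ l, ‖x l - Complex.I * (T : ℂ) * (β l : ℂ)‖ ≤ √(T : ℝ)) →
          ‖z - Complex.exp (ηi (ι l))‖ ≤ r → ‖ζ - Complex.exp (ηi j)‖ = δ' →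
          aeval (Sum.elim x ![b' T (ι l) * z, b' T j * ζ]) (P (ι l) j) ≠ 0) := by
  classical
  -- the points on the projections
  have h1 : ∀ᶠ T : ℕ in (𝒰 : Filter ℕ), ∃ (Q : Ideal (MvPolynomial (Fin (m + 1)) ℂ))
      (b₂ : Fin N → ℂ), (∀ l, b₂ l ≠ 0) ∧ Dd k a b ι c (κ T) (x T) Q b₂ := by
    filter_upwards [hfib] with T hT
    exact exists_Dd k a b ι k0 c hcι (κ T) (x T) hT
  have h0 : ∀ T : ℕ, ∃ (Q : Ideal (MvPolynomial (Fin (m + 1)) ℂ)) (b₀ : Fin N → ℂ),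
      (∀ l, b₀ l ≠ 0) ∧
      ((∃ (Q : Ideal (MvPolynomial (Fin (m + 1)) ℂ)) (b₂ : Fin N → ℂ),
        (∀ l, b₂ l ≠ 0) ∧ Dd k a b ι c (κ T) (x T) Q b₂) → Dd k a b ι c (κ T) (x T) Q b₀) := by
    intro T
    by_cases hT : ∃ (Q : Ideal (MvPolynomial (Fin (m + 1)) ℂ)) (b₂ : Fin N → ℂ),
        (∀ l, b₂ l ≠ 0) ∧ Dd k a b ι c (κ T) (x T) Q b₂
    · obtain ⟨Q, b₁, h2, h3⟩ := hT
      exact ⟨Q, b₁, h2, fun _ => h3⟩
    · exact ⟨⊤, fun _ => 1, fun j => one_ne_zero, fun h => absurd h hT⟩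
  choose Q2 b2 hb2 using h0
  have hb0 : ∀ T l, b2 T l ≠ 0 := fun T => (hb2 T).1
  have h2 : ∀ᶠ T : ℕ in (𝒰 : Filter ℕ), Dd k a b ι c (κ T) (x T) (Q2 T) (b2 T) := by
    filter_upwards [h1] with T hT
    exact (hb2 T).2 hT
  have hxs : ∀ᶠ T : ℕ in (𝒰 : Filter ℕ),
      (fun l : Fin m => x T l.succ) = fun l => Complex.I * (T : ℂ) * (β l : ℂ) := by
    filter_upwards [hx] with T hxT
    funext l
    exact hxT l
  -- growth on the projections
  obtain ⟨C1, hC1⟩ := EXW.bddW k β hβ (fun l => c (ι l)) hcι (fun i j => P (ι i) (ι j))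
    (fun i j hij => hP _ _ fun h => hij (hι h)) 𝒰 h𝒰 b2 hb0 (by
      filter_upwards [h2, hxs] with T hT hxT i j hij
      have h3 := transfer (Q2 T) hT.1 ι ![i, j] (fun l : Fin m => x T l.succ) (P (ι i) (ι j))
        (by
          intro w hw
          have h4 := hPV (ι i) (ι j) (fun h => hij (hι h)) (x T) w (hT.2.1 w hw)
          have h5 : (fun t => w (ι (![i, j] t))) = ![w (ι i), w (ι j)] := by
            funext t
            fin_cases t <;> rfl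
          rw [h5]
          exact h4) (b2 T) hT.2.2.1
      have h6 : (fun t => b2 T (![i, j] t)) = ![b2 T i, b2 T j] := by
        funext t
        fin_cases t <;> rfl
      rw [h6, hxT] at h3
      exact h3) κ C0 hC0 (h2.mono fun T hT => hT.2.2.2.1)
  obtain ⟨Z, hZ, hgd⟩ := exists_good k hk β hβ 𝒰 h𝒰 b2 hb0
  obtain ⟨l, θ, η2, ηi2, h3, h4, h5, h6, h7⟩ := exists_s (fun l => c (ι l)) 𝒰 Z hZ
    (fun T η => ∀ f : MvPolynomial (Fin N) ℂ, rename ι f ∈ Q2 T →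
      eval (fun l => b2 T l * Complex.exp (η l)) f = 0)
    (by
      filter_upwards [h2] with T hT s hs
      exact hT.2.2.2.2 s hs)
  have hgood : Good k β 𝒰 (fun T => b2 T l) (Complex.exp (ηi2 l)) := hgd l _ h7
  have hz : Tendsto (fun T => Complex.exp (η2 T l)) (𝒰 : Filter ℕ)
      (𝓝 (Complex.exp (ηi2 l))) := norm_exp_sub 𝒰 η2 ηi2 h6 l
  -- no polynomial vanishes at the chosen points
  have hnz : ∀ M : MvPolynomial (Option (Fin m)) k, M ≠ 0 → ∀ᶠ T : ℕ in (𝒰 : Filter ℕ),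
      aeval (cons (b2 T l * Complex.exp (η2 T l)) (fun j => x T j.succ) : Option (Fin m) → ℂ) M
        ≠ 0 := by
    intro M hM
    have hM' : rename eo M ≠ 0 := fun h => hM (rename_injective _ eo_inj (by rw [h, map_zero]))
    obtain ⟨r, hr, hev⟩ := good_ne k β 𝒰 _ _ hgood (rename eo M) hM'
    have hz1 : ∀ᶠ T : ℕ in (𝒰 : Filter ℕ),
        ‖Complex.exp (η2 T l) - Complex.exp (ηi2 l)‖ ≤ r := by
      have := hz (Metric.closedBall_mem_nhds _ hr)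
      filter_upwards [this] with T hT
      simpa [dist_eq_norm] using hT
    filter_upwards [hev, hz1, hxs] with T hT hT1 hxT
    have := hT (fun j => Complex.I * (T : ℂ) * (β j : ℂ)) (Complex.exp (η2 T l))
      (fun j => by simp) hT1
    rw [aeval_eo] at this
    rw [hxT]
    exact this
  have hind : AlgebraicIndependent k (bs (ι l) a b) := by
    by_contra hcon
    obtain ⟨M, hM, hMz⟩ := exists_pair1 k a b (ι l) hcon
    have hne := (hnz M hM).and (h2.and h3)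
    obtain ⟨T, hT1, hT2, hT3⟩ := hne.exists
    apply hT1
    have h8 := transfer (Q2 T) hT2.1 ι (fun _ : Unit => l) (fun j : Fin m => x T j.succ)
      (rename eo M) (by
        intro w hw
        rw [aeval_eo]
        exact hMz (x T) w (hT2.2.1 w hw)) _ hT3.1
    rw [aeval_eo] at h8
    exact h8
  obtain ⟨pr⟩ := exists_prim k a b hb htd (ι l) hind
  have hW1 : ∀ᶠ T : ℕ in (𝒰 : Filter ℕ), ∃ w : Fin (m + 1) → ℂ,
      (∀ l, w (ι l) = b2 T l * Complex.exp (η2 T l)) ∧ (∀ j, w j ≠ 0) ∧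
        Spec k (Sum.elim a b) (Sum.elim (x T) w) := by
    filter_upwards [hnz pr.Dl pr.ne, h2, h3] with T hT1 hT2 hT3
    exact lift_pt pr (Q2 T) hT2.1 (x T) hT2.2.1 ι l rfl _ hT3.1 hT1
  have hW0 : ∀ T : ℕ, ∃ w : Fin (m + 1) → ℂ, (∀ j, w j ≠ 0) ∧
      ((∃ w : Fin (m + 1) → ℂ, (∀ l, w (ι l) = b2 T l * Complex.exp (η2 T l)) ∧
        (∀ j, w j ≠ 0) ∧ Spec k (Sum.elim a b) (Sum.elim (x T) w)) →
      (∀ l, w (ι l) = b2 T l * Complex.exp (η2 T l)) ∧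
        Spec k (Sum.elim a b) (Sum.elim (x T) w)) := by
    intro T
    by_cases hT : ∃ w : Fin (m + 1) → ℂ, (∀ l, w (ι l) = b2 T l * Complex.exp (η2 T l)) ∧
        (∀ j, w j ≠ 0) ∧ Spec k (Sum.elim a b) (Sum.elim (x T) w)
    · obtain ⟨w, hw1, hw2, hw3⟩ := hT
      exact ⟨w, hw2, fun _ => ⟨hw1, hw3⟩⟩
    · exact ⟨fun _ => 1, fun _ => one_ne_zero, fun h => absurd h hT⟩
  choose W hWne hW using hW0
  have hW2 : ∀ᶠ T : ℕ in (𝒰 : Filter ℕ),
      (∀ l, W T (ι l) = b2 T l * Complex.exp (η2 T l)) ∧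
        Spec k (Sum.elim a b) (Sum.elim (x T) (W T)) := by
    filter_upwards [hW1] with T hT
    exact hW T hT
  -- the extended points
  obtain ⟨b', hb'⟩ : ∃ b' : ℕ → Fin (m + 1) → ℂ, b' = fun T => Function.extend ι (b2 T) (W T) :=
    ⟨_, rfl⟩
  obtain ⟨η, hη⟩ : ∃ η : ℕ → Fin (m + 1) → ℂ, η = fun T => Function.extend ι (η2 T) 0 :=
    ⟨_, rfl⟩
  obtain ⟨ηi, hηi⟩ : ∃ ηi : Fin (m + 1) → ℂ, ηi = Function.extend ι ηi2 0 := ⟨_, rfl⟩
  have eb1 : ∀ T l, b' T (ι l) = b2 T l := by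
    intro T l
    rw [hb']
    exact hι.extend_apply _ _ _
  have eb2 : ∀ T j, j ∉ Set.range ι → b' T j = W T j := by
    intro T j hj
    rw [hb']
    exact Function.extend_apply' _ _ _ hj
  have eη1 : ∀ T l, η T (ι l) = η2 T l := by
    intro T l
    rw [hη]
    exact hι.extend_apply _ _ _
  have eη2 : ∀ T j, j ∉ Set.range ι → η T j = 0 := by
    intro T j hj
    rw [hη]
    exact Function.extend_apply' _ _ _ hj
  have ei1 : ∀ l, ηi (ι l) = ηi2 l := by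
    intro l
    rw [hηi]
    exact hι.extend_apply _ _ _
  have ei2 : ∀ j, j ∉ Set.range ι → ηi j = 0 := by
    intro j hj
    rw [hηi]
    exact Function.extend_apply' _ _ _ hj
  have hb'0 : ∀ T j, b' T j ≠ 0 := by
    intro T j
    by_cases hj : j ∈ Set.range ι
    · obtain ⟨l', rfl⟩ := hj
      rw [eb1]
      exact hb0 T l'
    · rw [eb2 T j hj]
      exact hWne T j
  have hbe : ∀ᶠ T : ℕ in (𝒰 : Filter ℕ),
      (fun j => b' T j * Complex.exp (η T j)) = W T := by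
    filter_upwards [hW2] with T hT
    funext j
    by_cases hj : j ∈ Set.range ι
    · obtain ⟨l', rfl⟩ := hj
      rw [eb1, eη1, hT.1]
    · rw [eb2 T j hj, eη2 T j hj, Complex.exp_zero, mul_one]
  have hG : Good k β 𝒰 (fun T => b' T (ι l)) (Complex.exp (ηi (ι l))) := by
    rw [ei1, show (fun T => b' T (ι l)) = fun T => b2 T l from funext fun T => eb1 T l]
    exact hgood
  -- growth of all coordinates
  have hlogT : ∀ᶠ T : ℕ in (𝒰 : Filter ℕ), (3 : ℕ) ≤ T := h𝒰 (eventually_ge_atTop 3)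
  have hgr : ∀ j, ∃ Cj : ℝ, ∀ᶠ T : ℕ in (𝒰 : Filter ℕ),
      |Real.log ‖b' T j‖| ≤ Cj * Real.log T := by
    intro j
    by_cases hj : j ∈ Set.range ι
    · obtain ⟨l', rfl⟩ := hj
      refine ⟨C1, ?_⟩
      filter_upwards [hC1] with T hT
      rw [eb1]
      exact hT l'
    · have hlj : ι l ≠ j := fun h => hj ⟨l, h⟩
      have hv : ∀ᶠ T : ℕ in (𝒰 : Filter ℕ), W T j ≠ 0 := Eventually.of_forall fun T => hWne T j
      obtain ⟨C', hC'⟩ := bdd_other k β 𝒰 h𝒰 (fun T => b2 T l * Complex.exp (η2 T l))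
        (fun T => W T j) hv
        (fun M hM => good_low k β 𝒰 h𝒰 (fun T => b2 T l) _ hgood C1
          (hC1.mono fun T hT => hT l) (fun T => Complex.exp (η2 T l)) hz M hM)
        (C1 + 1) (by
          filter_upwards [hC1, h3, hlogT] with T hT1 hT3 hT
          have hT0 : (3 : ℝ) ≤ T := by exact_mod_cast hT
          have hTp : (0 : ℝ) < T := by linarith
          rw [norm_mul, Real.rpow_add hTp, Real.rpow_one]
          refine mul_le_mul ?_ ?_ (norm_nonneg _) (Real.rpow_nonneg hTp.le _)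
          · have h8 := (abs_le.1 (hT1 l)).2
            rw [Real.rpow_def_of_pos hTp, ← Real.log_le_iff_le_exp (norm_pos_iff.2 (hb0 T l))]
            linarith [mul_comm C1 (Real.log T)]
          · rw [Complex.norm_exp]
            have h9 : (η2 T l).re ≤ 1 := by
              have h10 := (Complex.re_le_norm (η2 T l)).trans
                ((norm_le_pi_norm (η2 T) l).trans hT3.2.1)
              linarith
            have h11 : Real.exp (η2 T l).re ≤ Real.exp 1 := Real.exp_le_exp.2 h9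
            have h12 := Real.exp_one_lt_d9
            linarith)
        (P (ι l) j) (hP _ _ hlj) (by
          filter_upwards [hW2, hxs] with T hT hxT
          have h8 := hPV (ι l) j hlj (x T) (W T) hT.2
          rw [hxT, hT.1 l] at h8
          exact h8)
      refine ⟨C', ?_⟩
      filter_upwards [hC'] with T hT
      rw [eb2 T j hj]
      exact hT
  choose Cj hCj using hgr
  have hgr2 : ∀ᶠ T : ℕ in (𝒰 : Filter ℕ), ∀ j,
      |Real.log ‖b' T j‖| ≤ (∑ j, |Cj j|) * Real.log T := by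
    filter_upwards [eventually_all.2 hCj, hlogT] with T hT hT3 j
    have hT0 : (3 : ℝ) ≤ T := by exact_mod_cast hT3
    refine (hT j).trans (mul_le_mul_of_nonneg_right ?_ (Real.log_nonneg (by linarith)))
    exact (le_abs_self _).trans
      (Finset.single_le_sum (f := fun j => |Cj j|) (fun i _ => abs_nonneg _) (Finset.mem_univ j))
  have hsumη : ∀ T, ∑ l, (c (ι l) : ℂ) * η2 T l = ∑ j, (c j : ℂ) * η T j := fun T =>
    Fintype.sum_of_injective ι hι _ _ (fun j hj => by rw [eη2 T j hj, mul_zero])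
      fun l => by rw [eη1]
  have hsumi : ∑ l, (c (ι l) : ℂ) * ηi2 l = ∑ j, (c j : ℂ) * ηi j :=
    Fintype.sum_of_injective ι hι _ _ (fun j hj => by rw [ei2 j hj, mul_zero])
      fun l => by rw [ei1]
  have hsumb : ∀ T, ∑ l, c (ι l) * Real.log ‖b2 T l‖ = ∑ j, c j * Real.log ‖b' T j‖ := fun T =>
    Fintype.sum_of_injective ι hι _ _ (fun j hj => by rw [hc0 j hj, zero_mul])
      fun l => by rw [eb1]
  refine ⟨b', l, θ, η, ηi, ∑ j, |Cj j|, hb'0, ?_, ?_, ?_, ?_, ?_, ?_⟩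
  · filter_upwards [h2, h3, hW2, hbe, hgr2] with T hT2 hT3 hTW hTe hTg
    refine ⟨?_, ?_, ?_, ?_, hTg⟩
    · rw [hTe]
      exact hTW.2
    · rw [pi_norm_le_iff_of_nonneg (by norm_num)]
      intro j
      by_cases hj : j ∈ Set.range ι
      · obtain ⟨l', rfl⟩ := hj
        rw [eη1]
        exact (norm_le_pi_norm (η2 T) l').trans hT3.2.1
      · rw [eη2 T j hj, norm_zero]
        norm_num
    · rw [← hsumη]
      exact hT3.2.2
    · rw [← hsumb]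
      exact hT2.2.2.2.1
  · rw [pi_norm_le_iff_of_nonneg (by norm_num)]
    intro j
    by_cases hj : j ∈ Set.range ι
    · obtain ⟨l', rfl⟩ := hj
      rw [ei1]
      exact (norm_le_pi_norm ηi2 l').trans h4
    · rw [ei2 j hj, norm_zero]
      norm_num
  · rw [← hsumi]
    exact h5
  · rw [tendsto_pi_nhds]
    intro j
    by_cases hj : j ∈ Set.range ι
    · obtain ⟨l', rfl⟩ := hj
      rw [ei1, show (fun T => η T (ι l')) = fun T => η2 T l' from funext fun T => eη1 T l']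
      exact (tendsto_pi_nhds.1 h6) l'
    · rw [ei2 j hj, show (fun T => η T j) = fun _ => 0 from funext fun T => eη2 T j hj]
      exact tendsto_const_nhds
  · intro M hM
    exact good_ne k β 𝒰 _ _ hG M hM
  · intro δ hδ
    exact pair_good k β hβ 𝒰 h𝒰 b' hb'0 (fun j => Complex.exp (ηi j)) (ι l) hG (P (ι l))
      (fun j hj => hP _ _ hj.symm) δ hδ

end Pool.Agent.EXV
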