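import Pool.Agent.EXI.CTd
import Pool.Agent.EXI.CDefs

/-!
# EXV / TrV: a coordinate of the isogenous tuple is transcendental over `k(a')`

PROOF.  `w` = the row `0` of the adjugate of `M` times the sign of `D = det M`: `∑ w_j M_ji = |D| δ_0i`, so `b'_0 ^ |D| = ∏ b_j ^ w_j =: u` and
the order of `u` at the place is `∑ w_j v_j = |D| > 0`: `u = t ^ |D| * ε` in `K`, `u ∈ O`, `ρ u = 0`. If `b'_0` were algebraic over `k[a']`, so
over `k[a]` (`a' = M⁻¹ a`, `ℚ ⊆ k`), so would be `u`: a relation `∑_i N_i(a) u^i = 0` with `N_0(a) ≠ 0` (divide by a power of `u`); apply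
`ρ` (all in `O`): `N_0(ρ θ) = 0`, so `N_0(a) = 0` by `hrel`.
-/

set_option autoImplicit false

namespace Pool.Agent.EXV

open MvPolynomial Pool.Agent.EXL Pool.Agent.EXI

private lemma tv_zsum {F : Type*} [Field F] {x : F} (hx : x ≠ 0) {ι : Type*} (s : Finset ι)
    (f : ι → ℤ) : ∏ j ∈ s, x ^ f j = x ^ ∑ j ∈ s, f j := by
  classical
  induction s using Finset.induction_on with
  | empty => simp
  | insert a s ha ih => rw [Finset.prod_insert ha, Finset.sum_insert ha, zpow_add₀ hx, ih]

private lemma tv_unit {k : Subfield ℂ} {K : Type} [Field K] [Algebra k K] (pl : Place k K)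
    (e : pl.O) (he : pl.ρ e ≠ 0) (w : ℤ) : (e : K) ^ w ∈ pl.O := by
  obtain ⟨n, rfl | rfl⟩ := w.eq_nat_or_neg
  · rw [zpow_natCast]
    exact pow_mem e.2 n
  · rw [zpow_neg, zpow_natCast, ← inv_pow]
    exact pow_mem (pl.inv_mem e he) n

/-- the values of a polynomial at elements of `O` -/
private lemma tv_ev {k : Subfield ℂ} {K : Type} [Field K] [Algebra k K] (pl : Place k K)
    {n : ℕ} (θ : Fin n → pl.O) (N : MvPolynomial (Fin n) k) :
    ∃ e : pl.O, (e : K) = aeval (fun j => (θ j : K)) N ∧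
      pl.ρ e = aeval (fun j => pl.ρ (θ j)) N := by
  set φ : k →+* pl.O := (algebraMap k K).codRestrict pl.O pl.memk with hφ
  refine ⟨eval₂ φ θ N, ?_, ?_⟩
  · have h1 := MvPolynomial.hom_eval₂ N φ pl.O.subtype θ
    rw [aeval_def]
    exact h1
  · have h1 := MvPolynomial.hom_eval₂ N φ pl.ρ θ
    have h2 : pl.ρ.comp φ = algebraMap k ℂ := RingHom.ext fun c => pl.ρk c
    rw [h1, h2, aeval_def]

theorem transV (k : Subfield ℂ) {m : ℕ} (a b : Fin (m + 1) → ℂ) (hb : ∀ j, b j ≠ 0)
    (pl : Place k (IntermediateField.adjoin k (Set.range (Sum.elim a b))))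
    (A B : Fin (m + 1) → IntermediateField.adjoin k (Set.range (Sum.elim a b)))
    (v : Fin (m + 1) → ℤ) (θ : Fin (m + 1) → pl.O) (hA : ∀ j, (A j : ℂ) = a j)
    (hB : ∀ j, (B j : ℂ) = b j) (hθ : ∀ j, (θ j :
        IntermediateField.adjoin k (Set.range (Sum.elim a b))) = A j)
    (hrel : ∀ f : MvPolynomial (Fin (m + 1)) k, aeval (fun j => pl.ρ (θ j)) f = 0 ↔ aeval a f = 0)
    (hε : ∀ j, ∃ ε : pl.O, pl.ρ ε ≠ 0 ∧ B j = pl.t ^ v j * ε)
    (M : Matrix (Fin (m + 1)) (Fin (m + 1)) ℤ) (hM : M.det ≠ 0) (hM0 : ∀ i, M i 0 = v i)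
    (a' b' : Fin (m + 1) → ℂ) (hb' : ∀ j, b' j ≠ 0) (ha' : linZ M a' = a) (hbb : powZ M b' = b) :
    ¬ IsAlgebraic (Algebra.adjoin k (Set.range a')) (b' 0) := by
  intro halg
  set D : ℤ := M.det with hD
  have hadj : ∀ i l, ∑ j, M.adjugate i j * M j l = if i = l then D else 0 := by
    intro i l
    have h1 := congrFun (congrFun (Matrix.adjugate_mul M) i) l
    rw [Matrix.mul_apply, Matrix.smul_apply, Matrix.one_apply] at h1
    rw [h1]
    split_ifs <;> simp [hD]
  -- `k[a'] ≤ k[a]`
  have hle : Algebra.adjoin k (Set.range a') ≤ Algebra.adjoin k (Set.range a) := by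
    rw [Algebra.adjoin_le_iff]
    rintro _ ⟨i, rfl⟩
    have h1 : (D : ℂ) * a' i = ∑ j, ((M.adjugate i j : ℤ) : ℂ) * a j := by
      have h2 : ∀ j, a j = ∑ l, (M j l : ℂ) * a' l := fun j => by
        rw [← ha']
        rfl
      have h3 : ∀ l, ∑ j, ((M.adjugate i j : ℤ) : ℂ) * (M j l : ℂ) = if i = l then (D : ℂ) else 0 := by
        intro l
        have := congrArg (Int.cast : ℤ → ℂ) (hadj i l)
        push_cast at this
        exact this
      symm
      calc ∑ j, ((M.adjugate i j : ℤ) : ℂ) * a j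
          = ∑ j, ∑ l, ((M.adjugate i j : ℤ) : ℂ) * ((M j l : ℂ) * a' l) := by
            refine Finset.sum_congr rfl fun j _ => ?_
            conv_lhs => rw [h2 j]
            rw [Finset.mul_sum]
        _ = ∑ l, (∑ j, ((M.adjugate i j : ℤ) : ℂ) * (M j l : ℂ)) * a' l := by
            rw [Finset.sum_comm]
            refine Finset.sum_congr rfl fun l _ => ?_
            rw [Finset.sum_mul]
            exact Finset.sum_congr rfl fun j _ => by ring
        _ = ∑ l, (if i = l then (D : ℂ) else 0) * a' l :=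
            Finset.sum_congr rfl fun l _ => by rw [h3 l]
        _ = (D : ℂ) * a' i := by simp
    have hDc : (D : ℂ) ≠ 0 := by exact_mod_cast hM
    have h4 : a' i = (algebraMap k ℂ ((D : k)⁻¹)) * ∑ j, algebraMap k ℂ (M.adjugate i j : k) * a j := by
      have h5 : algebraMap k ℂ ((D : k)⁻¹) = (D : ℂ)⁻¹ := by
        rw [map_inv₀, map_intCast]
      have h6 : ∑ j, algebraMap k ℂ (M.adjugate i j : k) * a j =
          ∑ j, ((M.adjugate i j : ℤ) : ℂ) * a j :=
        Finset.sum_congr rfl fun j _ => by rw [map_intCast]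
      rw [h5, h6, ← h1, inv_mul_cancel_left₀ hDc]
    rw [SetLike.mem_coe, h4]
    refine mul_mem (Subalgebra.algebraMap_mem _ _) (sum_mem fun j _ => ?_)
    exact mul_mem (Subalgebra.algebraMap_mem _ _) (Algebra.subset_adjoin ⟨j, rfl⟩)
  -- the exponents
  set w : Fin (m + 1) → ℤ := fun j => D.sign * M.adjugate 0 j with hw
  set n : ℕ := D.natAbs with hn
  have hn0 : n ≠ 0 := Int.natAbs_ne_zero.2 hM
  have hwM : ∀ i, ∑ j, M j i * w j = if i = 0 then (n : ℤ) else 0 := by
    intro i
    have h1 : ∑ j, M j i * w j = D.sign * ∑ j, M.adjugate 0 j * M j i := by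
      rw [Finset.mul_sum]
      exact Finset.sum_congr rfl fun j _ => by rw [hw]; ring
    rw [h1, hadj]
    by_cases hi : i = 0
    · rw [if_pos hi.symm, if_pos hi, hn, Int.natCast_natAbs]
      exact Int.sign_mul_self_eq_abs D
    · rw [if_neg (Ne.symm hi), if_neg hi, mul_zero]
  -- the element
  set u : IntermediateField.adjoin k (Set.range (Sum.elim a b)) := ∏ j, B j ^ w j with hu
  have huc : (u : ℂ) = b' 0 ^ n := by
    have h1 : (u : ℂ) = ∏ j, b j ^ w j := by
      have h2 : (u : ℂ) =
          (algebraMap (IntermediateField.adjoin k (Set.range (Sum.elim a b))) ℂ) u := rfl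
      rw [h2, hu, map_prod]
      refine Finset.prod_congr rfl fun j _ => ?_
      rw [map_zpow₀]
      congr 1
      exact hB j
    rw [h1]
    calc ∏ j, b j ^ w j = ∏ j, ∏ i, b' i ^ (M j i * w j) := by
          refine Finset.prod_congr rfl fun j _ => ?_
          have h3 : b j = ∏ i, b' i ^ M j i := by
            rw [← hbb]
            rfl
          rw [h3, ← Finset.prod_zpow]
          exact Finset.prod_congr rfl fun i _ => (zpow_mul _ _ _).symm
      _ = ∏ i, b' i ^ (∑ j, M j i * w j) := by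
          rw [Finset.prod_comm]
          exact Finset.prod_congr rfl fun i _ => tv_zsum (hb' i) _ _
      _ = ∏ i, b' i ^ (if i = 0 then (n : ℤ) else 0) :=
          Finset.prod_congr rfl fun i _ => by rw [hwM i]
      _ = b' 0 ^ n := by
          rw [Finset.prod_eq_single (0 : Fin (m + 1))]
          · rw [if_pos rfl, zpow_natCast]
          · intro i _ hi
            rw [if_neg hi, zpow_zero]
          · intro h
            exact absurd (Finset.mem_univ _) h
  choose ε hε0 hεB using hε
  have hut : ∃ E : pl.O, u = pl.t ^ n * E := by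
    refine ⟨⟨∏ j, (ε j : IntermediateField.adjoin k (Set.range (Sum.elim a b))) ^ w j,
      prod_mem fun j _ => tv_unit pl (ε j) (hε0 j) (w j)⟩, ?_⟩
    rw [hu]
    have h1 : ∀ j, B j ^ w j = pl.t ^ (M j 0 * w j) *
        (ε j : IntermediateField.adjoin k (Set.range (Sum.elim a b))) ^ w j := by
      intro j
      rw [hεB j, mul_zpow, ← zpow_mul, hM0]
    rw [Finset.prod_congr rfl fun j _ => h1 j, Finset.prod_mul_distrib, tv_zsum pl.t_ne, hwM,
      if_pos rfl, zpow_natCast]
  obtain ⟨E, hE⟩ := hut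
  set U : pl.O := ⟨pl.t, pl.t_mem⟩ ^ n * E with hU
  have hUu : (U : IntermediateField.adjoin k (Set.range (Sum.elim a b))) = u := by
    rw [hE]
    rfl
  have hρU : pl.ρ U = 0 := by
    rw [hU, map_mul, map_pow, pl.ρt, zero_pow hn0, zero_mul]
  -- `u` is algebraic over `k[a]`
  have hualg : IsAlgebraic (Algebra.adjoin k (Set.range a)) (u : ℂ) := by
    rw [huc]
    refine IsAlgebraic.pow ?_ n
    obtain ⟨p, hp0, hp⟩ := halg
    refine ⟨p.map (Subalgebra.inclusion hle).toRingHom, ?_, ?_⟩
    · rwa [Ne, Polynomial.map_eq_zero_iff (Subalgebra.inclusion_injective hle)]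
    · rw [Polynomial.aeval_def, Polynomial.eval₂_map]
      rw [Polynomial.aeval_def] at hp
      exact hp
  have hu0 : (u : ℂ) ≠ 0 := by
    rw [huc]
    exact pow_ne_zero _ (hb' 0)
  obtain ⟨q, hq0, hq⟩ := hualg.exists_nonzero_coeff_and_aeval_eq_zero
    (mem_nonZeroDivisors_of_ne_zero hu0)
  have hN : ∀ i, ∃ N : MvPolynomial (Fin (m + 1)) k, aeval a N = (q.coeff i : ℂ) := by
    intro i
    have h1 : ∀ x ∈ Algebra.adjoin k (Set.range a), ∃ N : MvPolynomial (Fin (m + 1)) k,
        aeval a N = x := by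
      intro x hx
      rw [Algebra.adjoin_range_eq_range_aeval] at hx
      exact hx
    exact h1 _ (q.coeff i).2
  choose N hN using hN
  choose ev hev1 hev2 using fun i => tv_ev pl θ (N i)
  set S : pl.O := ∑ i ∈ Finset.range (q.natDegree + 1), ev i * U ^ i with hS
  have hS0 : S = 0 := by
    have h1 : (((S : pl.O) : IntermediateField.adjoin k (Set.range (Sum.elim a b))) : ℂ) = 0 := by
      have h2 : (((S : pl.O) : IntermediateField.adjoin k (Set.range (Sum.elim a b))) : ℂ) =
          ((algebraMap (IntermediateField.adjoin k (Set.range (Sum.elim a b))) ℂ).comp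
            pl.O.subtype) S := rfl
      rw [h2, hS, map_sum]
      rw [Polynomial.aeval_eq_sum_range] at hq
      rw [← hq]
      refine Finset.sum_congr rfl fun i _ => ?_
      rw [map_mul, map_pow]
      have h3 : ((algebraMap (IntermediateField.adjoin k (Set.range (Sum.elim a b))) ℂ).comp
            pl.O.subtype) (ev i) = (q.coeff i : ℂ) := by
        have h4 : ((algebraMap (IntermediateField.adjoin k (Set.range (Sum.elim a b))) ℂ).comp
            pl.O.subtype) (ev i) = algebraMap _ ℂ
              ((ev i : pl.O) : IntermediateField.adjoin k (Set.range (Sum.elim a b))) := rfl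
        rw [h4, hev1 i, ← hN i]
        have h5 : (fun j => ((θ j : pl.O) :
            IntermediateField.adjoin k (Set.range (Sum.elim a b)))) = A := funext hθ
        rw [h5, ← aeval_algebraMap_apply]
        congr 1
        congr 1
        funext j
        exact hA j
      have h4 : ((algebraMap (IntermediateField.adjoin k (Set.range (Sum.elim a b))) ℂ).comp
            pl.O.subtype) U = (u : ℂ) := by
        rw [← hUu]
        rfl
      rw [h3, h4]
      rfl
    exact Subtype.ext (Subtype.ext h1)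
  have h1 : pl.ρ S = aeval (fun j => pl.ρ (θ j)) (N 0) := by
    rw [hS, map_sum, Finset.sum_eq_single_of_mem 0 (Finset.mem_range.2 (Nat.succ_pos _))]
    · rw [pow_zero, mul_one, hev2]
    · intro i _ hi
      rw [map_mul, map_pow, hρU, zero_pow hi, mul_zero]
  rw [hS0, map_zero] at h1
  have h2 := (hrel (N 0)).1 h1.symm
  rw [hN 0] at h2
  exact hq0 (Subtype.ext h2)

end Pool.Agent.EXV
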